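import Pool.Agent.Lib.TWT.FreeA7

/-!
# TANK W, leaf (IV), all ranks: freeness over a group `G` with finite `G / p G`

`Rps p G Λ`: the finite set `Λ` represents `G / p G`. The statements of `FreeP` and `FreeA7` with
`l * g₀`, `l < p`, replaced by `c ∈ Λ`.
-/

set_option autoImplicit false

open Polynomial Finset

namespace Pool.Agent.TWT

open Pool.Agent.H15JM (RVal)
open Pool.Agent.TWM

universe u

/-- Representatives of `G / p G`. -/
structure Rps (p : ℕ) (G : AddSubgroup ℝ) (Λ : Finset ℝ) : Prop where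
  mem : ∀ c ∈ Λ, c ∈ G
  zero : (0 : ℝ) ∈ Λ
  rep : ∀ g ∈ G, ∃ c ∈ Λ, ∃ g' ∈ G, g = c + p * g'
  inj : ∀ c ∈ Λ, ∀ c' ∈ Λ, (c - c') / p ∈ G → c = c'

/-- Representatives of `G / p G` represent `G' / p G'` for `G' / G` prime to `p`. -/
theorem Rps.up {p : ℕ} [Fact p.Prime] {G G' : AddSubgroup ℝ} {Λ : Finset ℝ} (h : Rps p G Λ)
    (hGG : G ≤ G') (htor : ∀ g ∈ G', ∃ n : ℕ, ¬ p ∣ n ∧ (n : ℝ) * g ∈ G) : Rps p G' Λ := by
  have hbez : ∀ n : ℕ, ¬ p ∣ n → ∃ a b : ℤ, (a : ℝ) * n + b * p = 1 := by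
    intro n hn
    have hcop : IsCoprime (n : ℤ) (p : ℤ) := by
      rw [Nat.isCoprime_iff_coprime]
      exact ((Nat.Prime.coprime_iff_not_dvd Fact.out).mpr hn).symm
    obtain ⟨a, b, hab⟩ := hcop
    exact ⟨a, b, by exact_mod_cast hab⟩
  have hcov : ∀ g ∈ G', ∃ c ∈ Λ, ∃ g' ∈ G', g = c + p * g' := by
    intro g hg
    obtain ⟨n, hn, h1⟩ := htor g hg
    obtain ⟨a, b, hab⟩ := hbez n hn
    obtain ⟨c, hc, g', hg', h2⟩ := h.rep _ (G.zsmul_mem h1 a)
    refine ⟨c, hc, g' + b • g, add_mem (hGG hg') (G'.zsmul_mem hg b), ?_⟩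
    rw [zsmul_eq_mul] at h2 ⊢
    linear_combination (-g) * hab + h2
  refine ⟨fun c hc => hGG (h.mem c hc), h.zero, hcov, ?_⟩
  intro c hc c' hc' hcc
  obtain ⟨n, hn, h1⟩ := htor _ hcc
  refine h.inj c hc c' hc' (mem_of_coprime (p := p) hn h1 (m := 1) ?_)
  rw [pow_one, mul_div_cancel₀ _ (Nat.cast_ne_zero.mpr (Fact.out : p.Prime).ne_zero)]
  exact sub_mem (h.mem c hc) (h.mem c' hc')

theorem Rps.satp {p : ℕ} [Fact p.Prime] {G : AddSubgroup ℝ} {Λ : Finset ℝ} (h : Rps p G Λ) :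
    Rps p (satp p G) Λ := h.up le_satp fun _ hg => hg

section main

variable {k Ω : Type u} [Field k] [Field Ω] [Algebra k Ω] {v : RVal Ω}
  {p : ℕ} {G : AddSubgroup ℝ} {M : ℝ → Ω} {Z L : ℝ → Ω → Prop} {Λ : Finset ℝ} [Fact p.Prime]
  [CharP k p] [CharP Ω p]

/-- The property (P), for representatives of `G / p G`. -/
def PropPR (p : ℕ) (M : ℝ → Ω) (Z L : ℝ → Ω → Prop) (Λ : Finset ℝ) : Prop :=
  ∀ (q : Ω) (e : ℝ → Ω), L 0 q → (∀ l ∈ Λ, l ≠ 0 → L (-l / p) (e l)) →
    Z 0 (q ^ p - q - ∑ l ∈ Λ.erase 0, M l * e l ^ p) → Z 0 q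

omit [CharP Ω p] in
/-- (P) for `F - a`, `a ≠ 0`. -/
theorem PropPR.scale [IsAlgClosed k] (hM : MS v G M) (hZ : GSub k p G M Z) (hL : GSub k p G M L)
    (hP : PropPR p M Z L Λ) {a : k} (ha : a ≠ 0) {q : Ω} {e : ℝ → Ω} (hq : L 0 q)
    (he : ∀ l ∈ Λ, l ≠ 0 → L (-l / p) (e l))
    (h : Z 0 (q ^ p - algebraMap k Ω a * q + ∑ l ∈ Λ.erase 0, M l * e l ^ p)) :
    Z 0 q := by
  have hp1 : 0 < p - 1 := Nat.sub_pos_of_lt (Fact.out : p.Prime).one_lt
  obtain ⟨t, ht⟩ := IsAlgClosed.exists_pow_nat_eq a hp1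
  have ht0 : t ≠ 0 := by
    rintro rfl
    rw [zero_pow hp1.ne'] at ht
    exact ha ht.symm
  have htp : t ^ p = a * t := by
    rw [← ht, ← pow_succ, Nat.sub_add_cancel (Fact.out : p.Prime).one_lt.le]
  have hsc : ∀ (Y : ℝ → Ω → Prop), GSub k p G M Y → ∀ (c : k) (s : ℝ) (x : Ω), Y s x →
      Y s (algebraMap k Ω c * x) := by
    intro Y hY c s x hx
    have h1 := hY.op c s 0 0 x G.zero_mem hx
    rwa [pow_zero, one_mul, zero_add, pow_zero, pow_one, hM.zero, mul_one] at h1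
  have h1 : Z 0 (algebraMap k Ω t⁻¹ * q) := by
    refine hP (algebraMap k Ω t⁻¹ * q) (fun l => algebraMap k Ω (-t⁻¹) * e l) (hsc L hL _ _ _ hq)
      (fun l hl hl' => hsc L hL _ _ _ (he l hl hl')) ?_
    have h2 := hsc Z hZ (t⁻¹ ^ p) 0 _ h
    have h3 : algebraMap k Ω (t⁻¹ ^ p) *
        (q ^ p - algebraMap k Ω a * q + ∑ l ∈ Λ.erase 0, M l * e l ^ p) =
        (algebraMap k Ω t⁻¹ * q) ^ p - algebraMap k Ω t⁻¹ * q -
          ∑ l ∈ Λ.erase 0, M l * (algebraMap k Ω (-t⁻¹) * e l) ^ p := by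
      have h4 : t⁻¹ ^ p * a = t⁻¹ := by
        rw [inv_pow, htp]
        field_simp
      have h5 : ∀ l ∈ Λ.erase 0, M l * (algebraMap k Ω (-t⁻¹) * e l) ^ p =
          -(algebraMap k Ω (t⁻¹ ^ p) * (M l * e l ^ p)) := by
        intro l _
        have h6 : (-t⁻¹ : k) ^ p = -(t⁻¹ ^ p) := by
          have h7 := neg_pow (t⁻¹ : k) p
          rw [h7, neg_one_pow_char k p]
          ring
        rw [mul_pow, ← _root_.map_pow, h6, _root_.map_neg]
        ring
      rw [Finset.sum_congr rfl h5, Finset.sum_neg_distrib, ← Finset.mul_sum, sub_neg_eq_add,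
        mul_add, mul_sub, ← mul_assoc, ← _root_.map_mul, h4, mul_pow, ← _root_.map_pow]
    rw [h3] at h2
    exact h2
  have h2 := hsc Z hZ t 0 _ h1
  rwa [← mul_assoc, ← _root_.map_mul, mul_inv_cancel₀ ht0, _root_.map_one, one_mul] at h2

omit [CharP k p] [CharP Ω p] in
/-- The step of the elimination: a monomial operator from a radius outside `G` to the radius `0` is
a `M l e ^ p`, `0 ≠ l ∈ Λ`. -/
theorem mono_classR [IsAlgClosed k] (hM : MS v G M) (hL : GSub k p G M L) (hΛ : Rps p G Λ)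
    {s : ℝ} {e : ℕ}
    (he : (p : ℝ) ^ e * s ∈ G) (hmin : ∀ j, (p : ℝ) ^ j * s ∈ G → e ≤ j) (hs : s ∉ G) (c : k)
    {x : Ω} (hx : L s x) : ∃ (l : ℝ) (y : Ω), l ∈ Λ ∧ l ≠ 0 ∧ L (-l / p) y ∧
      ev p M s 0 (C c * X ^ e) x = M l * y ^ p := by
  have hp0 : (p : ℝ) ≠ 0 := Nat.cast_ne_zero.mpr (Fact.out : p.Prime).ne_zero
  obtain ⟨e', rfl⟩ : ∃ e', e = e' + 1 := by
    refine ⟨e - 1, ?_⟩
    have h0 : e ≠ 0 := by
      rintro rfl
      rw [pow_zero, one_mul] at he
      exact hs he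
    omega
  obtain ⟨l, hl, g', hg', hgl⟩ := hΛ.rep _ (G.neg_mem he)
  obtain ⟨γ, hγ⟩ := IsAlgClosed.exists_pow_nat_eq c (Fact.out : p.Prime).pos
  have hgg : g' = -l / p - (p : ℝ) ^ e' * s := by
    field_simp
    rw [pow_succ] at hgl
    linarith
  have hl0 : l ≠ 0 := by
    intro h0
    rw [h0, neg_zero, zero_div, zero_sub] at hgg
    have h1 := G.neg_mem hg'
    rw [hgg, neg_neg] at h1
    have := hmin e' h1
    omega
  have hlg : l ∈ G := hΛ.mem l hl
  refine ⟨l, algebraMap k Ω γ * M g' * x ^ p ^ e', hl, hl0, ?_, ?_⟩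
  · have h1 := hL.op γ s g' e' x hg' hx
    have h2 : g' + (p : ℝ) ^ e' * s = -l / p := by rw [hgg]; ring
    rwa [h2] at h1
  · rw [ev_mono, mul_pow, mul_pow, ← _root_.map_pow, hγ, ← pow_mul, ← pow_succ]
    have h1 : (0 : ℝ) - (p : ℝ) ^ (e' + 1) * s = l + p * g' := by rw [zero_sub]; exact hgl
    have h2 : M (l + p * g') = M l * M g' ^ p := by
      rw [hM.mul _ hlg _ (by rw [← nsmul_eq_mul]; exact G.nsmul_mem hg' _), hM.pow hg']
    rw [h1, h2]
    ring

/-- **Elimination.** A relation at the radius `0` with exactly one operator `P` from a radius in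
`G`, with non zero constant term. -/
theorem elim_allR [IsAlgClosed k] (hM : MS v G M) (hZ : GSub k p G M Z) (hL : GSub k p G M L)
    (hΛ : Rps p G Λ) (hP : PropPR p M Z L Λ) {ι : Type*} [DecidableEq ι] {r : ι → ℝ} {w : ι → Ω} {S : Finset ι}
    (hw : ∀ i ∈ S, L (r i) (w i)) {i₀ : ι}
    (hi₀ : i₀ ∈ S) (hri₀ : r i₀ ∈ G) (d : ℕ) : ∀ (P : k[X]) (Q : ι → k[X]), P.natDegree = d →
      P.coeff 0 ≠ 0 → (∀ i ∈ S.erase i₀, IsOp p G (r i) 0 (Q i)) →
      (∀ i ∈ S.erase i₀, Q i ≠ 0 → r i ∉ G) →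
      Z 0 (ev p M (r i₀) 0 P (w i₀) + ∑ i ∈ S.erase i₀, ev p M (r i) 0 (Q i) (w i)) →
      InSpan k p G M Z r w (S.erase i₀) (r i₀) (w i₀) := by
  classical
  induction d with
  | zero =>
    intro P Q hd h0 hQ _ hrel
    have hPc : P = C (P.coeff 0) := eq_C_of_natDegree_eq_zero hd
    refine inSpan_of_const (R := 0) (Q := Function.update Q i₀ P) hM hZ ?_ ?_ hi₀ h0 ?_
    · intro i hi
      by_cases h : i = i₀
      · rw [h, Function.update_self]
        exact isOp_of_mem hri₀ P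
      · rw [Function.update_of_ne h]
        exact hQ i (Finset.mem_erase.mpr ⟨h, hi⟩)
    · rw [← Finset.add_sum_erase S _ hi₀, Function.update_self]
      have h1 : ∑ i ∈ S.erase i₀, ev p M (r i) 0 (Function.update Q i₀ P i) (w i) =
          ∑ i ∈ S.erase i₀, ev p M (r i) 0 (Q i) (w i) := by
        refine Finset.sum_congr rfl fun i hi => ?_
        rw [Function.update_of_ne (Finset.ne_of_mem_erase hi)]
      rw [h1]
      exact hrel
    · rw [Function.update_self]
      exact hPc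
  | succ d ih =>
    intro P Q hd h0 hQ hQG hrel
    obtain ⟨a, P', ha, h0', hd', hPP⟩ := exists_left_factor (p := p) h0 hd
    -- the least exponents
    have hex : ∀ i ∈ S.erase i₀, Q i ≠ 0 → ∃ e : ℕ, (p : ℝ) ^ e * r i ∈ G ∧
        ∀ j : ℕ, (p : ℝ) ^ j * r i ∈ G → e ≤ j := by
      intro i hi hQi
      have hri : ∃ n : ℕ, (p : ℝ) ^ n * r i ∈ G := by
        refine ⟨(Q i).natDegree, ?_⟩
        have h1 := G.neg_mem (hQ i hi (Q i).natDegree (leadingCoeff_ne_zero.mpr hQi))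
        rwa [zero_sub, neg_neg] at h1
      exact ⟨Nat.find hri, Nat.find_spec hri, fun j hj => Nat.find_min' hri hj⟩
    have hdiv : ∀ i, ∃ (D : k[X]) (c : k) (l : ℝ) (y : Ω), i ∈ S.erase i₀ →
        IsOp p G (r i) 0 D ∧ (D ≠ 0 → r i ∉ G) ∧ (y ≠ 0 → l ∈ Λ ∧ l ≠ 0) ∧ L (-l / p) y ∧
        ev p M (r i) 0 (Q i) (w i) = ev p M 0 0 (X - C a) (ev p M (r i) 0 D (w i)) +
          M l * y ^ p := by
      intro i
      by_cases hi : i ∈ S.erase i₀
      · by_cases hQi : Q i = 0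
        · refine ⟨0, 0, 0, 0, fun _ => ⟨IsOp.zero, fun h => absurd rfl h, fun h => absurd rfl h,
            hL.zero _, ?_⟩⟩
          rw [hQi, ev_zero, ev_zero_right, zero_pow (Fact.out : p.Prime).ne_zero, mul_zero,
            add_zero]
        · have hs := hQG i hi hQi
          obtain ⟨e, he, hmin⟩ := hex i hi hQi
          obtain ⟨D, c, hD, hQD⟩ := exists_div (p := p) (G := G) a he hmin (hQ i hi)
          obtain ⟨l, y, hl0, hl, hy, hev⟩ := mono_classR hM hL hΛ he hmin hs c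
            (hw i (Finset.mem_of_mem_erase hi))
          refine ⟨D, c, l, y, fun _ => ⟨hD, fun _ => hs, fun _ => ⟨hl0, hl⟩, hy, ?_⟩⟩
          rw [← hev, ← ev_tw hM hD (isOp_X_sub_C a), ← ev_add]
          exact congrArg (fun f => ev p M (r i) 0 f (w i)) hQD
      · exact ⟨0, 0, 0, 0, fun h => absurd h hi⟩
    choose D c l y hD using hdiv
    set T := S.erase i₀ with hT
    set q : Ω := ev p M (r i₀) 0 P' (w i₀) + ∑ i ∈ T, ev p M (r i) 0 (D i) (w i) with hq
    have hLq : L 0 q := by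
      refine hL.add _ _ _ (hL.ev (isOp_of_mem hri₀ P') (hw i₀ hi₀)) (hL.sum fun i hi => ?_)
      exact hL.ev (hD i hi).1 (hw i (Finset.mem_of_mem_erase hi))
    set E : ℝ → Ω := fun m => ∑ i ∈ T.filter (fun i => l i = m), y i with hE
    have hLE : ∀ m ∈ Λ, m ≠ 0 → L (-m / p) (E m) := by
      intro m _ _
      refine hL.sum fun i hi => ?_
      rw [Finset.mem_filter] at hi
      have h1 := (hD i hi.1).2.2.2.1
      rwa [hi.2] at h1
    have hzero : ∀ U : Finset ι, ∑ i ∈ U.filter (fun i => y i ≠ 0), M (l i) * y i ^ p =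
        ∑ i ∈ U, M (l i) * y i ^ p := by
      intro U
      refine Finset.sum_filter_of_ne fun i _ hi h => hi ?_
      rw [h, zero_pow (Fact.out : p.Prime).ne_zero, mul_zero]
    have hsum : ∑ m ∈ Λ.erase 0, M m * E m ^ p = ∑ i ∈ T, M (l i) * y i ^ p := by
      have h1 : ∀ m ∈ Λ.erase 0, M m * E m ^ p =
          ∑ i ∈ (T.filter (fun i => y i ≠ 0)).filter (fun i => l i = m), M (l i) * y i ^ p := by
        intro m _
        rw [Finset.filter_comm, hzero, hE]
        simp only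
        rw [sum_pow_char p, Finset.mul_sum]
        refine Finset.sum_congr rfl fun i hi => ?_
        rw [(Finset.mem_filter.mp hi).2]
      rw [Finset.sum_congr rfl h1, Finset.sum_fiberwise_of_maps_to ?_ _, hzero]
      intro i hi
      rw [Finset.mem_filter] at hi
      have h3 := (hD i hi.1).2.2.1 hi.2
      exact Finset.mem_erase.mpr ⟨h3.2, h3.1⟩
    have hZq : Z 0 q := by
      refine PropPR.scale hM hZ hL hP ha hLq hLE ?_
      have h1 : ev p M (r i₀) 0 P (w i₀) + ∑ i ∈ T, ev p M (r i) 0 (Q i) (w i) =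
          q ^ p - algebraMap k Ω a * q + ∑ m ∈ Λ.erase 0, M m * E m ^ p := by
        rw [hsum, ← ev_X_sub_C hM, hq, ev_add_right, ev_sum_right, hPP,
          ev_tw hM (isOp_of_mem hri₀ P') (isOp_X_sub_C a), add_assoc, ← Finset.sum_add_distrib]
        congr 1
        exact Finset.sum_congr rfl fun i hi => (hD i hi).2.2.2.2
      rw [← h1]
      exact hrel
    exact ih P' D hd' h0' (fun i hi => (hD i hi).1) (fun i hi h => (hD i hi).2.1 h) hZq

/-- No relation, by induction on the degree of its operators. -/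
theorem no_rel_allR [IsAlgClosed k] (hM : MS v G M) (hZ : GSub k p G M Z) (hL : GSub k p G M L)
    (hΛ : Rps p G Λ) (hdiv : ∀ (R : ℝ) (y : ℝ → Ω), (∀ l ∈ Λ, L ((R - l) / p) (y l)) →
      Z R (∑ l ∈ Λ, M l * y l ^ p) → ∀ l ∈ Λ, Z ((R - l) / p) (y l))
    (hP : PropPR p M Z L Λ) {ι : Type*} [DecidableEq ι] {r : ι → ℝ} {w : ι → Ω} {S : Finset ι}
    (hr : ∀ i ∈ S, ∀ m : ℕ, m ≠ 0 → (p : ℝ) ^ m * r i - r i ∈ G → r i ∈ G)
    (hw : ∀ i ∈ S, L (r i) (w i))
    (hmin : ∀ i ∈ S, ¬ InSpan k p G M Z r w (S.erase i) (r i) (w i)) (D : ℕ) :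
    ∀ (R : ℝ) (Q : ι → k[X]), (∀ i ∈ S, IsOp p G (r i) R (Q i)) →
      (∀ i ∈ S, (Q i).natDegree < D) → Z R (∑ i ∈ S, ev p M (r i) R (Q i) (w i)) →
      (∀ i ∈ S, ∀ j ∈ S, r i ∈ G → r j ∈ G → Q i ≠ 0 → Q j ≠ 0 → i = j) →
      ∀ i ∈ S, Q i = 0 := by
  classical
  have hp0 : (p : ℝ) ≠ 0 := Nat.cast_ne_zero.mpr (Fact.out : p.Prime).ne_zero
  induction D with
  | zero => intro R Q _ hD _ _ i hi; exact absurd (hD i hi) (Nat.not_lt_zero _)
  | succ D ih =>
    intro R Q hQ hD hrel huniq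
    by_cases hconst : ∃ i ∈ S, (Q i).coeff 0 ≠ 0
    · -- a constant term
      exfalso
      obtain ⟨i, hi, hi0⟩ := hconst
      have hRi : R - r i ∈ G := by
        have h := hQ i hi 0 hi0
        rwa [pow_zero, one_mul] at h
      by_cases hri : r i ∈ G
      · have hR : R ∈ G := by
          have h := G.add_mem hRi hri
          rwa [sub_add_cancel] at h
        -- shift to the radius `0`
        have hQ0 : ∀ j ∈ S, IsOp p G (r j) 0 (Q j) := by
          intro j hj m hm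
          have h := G.sub_mem (hQ j hj m hm) hR
          rwa [sub_sub_cancel_left, ← zero_sub] at h
        have hev : ∀ j ∈ S, ev p M (r j) 0 (Q j) (w j) =
            M (-R) * ev p M (r j) R (Q j) (w j) := by
          intro j hj
          rw [ev, ev, Polynomial.sum, Polynomial.sum, Finset.mul_sum]
          refine Finset.sum_congr rfl fun m hm => ?_
          have h1 := hM.mul (-R) (G.neg_mem hR) (R - (p : ℝ) ^ m * r j)
            (hQ j hj m (mem_support_iff.mp hm))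
          have h2 : -R + (R - (p : ℝ) ^ m * r j) = 0 - (p : ℝ) ^ m * r j := by ring
          rw [← h2, h1]
          ring
        have hrel0 : Z 0 (∑ j ∈ S, ev p M (r j) 0 (Q j) (w j)) := by
          have h1 := hZ.op 1 R (-R) 0 _ (G.neg_mem hR) hrel
          rw [pow_zero, one_mul, neg_add_cancel, pow_zero, pow_one, _root_.map_one, one_mul,
            Finset.mul_sum] at h1
          rwa [Finset.sum_congr rfl fun j hj => hev j hj]
        rw [← Finset.add_sum_erase S _ hi] at hrel0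
        refine hmin i hi (elim_allR hM hZ hL hΛ hP hw hi hri _ (Q i) Q rfl hi0
          (fun j hj => hQ0 j (Finset.mem_of_mem_erase hj)) (fun j hj hQj hrj => ?_) hrel0)
        exact Finset.ne_of_mem_erase hj (huniq j (Finset.mem_of_mem_erase hj) i hi hrj hri hQj
          (fun h => hi0 (by rw [h, coeff_zero])))
      · -- the operator is constant
        have hc : Q i = C ((Q i).coeff 0) := by
          ext m
          rw [coeff_C]
          split_ifs with hm
          · rw [hm]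
          · by_contra hm0
            apply hri
            have h1 := hQ i hi m hm0
            have h2 : (p : ℝ) ^ m * r i - r i ∈ G := by
              have h := G.sub_mem hRi h1
              rwa [sub_sub_sub_cancel_left] at h
            exact hr i hi m hm h2
        exact hmin i hi (inSpan_of_const hM hZ hQ hrel hi hi0 hc)
    · -- divide by `F`
      push Not at hconst
      rcases Nat.eq_zero_or_pos D with hD0 | hDpos
      · intro i hi
        ext m
        rw [coeff_zero]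
        by_cases hm : m = 0
        · rw [hm]; exact hconst i hi
        · refine coeff_eq_zero_of_natDegree_lt ?_
          have := hD i hi
          omega
      choose! lf hlf gf hgf hgeq using hΛ.rep
      choose ρ hρ using fun c : k => IsAlgClosed.exists_pow_nat_eq c (Fact.out : p.Prime).pos
      set g : ι → ℕ → ℝ := fun i j => R - (p : ℝ) ^ (j + 1) * r i with hg
      have hgG : ∀ i ∈ S, ∀ j, (Q i).coeff (j + 1) ≠ 0 → g i j ∈ G :=
        fun i hi j hj => hQ i hi (j + 1) hj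
      set Q' : ℝ → ι → k[X] := fun l i => ∑ j ∈ (Finset.range D).filter
        (fun j => (Q i).coeff (j + 1) ≠ 0 ∧ lf (g i j) = l), C (ρ ((Q i).coeff (j + 1))) * X ^ j
        with hQ'
      have hgf2 : ∀ (l : ℝ), ∀ i ∈ S, ∀ j, (Q i).coeff (j + 1) ≠ 0 → lf (g i j) = l →
          (R - l) / p - (p : ℝ) ^ j * r i = gf (g i j) := by
        intro l i hi j hj0 hjl
        have h1 : R - (p : ℝ) ^ (j + 1) * r i = lf (g i j) + p * gf (g i j) :=
          hgeq _ (hgG i hi j hj0)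
        rw [hjl] at h1
        generalize gf (g i j) = x at h1 ⊢
        rw [pow_succ] at h1
        field_simp
        linarith
      have hQ'op : ∀ (l : ℝ), ∀ i ∈ S, IsOp p G (r i) ((R - l) / p) (Q' l i) := by
        intro l i hi
        refine IsOp.sum fun j hj => IsOp.mono fun _ => ?_
        obtain ⟨-, hj0, hjl⟩ := Finset.mem_filter.mp hj
        rw [hgf2 l i hi j hj0 hjl]
        exact hgf _ (hgG i hi j hj0)
      have hy : ∀ l : ℝ, L ((R - l) / p) (∑ i ∈ S, ev p M (r i) ((R - l) / p) (Q' l i) (w i)) :=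
        fun l => hL.sum fun i hi => hL.ev (hQ'op l i hi) (hw i hi)
      -- the terms
      have hterm : ∀ l ∈ Λ, ∀ i ∈ S, M l * (ev p M (r i) ((R - l) / p) (Q' l i) (w i)) ^ p =
          ∑ j ∈ (Finset.range D).filter (fun j => (Q i).coeff (j + 1) ≠ 0 ∧ lf (g i j) = l),
            algebraMap k Ω ((Q i).coeff (j + 1)) * M (g i j) * w i ^ p ^ (j + 1) := by
        intro l hlΛ i hi
        rw [hQ']
        simp only
        rw [ev_sum, sum_pow_char p, Finset.mul_sum]
        refine Finset.sum_congr rfl fun j hj => ?_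
        obtain ⟨-, hj0, hjl⟩ := Finset.mem_filter.mp hj
        have h1 := hgeq _ (hgG i hi j hj0)
        have h2 := hgf2 l i hi j hj0 hjl
        have h3 : M (g i j) = M l * M (gf (g i j)) ^ p := by
          conv_lhs => rw [h1, hjl]
          rw [hM.mul _ (hΛ.mem l hlΛ) _ (by
            rw [← nsmul_eq_mul]; exact G.nsmul_mem (hgf _ (hgG i hi j hj0)) _),
            hM.pow (hgf _ (hgG i hi j hj0))]
        rw [ev_mono, h2, mul_pow, mul_pow, ← _root_.map_pow, hρ, h3, ← pow_mul, ← pow_succ]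
        ring
      have hsum : ∑ l ∈ Λ, M l *
          (∑ i ∈ S, ev p M (r i) ((R - l) / p) (Q' l i) (w i)) ^ p =
          ∑ i ∈ S, ev p M (r i) R (Q i) (w i) := by
        have h1 : ∀ l ∈ Λ, M l *
            (∑ i ∈ S, ev p M (r i) ((R - l) / p) (Q' l i) (w i)) ^ p =
            ∑ i ∈ S, M l * (ev p M (r i) ((R - l) / p) (Q' l i) (w i)) ^ p := by
          intro l _
          rw [sum_pow_char p, Finset.mul_sum]
        rw [Finset.sum_congr rfl h1, Finset.sum_comm]
        refine Finset.sum_congr rfl fun i hi => ?_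
        rw [Finset.sum_congr rfl fun l hl => hterm l hl i hi]
        have h2 : ev p M (r i) R (Q i) (w i) = ∑ j ∈ (Finset.range D).filter
            (fun j => (Q i).coeff (j + 1) ≠ 0),
            algebraMap k Ω ((Q i).coeff (j + 1)) * M (g i j) * w i ^ p ^ (j + 1) := by
          have h5 := Polynomial.sum_over_range' (Q i)
            (f := fun j a => algebraMap k Ω a * M (R - (p : ℝ) ^ j * r i) * w i ^ p ^ j)
            (fun j => by rw [_root_.map_zero, zero_mul, zero_mul]) (D + 1) (hD i hi)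
          rw [ev, h5]
          rw [Finset.sum_range_succ', hconst i hi, _root_.map_zero, zero_mul, zero_mul, add_zero,
            Finset.sum_filter_of_ne]
          intro j _ hj hj0
          apply hj
          rw [hj0, _root_.map_zero, zero_mul, zero_mul]
        rw [h2]
        have h3 : ∀ l, (Finset.range D).filter (fun j => (Q i).coeff (j + 1) ≠ 0 ∧
            lf (g i j) = l) = ((Finset.range D).filter (fun j => (Q i).coeff (j + 1) ≠ 0)).filter
            (fun j => lf (g i j) = l) := by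
          intro l
          rw [Finset.filter_filter]
        rw [Finset.sum_congr rfl fun l _ => by rw [h3 l]]
        refine Finset.sum_fiberwise_of_maps_to (fun j hj => ?_) _
        exact hlf _ (hgG i hi j (Finset.mem_filter.mp hj).2)
      have hZl := hdiv R (fun l => ∑ i ∈ S, ev p M (r i) ((R - l) / p) (Q' l i) (w i))
        (fun l _ => hy l) (by rw [hsum]; exact hrel)
      -- the coefficients of `Q' l i`
      have hcoef : ∀ l i m, (Q' l i).coeff m = if m < D ∧ (Q i).coeff (m + 1) ≠ 0 ∧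
          lf (g i m) = l then ρ ((Q i).coeff (m + 1)) else 0 := by
        intro l i m
        rw [hQ']
        simp only
        rw [finsetSum_coeff]
        simp only [coeff_C_mul_X_pow]
        rw [Finset.sum_ite_eq]
        simp only [Finset.mem_filter, Finset.mem_range]
      have hQ0 : ∀ l ∈ Λ, ∀ i ∈ S, Q' l i = 0 := by
        intro l hl
        refine ih ((R - l) / p) (Q' l) (hQ'op l) (fun i hi => ?_) (hZl l hl) ?_
        · have h1 : (Q' l i).natDegree ≤ D - 1 := by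
            rw [natDegree_le_iff_coeff_eq_zero]
            intro N hN
            rw [hcoef, if_neg (by omega)]
          omega
        · intro i hi j hj hri hrj hQi hQj
          refine huniq i hi j hj hri hrj (fun h => hQi ?_) (fun h => hQj ?_)
          · ext m
            rw [hcoef, if_neg (fun h' => h'.2.1 (by rw [h, coeff_zero])), coeff_zero]
          · ext m
            rw [hcoef, if_neg (fun h' => h'.2.1 (by rw [h, coeff_zero])), coeff_zero]
      intro i hi
      ext m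
      rw [coeff_zero]
      cases m with
      | zero => exact hconst i hi
      | succ m =>
        by_contra hm
        have hmD : m < D := by
          have h1 := le_natDegree_of_ne_zero hm
          have h2 := hD i hi
          omega
        have h1 := hQ0 (lf (g i m)) (hlf _ (hgG i hi m hm)) i hi
        have h2 : (Q' (lf (g i m)) i).coeff m = 0 := by rw [h1, coeff_zero]
        rw [hcoef, if_pos ⟨hmD, hm, rfl⟩] at h2
        apply hm
        rw [← hρ ((Q i).coeff (m + 1)), h2, zero_pow (Fact.out : p.Prime).ne_zero]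

/-- **A7.d (d1).** A finite family in `L` has the same span modulo `Z` as a free family: all real
radii. -/
theorem exists_free_of_P_allR [IsAlgClosed k] (hM : MS v G M) (hZ : GSub k p G M Z)
    (hL : GSub k p G M L) (hZL : ∀ r a, Z r a → L r a) (hΛ : Rps p G Λ)
    (hdiv : ∀ (R : ℝ) (y : ℝ → Ω), (∀ l ∈ Λ, L ((R - l) / p) (y l)) →
      Z R (∑ l ∈ Λ, M l * y l ^ p) → ∀ l ∈ Λ, Z ((R - l) / p) (y l))
    (hP : PropPR p M Z L Λ) {ι : Type*} [Fintype ι] [DecidableEq ι] (r : ι → ℝ) (w₀ : ι → Ω)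
    (hr : ∀ i, ∀ m : ℕ, m ≠ 0 → (p : ℝ) ^ m * r i - r i ∈ G → r i ∈ G)
    (hw₀ : ∀ i, L (r i) (w₀ i)) :
    ∃ (S : Finset ι) (w : ι → Ω), (∀ i ∈ S, L (r i) (w i)) ∧
      (∀ i, InSpan k p G M Z r w S (r i) (w₀ i)) ∧
      (∀ i ∈ S, InSpan k p G M Z r w₀ Finset.univ (r i) (w i)) ∧
      (∀ i ∈ S, ¬ InSpan k p G M Z r w (S.erase i) (r i) (w i)) ∧
      FreeOn k p G M Z r w S := by
  obtain ⟨S, w, h1, h2, h3, h4, h5⟩ := exists_reduced hM hZ hL hZL r w₀ hw₀
  refine ⟨S, w, h1, h2, h3, h4, ?_⟩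
  rcases h5 with h5 | ⟨R, Q, hQ, ⟨i, hi, hQi⟩, hrel, -, hd⟩
  · exact h5
  · exfalso
    refine hQi (no_rel_allR hM hZ hL hΛ hdiv hP (fun i _ => hr i) h1 h4 (∑ i ∈ S, ((Q i).natDegree + 1)) R Q hQ
      (fun j hj => ?_) hrel ?_ i hi)
    · have h6 := Finset.single_le_sum (f := fun i => (Q i).natDegree + 1)
        (fun _ _ => Nat.zero_le _) hj
      omega
    · intro a ha b hb hra hrb hQa hQb
      by_contra hab
      have key : ∀ x ∈ S, ∀ y ∈ S, x ≠ y → r x ∈ G → r y ∈ G → Q x ≠ 0 → Q y ≠ 0 →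
          ¬ (Q y).natDegree ≤ (Q x).natDegree := by
        intro x hx y hy hxy hrx hry hQx hQy hle
        refine hd x hx y hy hxy hQx hQy hle (G.sub_mem hry ?_)
        have h7 : (p : ℝ) ^ ((Q x).natDegree - (Q y).natDegree) * r x =
            (p ^ ((Q x).natDegree - (Q y).natDegree) : ℕ) • r x := by
          rw [nsmul_eq_mul, Nat.cast_pow]
        rw [h7]
        exact G.nsmul_mem hrx _
      rcases le_total (Q b).natDegree (Q a).natDegree with h | h
      · exact key a ha b hb hab hra hrb hQa hQb h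
      · exact key b hb a ha (Ne.symm hab) hrb hra hQb hQa h

end main

section fine_main

variable {k Ω : Type u} [Field k] [Field Ω] [Algebra k Ω] {v : RVal Ω}
  {p : ℕ} {G G' : AddSubgroup ℝ} {M M' : ℝ → Ω} {Z L Z' L' : ℝ → Ω → Prop} {Λ : Finset ℝ}

/-- **A7.d (d2).** A finite family in the fine part has the same fine span as a family which is
free over `G`, if (P) holds over `G'`. -/
theorem exists_free_fineR [IsAlgClosed k] [Fact p.Prime] [CharP k p] [CharP Ω p]
    (hM : MS v G M) (hM' : MS v G' M') (hGG : G ≤ G')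
    (hMM : ∀ g ∈ G, M' g = M g) (hZ : GSub k p G M Z) (hL : GSub k p G M L)
    (hZL : ∀ r a, Z r a → L r a) (hZ' : GSub k p G' M' Z') (hL' : GSub k p G' M' L')
    (hZZ : ∀ r a, Z r a → Z' r a) (hLL : ∀ r a, L r a → L' r a)
    (htor : ∀ g ∈ G', ∃ n : ℕ, ¬ p ∣ n ∧ (n : ℝ) * g ∈ G)
    (hπ : ∀ t, ∃ π : Ω → Ω, FinePr G G' M' Z L Z' L' t π) (hΛ : Rps p G' Λ)
    (hdiv : ∀ (R : ℝ) (y : ℝ → Ω), (∀ l ∈ Λ, L' ((R - l) / p) (y l)) →
      Z' R (∑ l ∈ Λ, M' l * y l ^ p) → ∀ l ∈ Λ, Z' ((R - l) / p) (y l))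
    (hP : PropPR p M' Z' L' Λ) {ι : Type*} [Fintype ι] [DecidableEq ι] (r : ι → ℝ) (w₀ : ι → Ω)
    (hr : ∀ i, ∀ m : ℕ, m ≠ 0 → (p : ℝ) ^ m * r i - r i ∈ G' → r i ∈ G')
    (hw₀ : ∀ i, L (r i) (w₀ i)) :
    ∃ (S : Finset ι) (w : ι → Ω), (∀ i ∈ S, L (r i) (w i)) ∧
      (∀ i, InSpan k p G M Z r w S (r i) (w₀ i)) ∧
      (∀ i ∈ S, InSpan k p G M Z r w₀ Finset.univ (r i) (w i)) ∧
      (∀ i ∈ S, ¬ InSpan k p G M Z r w (S.erase i) (r i) (w i)) ∧
      FreeOn k p G M Z r w S ∧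
      (∀ i ∈ S, ¬ InSpan k p G' M' Z' r w (S.erase i) (r i) (w i)) := by
  obtain ⟨S, w, h1, h2, h3, h4, h5⟩ := exists_reduced hM hZ hL hZL r w₀ hw₀
  have h4' : ∀ i ∈ S, ¬ InSpan k p G' M' Z' r w (S.erase i) (r i) (w i) := by
    intro i hi h
    obtain ⟨π, hπ'⟩ := hπ (r i)
    exact h4 i hi (inSpan_fine hM hMM hL hL' hLL hπ'
      (fun j hj => h1 j (Finset.mem_of_mem_erase hj)) (h1 i hi) h)
  refine ⟨S, w, h1, h2, h3, h4, ?_, h4'⟩
  rcases h5 with h5 | ⟨R, Q, hQ, ⟨i, hi, hQi⟩, hrel, -, hd⟩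
  · exact h5
  · exfalso
    have hrel' : Z' R (∑ i ∈ S, ev p M' (r i) R (Q i) (w i)) := by
      rw [Finset.sum_congr rfl fun i hi => ev_fine hMM (hQ i hi) (w i)]
      exact hZZ _ _ hrel
    refine hQi (no_rel_allR hM' hZ' hL' hΛ hdiv hP (fun i _ => hr i)
      (fun i hi => hLL _ _ (h1 i hi)) h4' (∑ i ∈ S, ((Q i).natDegree + 1)) R Q
      (fun j hj => isOp_coarse hGG (hQ j hj)) (fun j hj => ?_) hrel' ?_ i hi)
    · have h6 := Finset.single_le_sum (f := fun i => (Q i).natDegree + 1)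
        (fun _ _ => Nat.zero_le _) hj
      omega
    · intro a ha b hb hra hrb hQa hQb
      by_contra hab
      have key : ∀ x ∈ S, ∀ y ∈ S, x ≠ y → r x ∈ G' → r y ∈ G' → Q x ≠ 0 → Q y ≠ 0 →
          ¬ (Q y).natDegree ≤ (Q x).natDegree := by
        intro x hx y hy hxy hrx hry hQx hQy hle
        refine hd x hx y hy hxy hQx hQy hle ?_
        have h7 : r y - (p : ℝ) ^ ((Q x).natDegree - (Q y).natDegree) * r x ∈ G' := by
          refine G'.sub_mem hry ?_
          have h8 : (p : ℝ) ^ ((Q x).natDegree - (Q y).natDegree) * r x =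
              (p ^ ((Q x).natDegree - (Q y).natDegree) : ℕ) • r x := by
            rw [nsmul_eq_mul, Nat.cast_pow]
          rw [h8]
          exact G'.nsmul_mem hrx _
        obtain ⟨n, hn, h9⟩ := htor _ h7
        refine mem_of_coprime (p := p) hn h9 (m := (Q y).natDegree) ?_
        have h10 := hQ x hx _ (leadingCoeff_ne_zero.mpr hQx)
        have h11 := hQ y hy _ (leadingCoeff_ne_zero.mpr hQy)
        have h12 : (p : ℝ) ^ (Q y).natDegree *
            (r y - (p : ℝ) ^ ((Q x).natDegree - (Q y).natDegree) * r x) =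
            (R - (p : ℝ) ^ (Q x).natDegree * r x) - (R - (p : ℝ) ^ (Q y).natDegree * r y) := by
          rw [mul_sub, ← mul_assoc, ← pow_add, Nat.add_sub_cancel' hle]
          ring
        rw [h12]
        exact G.sub_mem h10 h11
      rcases le_total (Q b).natDegree (Q a).natDegree with h | h
      · exact key a ha b hb hab hra hrb hQa hQb h
      · exact key b hb a ha (Ne.symm hab) hrb hra hQb hQa h

/-- **A7.d (d2), for the saturation of `G` prime to `p`**: no condition on the radii. -/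
theorem exists_free_satpR [IsAlgClosed k] [Fact p.Prime] [CharP k p] [CharP Ω p]
    (hM : MS v G M) (hM' : MS v (satp p G) M') (hMM : ∀ g ∈ G, M' g = M g)
    (hZ : GSub k p G M Z) (hL : GSub k p G M L) (hZL : ∀ r a, Z r a → L r a)
    (hZ' : GSub k p (satp p G) M' Z') (hL' : GSub k p (satp p G) M' L')
    (hZZ : ∀ r a, Z r a → Z' r a) (hLL : ∀ r a, L r a → L' r a)
    (hπ : ∀ t, ∃ π : Ω → Ω, FinePr G (satp p G) M' Z L Z' L' t π) (hΛ : Rps p G Λ)
    (hdiv : ∀ (R : ℝ) (y : ℝ → Ω), (∀ l ∈ Λ, L' ((R - l) / p) (y l)) →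
      Z' R (∑ l ∈ Λ, M' l * y l ^ p) → ∀ l ∈ Λ, Z' ((R - l) / p) (y l))
    (hP : PropPR p M' Z' L' Λ) {ι : Type*} [Fintype ι] [DecidableEq ι] (r : ι → ℝ) (w₀ : ι → Ω)
    (hw₀ : ∀ i, L (r i) (w₀ i)) :
    ∃ (S : Finset ι) (w : ι → Ω), (∀ i ∈ S, L (r i) (w i)) ∧
      (∀ i, InSpan k p G M Z r w S (r i) (w₀ i)) ∧
      (∀ i ∈ S, InSpan k p G M Z r w₀ Finset.univ (r i) (w i)) ∧
      (∀ i ∈ S, ¬ InSpan k p G M Z r w (S.erase i) (r i) (w i)) ∧
      FreeOn k p G M Z r w S ∧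
      (∀ i ∈ S, ¬ InSpan k p (satp p G) M' Z' r w (S.erase i) (r i) (w i)) :=
  exists_free_fineR hM hM' le_satp hMM hZ hL hZL hZ' hL' hZZ hLL (fun _ hg => hg) hπ
    hΛ.satp hdiv hP r w₀
    (fun _ _ hm h => mem_of_pow_sub (fun _ _ hn h' => satp_sat hn h') hm h) hw₀

end fine_main

end Pool.Agent.TWT
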