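import Pool.Agent.Lib.TWT.FreeP

/-!
# TANK W, leaf (IV), row A7.d: freeness for all real radii, and fine freeness from coarse freeness

(d1) `exists_free_of_P` with the condition `p^m r - r ∈ G`, `m ≠ 0` implies `r ∈ G` on the radii
(all real radii, if `G` is saturated prime to `p`).

(d2) `G ≤ G'`, `G'` saturated prime to `p` and `G' / G` prime to `p`: a family reduced over `G` is
free over `G`, if (P) holds over `G'`.
-/

set_option autoImplicit false

open Polynomial Finset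

namespace Pool.Agent.TWT

open Pool.Agent.H15JM (RVal)
open Pool.Agent.TWM

universe u

section main

variable {k Ω : Type u} [Field k] [Field Ω] [Algebra k Ω] {v : RVal Ω}
  {p : ℕ} {G : AddSubgroup ℝ} {M : ℝ → Ω} {Z L : ℝ → Ω → Prop} [Fact p.Prime] [CharP k p]
  [CharP Ω p]

/-- **Elimination.** A relation at the radius `0` with exactly one operator `P` from a radius in
`G`, with non zero constant term. -/
theorem elim_all [IsAlgClosed k] (hM : MS v G M) (hZ : GSub k p G M Z) (hL : GSub k p G M L)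
    {g₀ : ℝ} (hg₀ : g₀ ∈ G) (hG : ∀ g ∈ G, ∃ l < p, ∃ g' ∈ G, g = l * g₀ + p * g')
    (hP : PropP p M Z L g₀) {ι : Type*} [DecidableEq ι] {r : ι → ℝ} {w : ι → Ω} {S : Finset ι}
    (hw : ∀ i ∈ S, L (r i) (w i)) {i₀ : ι}
    (hi₀ : i₀ ∈ S) (hri₀ : r i₀ ∈ G) (d : ℕ) : ∀ (P : k[X]) (Q : ι → k[X]), P.natDegree = d →
      P.coeff 0 ≠ 0 → (∀ i ∈ S.erase i₀, IsOp p G (r i) 0 (Q i)) →
      (∀ i ∈ S.erase i₀, Q i ≠ 0 → r i ∉ G) →
      Z 0 (ev p M (r i₀) 0 P (w i₀) + ∑ i ∈ S.erase i₀, ev p M (r i) 0 (Q i) (w i)) →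
      InSpan k p G M Z r w (S.erase i₀) (r i₀) (w i₀) := by
  classical
  induction d with
  | zero =>
    intro P Q hd h0 hQ _ hrel
    have hPc : P = C (P.coeff 0) := eq_C_of_natDegree_eq_zero hd
    refine inSpan_of_const (R := 0) (Q := Function.update Q i₀ P) hM hZ ?_ ?_ hi₀ h0 ?_
    · intro i hi
      by_cases h : i = i₀
      · rw [h, Function.update_self]
        exact isOp_of_mem hri₀ P
      · rw [Function.update_of_ne h]
        exact hQ i (Finset.mem_erase.mpr ⟨h, hi⟩)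
    · rw [← Finset.add_sum_erase S _ hi₀, Function.update_self]
      have h1 : ∑ i ∈ S.erase i₀, ev p M (r i) 0 (Function.update Q i₀ P i) (w i) =
          ∑ i ∈ S.erase i₀, ev p M (r i) 0 (Q i) (w i) := by
        refine Finset.sum_congr rfl fun i hi => ?_
        rw [Function.update_of_ne (Finset.ne_of_mem_erase hi)]
      rw [h1]
      exact hrel
    · rw [Function.update_self]
      exact hPc
  | succ d ih =>
    intro P Q hd h0 hQ hQG hrel
    obtain ⟨a, P', ha, h0', hd', hPP⟩ := exists_left_factor (p := p) h0 hd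
    -- the least exponents
    have hex : ∀ i ∈ S.erase i₀, Q i ≠ 0 → ∃ e : ℕ, (p : ℝ) ^ e * r i ∈ G ∧
        ∀ j : ℕ, (p : ℝ) ^ j * r i ∈ G → e ≤ j := by
      intro i hi hQi
      have hri : ∃ n : ℕ, (p : ℝ) ^ n * r i ∈ G := by
        refine ⟨(Q i).natDegree, ?_⟩
        have h1 := G.neg_mem (hQ i hi (Q i).natDegree (leadingCoeff_ne_zero.mpr hQi))
        rwa [zero_sub, neg_neg] at h1
      exact ⟨Nat.find hri, Nat.find_spec hri, fun j hj => Nat.find_min' hri hj⟩
    have hdiv : ∀ i, ∃ (D : k[X]) (c : k) (l : ℕ) (y : Ω), i ∈ S.erase i₀ →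
        IsOp p G (r i) 0 D ∧ (D ≠ 0 → r i ∉ G) ∧ 0 < l ∧ l < p ∧ L (-(l * g₀) / p) y ∧
        ev p M (r i) 0 (Q i) (w i) = ev p M 0 0 (X - C a) (ev p M (r i) 0 D (w i)) +
          M (l * g₀) * y ^ p := by
      intro i
      by_cases hi : i ∈ S.erase i₀
      · by_cases hQi : Q i = 0
        · refine ⟨0, 0, 1, 0, fun _ => ⟨IsOp.zero, fun h => absurd rfl h, one_pos,
            (Fact.out : p.Prime).one_lt, hL.zero _, ?_⟩⟩
          rw [hQi, ev_zero, ev_zero_right, zero_pow (Fact.out : p.Prime).ne_zero, mul_zero,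
            add_zero]
        · have hs := hQG i hi hQi
          obtain ⟨e, he, hmin⟩ := hex i hi hQi
          obtain ⟨D, c, hD, hQD⟩ := exists_div (p := p) (G := G) a he hmin (hQ i hi)
          obtain ⟨l, y, hl0, hl, hy, hev⟩ := mono_class hM hL hG hg₀ he hmin hs c
            (hw i (Finset.mem_of_mem_erase hi))
          refine ⟨D, c, l, y, fun _ => ⟨hD, fun _ => hs, hl0, hl, hy, ?_⟩⟩
          rw [← hev, ← ev_tw hM hD (isOp_X_sub_C a), ← ev_add]
          exact congrArg (fun f => ev p M (r i) 0 f (w i)) hQD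
      · exact ⟨0, 0, 0, 0, fun h => absurd h hi⟩
    choose D c l y hD using hdiv
    set T := S.erase i₀ with hT
    set q : Ω := ev p M (r i₀) 0 P' (w i₀) + ∑ i ∈ T, ev p M (r i) 0 (D i) (w i) with hq
    have hLq : L 0 q := by
      refine hL.add _ _ _ (hL.ev (isOp_of_mem hri₀ P') (hw i₀ hi₀)) (hL.sum fun i hi => ?_)
      exact hL.ev (hD i hi).1 (hw i (Finset.mem_of_mem_erase hi))
    set E : ℕ → Ω := fun m => ∑ i ∈ T.filter (fun i => l i = m), y i with hE
    have hLE : ∀ m, 0 < m → m < p → L (-(m * g₀) / p) (E m) := by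
      intro m _ _
      refine hL.sum fun i hi => ?_
      rw [Finset.mem_filter] at hi
      have h1 := (hD i hi.1).2.2.2.2.1
      rwa [hi.2] at h1
    have hsum : ∑ m ∈ Finset.Ico 1 p, M (m * g₀) * E m ^ p = ∑ i ∈ T, M (l i * g₀) * y i ^ p := by
      have h1 : ∀ m ∈ Finset.Ico 1 p, M (m * g₀) * E m ^ p =
          ∑ i ∈ T.filter (fun i => l i = m), M (l i * g₀) * y i ^ p := by
        intro m _
        rw [hE]
        simp only
        rw [sum_pow_char p, Finset.mul_sum]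
        refine Finset.sum_congr rfl fun i hi => ?_
        rw [(Finset.mem_filter.mp hi).2]
      rw [Finset.sum_congr rfl h1]
      refine Finset.sum_fiberwise_of_maps_to (fun i hi => ?_) _
      rw [Finset.mem_Ico]
      exact ⟨(hD i hi).2.2.1, (hD i hi).2.2.2.1⟩
    have hZq : Z 0 q := by
      refine PropP.scale hM hZ hL hP ha hLq hLE ?_
      have h1 : ev p M (r i₀) 0 P (w i₀) + ∑ i ∈ T, ev p M (r i) 0 (Q i) (w i) =
          q ^ p - algebraMap k Ω a * q + ∑ m ∈ Finset.Ico 1 p, M (m * g₀) * E m ^ p := by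
        rw [hsum, ← ev_X_sub_C hM, hq, ev_add_right, ev_sum_right, hPP,
          ev_tw hM (isOp_of_mem hri₀ P') (isOp_X_sub_C a), add_assoc, ← Finset.sum_add_distrib]
        congr 1
        exact Finset.sum_congr rfl fun i hi => (hD i hi).2.2.2.2.2
      rw [← h1]
      exact hrel
    exact ih P' D hd' h0' (fun i hi => (hD i hi).1) (fun i hi h => (hD i hi).2.1 h) hZq

/-- No relation, by induction on the degree of its operators. -/
theorem no_rel_all [IsAlgClosed k] (hM : MS v G M) (hZ : GSub k p G M Z) (hL : GSub k p G M L)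
    {g₀ : ℝ} (hg₀ : g₀ ∈ G) (hG : ∀ g ∈ G, ∃ l < p, ∃ g' ∈ G, g = l * g₀ + p * g')
    (hdiv : ∀ (R : ℝ) (y : ℕ → Ω), (∀ l < p, L ((R - l * g₀) / p) (y l)) →
      Z R (∑ l ∈ Finset.range p, M (l * g₀) * y l ^ p) → ∀ l < p, Z ((R - l * g₀) / p) (y l))
    (hP : PropP p M Z L g₀) {ι : Type*} [DecidableEq ι] {r : ι → ℝ} {w : ι → Ω} {S : Finset ι}
    (hr : ∀ i ∈ S, ∀ m : ℕ, m ≠ 0 → (p : ℝ) ^ m * r i - r i ∈ G → r i ∈ G)
    (hw : ∀ i ∈ S, L (r i) (w i))
    (hmin : ∀ i ∈ S, ¬ InSpan k p G M Z r w (S.erase i) (r i) (w i)) (D : ℕ) :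
    ∀ (R : ℝ) (Q : ι → k[X]), (∀ i ∈ S, IsOp p G (r i) R (Q i)) →
      (∀ i ∈ S, (Q i).natDegree < D) → Z R (∑ i ∈ S, ev p M (r i) R (Q i) (w i)) →
      (∀ i ∈ S, ∀ j ∈ S, r i ∈ G → r j ∈ G → Q i ≠ 0 → Q j ≠ 0 → i = j) →
      ∀ i ∈ S, Q i = 0 := by
  classical
  have hp0 : (p : ℝ) ≠ 0 := Nat.cast_ne_zero.mpr (Fact.out : p.Prime).ne_zero
  induction D with
  | zero => intro R Q _ hD _ _ i hi; exact absurd (hD i hi) (Nat.not_lt_zero _)
  | succ D ih =>
    intro R Q hQ hD hrel huniq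
    by_cases hconst : ∃ i ∈ S, (Q i).coeff 0 ≠ 0
    · -- a constant term
      exfalso
      obtain ⟨i, hi, hi0⟩ := hconst
      have hRi : R - r i ∈ G := by
        have h := hQ i hi 0 hi0
        rwa [pow_zero, one_mul] at h
      by_cases hri : r i ∈ G
      · have hR : R ∈ G := by
          have h := G.add_mem hRi hri
          rwa [sub_add_cancel] at h
        -- shift to the radius `0`
        have hQ0 : ∀ j ∈ S, IsOp p G (r j) 0 (Q j) := by
          intro j hj m hm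
          have h := G.sub_mem (hQ j hj m hm) hR
          rwa [sub_sub_cancel_left, ← zero_sub] at h
        have hev : ∀ j ∈ S, ev p M (r j) 0 (Q j) (w j) =
            M (-R) * ev p M (r j) R (Q j) (w j) := by
          intro j hj
          rw [ev, ev, Polynomial.sum, Polynomial.sum, Finset.mul_sum]
          refine Finset.sum_congr rfl fun m hm => ?_
          have h1 := hM.mul (-R) (G.neg_mem hR) (R - (p : ℝ) ^ m * r j)
            (hQ j hj m (mem_support_iff.mp hm))
          have h2 : -R + (R - (p : ℝ) ^ m * r j) = 0 - (p : ℝ) ^ m * r j := by ring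
          rw [← h2, h1]
          ring
        have hrel0 : Z 0 (∑ j ∈ S, ev p M (r j) 0 (Q j) (w j)) := by
          have h1 := hZ.op 1 R (-R) 0 _ (G.neg_mem hR) hrel
          rw [pow_zero, one_mul, neg_add_cancel, pow_zero, pow_one, _root_.map_one, one_mul,
            Finset.mul_sum] at h1
          rwa [Finset.sum_congr rfl fun j hj => hev j hj]
        rw [← Finset.add_sum_erase S _ hi] at hrel0
        refine hmin i hi (elim_all hM hZ hL hg₀ hG hP hw hi hri _ (Q i) Q rfl hi0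
          (fun j hj => hQ0 j (Finset.mem_of_mem_erase hj)) (fun j hj hQj hrj => ?_) hrel0)
        exact Finset.ne_of_mem_erase hj (huniq j (Finset.mem_of_mem_erase hj) i hi hrj hri hQj
          (fun h => hi0 (by rw [h, coeff_zero])))
      · -- the operator is constant
        have hc : Q i = C ((Q i).coeff 0) := by
          ext m
          rw [coeff_C]
          split_ifs with hm
          · rw [hm]
          · by_contra hm0
            apply hri
            have h1 := hQ i hi m hm0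
            have h2 : (p : ℝ) ^ m * r i - r i ∈ G := by
              have h := G.sub_mem hRi h1
              rwa [sub_sub_sub_cancel_left] at h
            exact hr i hi m hm h2
        exact hmin i hi (inSpan_of_const hM hZ hQ hrel hi hi0 hc)
    · -- divide by `F`
      push Not at hconst
      rcases Nat.eq_zero_or_pos D with hD0 | hDpos
      · intro i hi
        ext m
        rw [coeff_zero]
        by_cases hm : m = 0
        · rw [hm]; exact hconst i hi
        · refine coeff_eq_zero_of_natDegree_lt ?_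
          have := hD i hi
          omega
      choose! lf hlf gf hgf hgeq using hG
      choose ρ hρ using fun c : k => IsAlgClosed.exists_pow_nat_eq c (Fact.out : p.Prime).pos
      set g : ι → ℕ → ℝ := fun i j => R - (p : ℝ) ^ (j + 1) * r i with hg
      have hgG : ∀ i ∈ S, ∀ j, (Q i).coeff (j + 1) ≠ 0 → g i j ∈ G :=
        fun i hi j hj => hQ i hi (j + 1) hj
      set Q' : ℕ → ι → k[X] := fun l i => ∑ j ∈ (Finset.range D).filter
        (fun j => (Q i).coeff (j + 1) ≠ 0 ∧ lf (g i j) = l), C (ρ ((Q i).coeff (j + 1))) * X ^ j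
        with hQ'
      have hgf2 : ∀ (l : ℕ), ∀ i ∈ S, ∀ j, (Q i).coeff (j + 1) ≠ 0 → lf (g i j) = l →
          (R - l * g₀) / p - (p : ℝ) ^ j * r i = gf (g i j) := by
        intro l i hi j hj0 hjl
        have h1 : R - (p : ℝ) ^ (j + 1) * r i = lf (g i j) * g₀ + p * gf (g i j) :=
          hgeq _ (hgG i hi j hj0)
        rw [hjl] at h1
        generalize gf (g i j) = x at h1 ⊢
        rw [pow_succ] at h1
        field_simp
        linarith
      have hQ'op : ∀ (l : ℕ), ∀ i ∈ S, IsOp p G (r i) ((R - l * g₀) / p) (Q' l i) := by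
        intro l i hi
        refine IsOp.sum fun j hj => IsOp.mono fun _ => ?_
        obtain ⟨-, hj0, hjl⟩ := Finset.mem_filter.mp hj
        rw [hgf2 l i hi j hj0 hjl]
        exact hgf _ (hgG i hi j hj0)
      have hy : ∀ l : ℕ, L ((R - l * g₀) / p) (∑ i ∈ S, ev p M (r i) ((R - l * g₀) / p) (Q' l i) (w i)) :=
        fun l => hL.sum fun i hi => hL.ev (hQ'op l i hi) (hw i hi)
      have hlg : ∀ l : ℕ, (l : ℝ) * g₀ ∈ G := fun l => by
        rw [← nsmul_eq_mul]; exact G.nsmul_mem hg₀ _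
      -- the terms
      have hterm : ∀ l : ℕ, ∀ i ∈ S, M (l * g₀) * (ev p M (r i) ((R - l * g₀) / p) (Q' l i) (w i)) ^ p =
          ∑ j ∈ (Finset.range D).filter (fun j => (Q i).coeff (j + 1) ≠ 0 ∧ lf (g i j) = l),
            algebraMap k Ω ((Q i).coeff (j + 1)) * M (g i j) * w i ^ p ^ (j + 1) := by
        intro l i hi
        rw [hQ']
        simp only
        rw [ev_sum, sum_pow_char p, Finset.mul_sum]
        refine Finset.sum_congr rfl fun j hj => ?_
        obtain ⟨-, hj0, hjl⟩ := Finset.mem_filter.mp hj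
        have h1 := hgeq _ (hgG i hi j hj0)
        have h2 := hgf2 l i hi j hj0 hjl
        have h3 : M (g i j) = M (l * g₀) * M (gf (g i j)) ^ p := by
          conv_lhs => rw [h1, hjl]
          rw [hM.mul _ (hlg l) _ (by
            rw [← nsmul_eq_mul]; exact G.nsmul_mem (hgf _ (hgG i hi j hj0)) _),
            hM.pow (hgf _ (hgG i hi j hj0))]
        rw [ev_mono, h2, mul_pow, mul_pow, ← _root_.map_pow, hρ, h3, ← pow_mul, ← pow_succ]
        ring
      have hsum : ∑ l ∈ Finset.range p, M (l * g₀) *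
          (∑ i ∈ S, ev p M (r i) ((R - l * g₀) / p) (Q' l i) (w i)) ^ p =
          ∑ i ∈ S, ev p M (r i) R (Q i) (w i) := by
        have h1 : ∀ l ∈ Finset.range p, M (l * g₀) *
            (∑ i ∈ S, ev p M (r i) ((R - l * g₀) / p) (Q' l i) (w i)) ^ p =
            ∑ i ∈ S, M (l * g₀) * (ev p M (r i) ((R - l * g₀) / p) (Q' l i) (w i)) ^ p := by
          intro l _
          rw [sum_pow_char p, Finset.mul_sum]
        rw [Finset.sum_congr rfl h1, Finset.sum_comm]
        refine Finset.sum_congr rfl fun i hi => ?_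
        rw [Finset.sum_congr rfl fun l _ => hterm l i hi]
        have h2 : ev p M (r i) R (Q i) (w i) = ∑ j ∈ (Finset.range D).filter
            (fun j => (Q i).coeff (j + 1) ≠ 0),
            algebraMap k Ω ((Q i).coeff (j + 1)) * M (g i j) * w i ^ p ^ (j + 1) := by
          have h5 := Polynomial.sum_over_range' (Q i)
            (f := fun j a => algebraMap k Ω a * M (R - (p : ℝ) ^ j * r i) * w i ^ p ^ j)
            (fun j => by rw [_root_.map_zero, zero_mul, zero_mul]) (D + 1) (hD i hi)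
          rw [ev, h5]
          rw [Finset.sum_range_succ', hconst i hi, _root_.map_zero, zero_mul, zero_mul, add_zero,
            Finset.sum_filter_of_ne]
          intro j _ hj hj0
          apply hj
          rw [hj0, _root_.map_zero, zero_mul, zero_mul]
        rw [h2]
        have h3 : ∀ l, (Finset.range D).filter (fun j => (Q i).coeff (j + 1) ≠ 0 ∧
            lf (g i j) = l) = ((Finset.range D).filter (fun j => (Q i).coeff (j + 1) ≠ 0)).filter
            (fun j => lf (g i j) = l) := by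
          intro l
          rw [Finset.filter_filter]
        rw [Finset.sum_congr rfl fun l _ => by rw [h3 l]]
        refine Finset.sum_fiberwise_of_maps_to (fun j hj => ?_) _
        rw [Finset.mem_range]
        exact hlf _ (hgG i hi j (Finset.mem_filter.mp hj).2)
      have hZl := hdiv R (fun l => ∑ i ∈ S, ev p M (r i) ((R - l * g₀) / p) (Q' l i) (w i))
        (fun l _ => hy l) (by rw [hsum]; exact hrel)
      -- the coefficients of `Q' l i`
      have hcoef : ∀ l i m, (Q' l i).coeff m = if m < D ∧ (Q i).coeff (m + 1) ≠ 0 ∧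
          lf (g i m) = l then ρ ((Q i).coeff (m + 1)) else 0 := by
        intro l i m
        rw [hQ']
        simp only
        rw [finsetSum_coeff]
        simp only [coeff_C_mul_X_pow]
        rw [Finset.sum_ite_eq]
        simp only [Finset.mem_filter, Finset.mem_range]
      have hQ0 : ∀ l < p, ∀ i ∈ S, Q' l i = 0 := by
        intro l hl
        refine ih ((R - l * g₀) / p) (Q' l) (hQ'op l) (fun i hi => ?_) (hZl l hl) ?_
        · have h1 : (Q' l i).natDegree ≤ D - 1 := by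
            rw [natDegree_le_iff_coeff_eq_zero]
            intro N hN
            rw [hcoef, if_neg (by omega)]
          omega
        · intro i hi j hj hri hrj hQi hQj
          refine huniq i hi j hj hri hrj (fun h => hQi ?_) (fun h => hQj ?_)
          · ext m
            rw [hcoef, if_neg (fun h' => h'.2.1 (by rw [h, coeff_zero])), coeff_zero]
          · ext m
            rw [hcoef, if_neg (fun h' => h'.2.1 (by rw [h, coeff_zero])), coeff_zero]
      intro i hi
      ext m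
      rw [coeff_zero]
      cases m with
      | zero => exact hconst i hi
      | succ m =>
        by_contra hm
        have hmD : m < D := by
          have h1 := le_natDegree_of_ne_zero hm
          have h2 := hD i hi
          omega
        have h1 := hQ0 (lf (g i m)) (hlf _ (hgG i hi m hm)) i hi
        have h2 : (Q' (lf (g i m)) i).coeff m = 0 := by rw [h1, coeff_zero]
        rw [hcoef, if_pos ⟨hmD, hm, rfl⟩] at h2
        apply hm
        rw [← hρ ((Q i).coeff (m + 1)), h2, zero_pow (Fact.out : p.Prime).ne_zero]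

/-- **A7.d (d1).** A finite family in `L` has the same span modulo `Z` as a free family: all real
radii. -/
theorem exists_free_of_P_all [IsAlgClosed k] (hM : MS v G M) (hZ : GSub k p G M Z)
    (hL : GSub k p G M L) (hZL : ∀ r a, Z r a → L r a) {g₀ : ℝ} (hg₀ : g₀ ∈ G)
    (hG : ∀ g ∈ G, ∃ l < p, ∃ g' ∈ G, g = l * g₀ + p * g')
    (hdiv : ∀ (R : ℝ) (y : ℕ → Ω), (∀ l < p, L ((R - l * g₀) / p) (y l)) →
      Z R (∑ l ∈ Finset.range p, M (l * g₀) * y l ^ p) → ∀ l < p, Z ((R - l * g₀) / p) (y l))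
    (hP : PropP p M Z L g₀) {ι : Type*} [Fintype ι] [DecidableEq ι] (r : ι → ℝ) (w₀ : ι → Ω)
    (hr : ∀ i, ∀ m : ℕ, m ≠ 0 → (p : ℝ) ^ m * r i - r i ∈ G → r i ∈ G)
    (hw₀ : ∀ i, L (r i) (w₀ i)) :
    ∃ (S : Finset ι) (w : ι → Ω), (∀ i ∈ S, L (r i) (w i)) ∧
      (∀ i, InSpan k p G M Z r w S (r i) (w₀ i)) ∧
      (∀ i ∈ S, InSpan k p G M Z r w₀ Finset.univ (r i) (w i)) ∧
      (∀ i ∈ S, ¬ InSpan k p G M Z r w (S.erase i) (r i) (w i)) ∧
      FreeOn k p G M Z r w S := by
  obtain ⟨S, w, h1, h2, h3, h4, h5⟩ := exists_reduced hM hZ hL hZL r w₀ hw₀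
  refine ⟨S, w, h1, h2, h3, h4, ?_⟩
  rcases h5 with h5 | ⟨R, Q, hQ, ⟨i, hi, hQi⟩, hrel, -, hd⟩
  · exact h5
  · exfalso
    refine hQi (no_rel_all hM hZ hL hg₀ hG hdiv hP (fun i _ => hr i) h1 h4 (∑ i ∈ S, ((Q i).natDegree + 1)) R Q hQ
      (fun j hj => ?_) hrel ?_ i hi)
    · have h6 := Finset.single_le_sum (f := fun i => (Q i).natDegree + 1)
        (fun _ _ => Nat.zero_le _) hj
      omega
    · intro a ha b hb hra hrb hQa hQb
      by_contra hab
      have key : ∀ x ∈ S, ∀ y ∈ S, x ≠ y → r x ∈ G → r y ∈ G → Q x ≠ 0 → Q y ≠ 0 →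
          ¬ (Q y).natDegree ≤ (Q x).natDegree := by
        intro x hx y hy hxy hrx hry hQx hQy hle
        refine hd x hx y hy hxy hQx hQy hle (G.sub_mem hry ?_)
        have h7 : (p : ℝ) ^ ((Q x).natDegree - (Q y).natDegree) * r x =
            (p ^ ((Q x).natDegree - (Q y).natDegree) : ℕ) • r x := by
          rw [nsmul_eq_mul, Nat.cast_pow]
        rw [h7]
        exact G.nsmul_mem hrx _
      rcases le_total (Q b).natDegree (Q a).natDegree with h | h
      · exact key a ha b hb hab hra hrb hQa hQb h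
      · exact key b hb a ha (Ne.symm hab) hrb hra hQb hQa h

end main

section fine

/-- The saturation of `G` prime to `p`. -/
def satp (p : ℕ) [Fact p.Prime] (G : AddSubgroup ℝ) : AddSubgroup ℝ where
  carrier := {g | ∃ n : ℕ, ¬ p ∣ n ∧ (n : ℝ) * g ∈ G}
  zero_mem' := ⟨1, (Fact.out : p.Prime).one_lt.not_ge ∘ Nat.le_of_dvd one_pos, by
    rw [mul_zero]; exact G.zero_mem⟩
  add_mem' := by
    rintro a b ⟨n, hn, ha⟩ ⟨m, hm, hb⟩
    refine ⟨n * m, fun h => ?_, ?_⟩
    · rcases (Fact.out : p.Prime).dvd_mul.mp h with h | h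
      · exact hn h
      · exact hm h
    · have h1 : ((n * m : ℕ) : ℝ) * (a + b) = m • ((n : ℝ) * a) + n • ((m : ℝ) * b) := by
        rw [nsmul_eq_mul, nsmul_eq_mul]
        push_cast
        ring
      rw [h1]
      exact G.add_mem (G.nsmul_mem ha _) (G.nsmul_mem hb _)
  neg_mem' := by
    rintro a ⟨n, hn, ha⟩
    refine ⟨n, hn, ?_⟩
    rw [mul_neg]
    exact G.neg_mem ha

variable {p : ℕ} [Fact p.Prime] {G G' : AddSubgroup ℝ}

theorem mem_satp {g : ℝ} : g ∈ satp p G ↔ ∃ n : ℕ, ¬ p ∣ n ∧ (n : ℝ) * g ∈ G := Iff.rfl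

theorem le_satp : G ≤ satp p G := fun g hg =>
  ⟨1, (Fact.out : p.Prime).one_lt.not_ge ∘ Nat.le_of_dvd one_pos, by
    rw [Nat.cast_one, one_mul]; exact hg⟩

theorem satp_sat {g : ℝ} {n : ℕ} (hn : ¬ p ∣ n) (h : (n : ℝ) * g ∈ satp p G) : g ∈ satp p G := by
  obtain ⟨m, hm, h⟩ := h
  refine ⟨m * n, fun h' => ?_, ?_⟩
  · rcases (Fact.out : p.Prime).dvd_mul.mp h' with h' | h'
    · exact hm h'
    · exact hn h'
  · rw [Nat.cast_mul, mul_assoc]
    exact h

/-- A group saturated prime to `p` satisfies the condition on the radii. -/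
theorem mem_of_pow_sub (hsat : ∀ (g : ℝ) (n : ℕ), ¬ p ∣ n → (n : ℝ) * g ∈ G → g ∈ G) {r : ℝ}
    {m : ℕ} (hm : m ≠ 0) (h : (p : ℝ) ^ m * r - r ∈ G) : r ∈ G := by
  have hp1 := (Fact.out : p.Prime).one_lt
  have h1 : 1 ≤ p ^ m := Nat.one_le_pow _ _ (Fact.out : p.Prime).pos
  refine hsat r (p ^ m - 1) (fun hd => ?_) ?_
  · have h2 : p ∣ p ^ m := dvd_pow_self p hm
    have h3 : p ∣ 1 := by
      have h4 := Nat.dvd_sub h2 hd
      rwa [Nat.sub_sub_self h1] at h4
    exact absurd (Nat.le_of_dvd one_pos h3) (by omega)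
  · rw [Nat.cast_sub h1, Nat.cast_pow, Nat.cast_one, sub_mul, one_mul]
    exact h

/-- Torsion of order prime to `p` and `p`-power torsion. -/
theorem mem_of_coprime {g : ℝ} {n : ℕ} (hn : ¬ p ∣ n) (h : (n : ℝ) * g ∈ G) {m : ℕ}
    (h' : (p : ℝ) ^ m * g ∈ G) : g ∈ G := by
  have hcop : IsCoprime ((p : ℤ) ^ m) (n : ℤ) := by
    refine IsCoprime.pow_left ?_
    rw [Nat.isCoprime_iff_coprime]
    exact (Nat.Prime.coprime_iff_not_dvd Fact.out).mpr hn
  obtain ⟨a, b, hab⟩ := hcop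
  have h4 : g = a • ((p : ℝ) ^ m * g) + b • ((n : ℝ) * g) := by
    rw [zsmul_eq_mul, zsmul_eq_mul]
    have h5 : ((a * (p : ℤ) ^ m + b * (n : ℤ) : ℤ) : ℝ) = 1 := by
      rw [hab, Int.cast_one]
    push_cast at h5
    linear_combination (-g) * h5
  rw [h4]
  exact G.add_mem (G.zsmul_mem h' _) (G.zsmul_mem h _)

/-- `G = ℤ g₀ + p G` passes to the saturation. -/
theorem satp_gen {g₀ : ℝ} (hg₀ : g₀ ∈ G)
    (hG : ∀ g ∈ G, ∃ l < p, ∃ g' ∈ G, g = l * g₀ + p * g') :
    ∀ g ∈ satp p G, ∃ l < p, ∃ g' ∈ satp p G, g = l * g₀ + p * g' := by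
  intro g hg
  obtain ⟨n, hn, h⟩ := hg
  obtain ⟨l, hl, g', hg', hgl⟩ := hG _ h
  have hcop : IsCoprime (n : ℤ) (p : ℤ) := by
    rw [Nat.isCoprime_iff_coprime]
    exact ((Nat.Prime.coprime_iff_not_dvd Fact.out).mpr hn).symm
  obtain ⟨a, b, hab⟩ := hcop
  have hp0 : (0 : ℤ) < p := by exact_mod_cast (Fact.out : p.Prime).pos
  have hmod := Int.emod_nonneg (a * l) hp0.ne'
  have hlt := Int.emod_lt_of_pos (a * l) hp0
  have hdm := Int.emod_add_mul_ediv (a * l) p
  obtain ⟨m, hm⟩ := Int.eq_ofNat_of_zero_le hmod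
  refine ⟨m, by rw [hm] at hlt; exact_mod_cast hlt,
    a • g' + b • g + (a * l / p) • g₀, ?_, ?_⟩
  · refine AddSubgroup.add_mem _ (AddSubgroup.add_mem _ (AddSubgroup.zsmul_mem _ (le_satp hg') _)
      (AddSubgroup.zsmul_mem _ (mem_satp.mpr ⟨n, hn, h⟩) _)) (AddSubgroup.zsmul_mem _ (le_satp hg₀) _)
  · rw [zsmul_eq_mul, zsmul_eq_mul, zsmul_eq_mul]
    have h1 : ((a * n + b * p : ℤ) : ℝ) = 1 := by rw [hab, Int.cast_one]
    have h2 : ((m : ℤ) : ℝ) + (p : ℝ) * ((a * l / p : ℤ) : ℝ) = (a : ℝ) * l := by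
      have h3 := congrArg (fun z : ℤ => (z : ℝ)) hdm
      rw [hm] at h3
      push_cast at h3 ⊢
      exact h3
    push_cast at h1 h2
    linear_combination (-g) * h1 + a * hgl - g₀ * h2

end fine

section fine_main

variable {k Ω : Type u} [Field k] [Field Ω] [Algebra k Ω] {v : RVal Ω}
  {p : ℕ} {G G' : AddSubgroup ℝ} {M M' : ℝ → Ω} {Z L Z' L' : ℝ → Ω → Prop}

/-- An operator over `G` has the same value for the two sections. -/
theorem ev_fine (hMM : ∀ g ∈ G, M' g = M g) {s r : ℝ} {f : k[X]} (hf : IsOp p G s r f) (w : Ω) :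
    ev p M' s r f w = ev p M s r f w := by
  rw [ev, ev, Polynomial.sum, Polynomial.sum]
  refine Finset.sum_congr rfl fun j hj => ?_
  rw [hMM _ (hf j (mem_support_iff.mp hj))]

theorem isOp_coarse (hGG : G ≤ G') {s r : ℝ} {f : k[X]} (hf : IsOp p G s r f) :
    IsOp p G' s r f := fun j hj => hGG (hf j hj)

/-- `π` is the projection of the coarse part of radius `t` to the fine part. -/
structure FinePr (G G' : AddSubgroup ℝ) (M' : ℝ → Ω) (Z L Z' L' : ℝ → Ω → Prop) (t : ℝ)
    (π : Ω → Ω) : Prop where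
  add : ∀ a b, L' t a → L' t b → π (a + b) = π a + π b
  z : ∀ a, Z' t a → Z t (π a)
  id : ∀ a, L t a → π a = a
  kill : ∀ d ∈ G', d ∉ G → ∀ y, L (t - d) y → π (M' d * y) = 0

theorem FinePr.sum_zero (hL : GSub k p G M L) (hL' : GSub k p G' M' L') {t : ℝ} {π : Ω → Ω}
    (hπ : FinePr G G' M' Z L Z' L' t π) {κ : Type*} (T : Finset κ) (z : κ → Ω)
    (hz : ∀ j ∈ T, L' t (z j)) (hz0 : ∀ j ∈ T, π (z j) = 0) : π (∑ j ∈ T, z j) = 0 := by
  classical
  induction T using Finset.induction_on with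
  | empty => rw [Finset.sum_empty]; exact hπ.id 0 (hL.zero t)
  | insert i T hi ih =>
    have h1 : ∀ j ∈ T, L' t (z j) := fun j hj => hz j (Finset.mem_insert_of_mem hj)
    rw [Finset.sum_insert hi, hπ.add _ _ (hz i (Finset.mem_insert_self i T)) (hL'.sum h1),
      hz0 i (Finset.mem_insert_self i T), ih h1 fun j hj => hz0 j (Finset.mem_insert_of_mem hj),
      add_zero]

/-- A fine element in the coarse span of fine elements is in their fine span. -/
theorem inSpan_fine (hM : MS v G M) (hMM : ∀ g ∈ G, M' g = M g)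
    (hL : GSub k p G M L) (hL' : GSub k p G' M' L') (hLL : ∀ r a, L r a → L' r a)
    {t : ℝ} {π : Ω → Ω} (hπ : FinePr G G' M' Z L Z' L' t π) {ι : Type*} {r : ι → ℝ} {w : ι → Ω}
    {S : Finset ι} (hw : ∀ i ∈ S, L (r i) (w i)) {x : Ω} (hx : L t x)
    (h : InSpan k p G' M' Z' r w S t x) : InSpan k p G M Z r w S t x := by
  classical
  obtain ⟨Q, hQ, h⟩ := h
  set A : ι → k[X] := fun i => ∑ j ∈ (Q i).support.filter (fun j => t - (p : ℝ) ^ j * r i ∈ G),
    C ((Q i).coeff j) * X ^ j with hA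
  set B : ι → k[X] := fun i => ∑ j ∈ (Q i).support.filter (fun j => ¬ t - (p : ℝ) ^ j * r i ∈ G),
    C ((Q i).coeff j) * X ^ j with hB
  have hAB : ∀ i, Q i = A i + B i := by
    intro i
    rw [hA, hB]
    simp only
    rw [Finset.sum_filter_add_sum_filter_not]
    exact as_sum_support_C_mul_X_pow (Q i)
  have hAop : ∀ i ∈ S, IsOp p G (r i) t (A i) := fun i _ =>
    IsOp.sum fun j hj => IsOp.mono fun _ => (Finset.mem_filter.mp hj).2
  have hsplit : x - ∑ i ∈ S, ev p M' (r i) t (Q i) (w i) =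
      (x - ∑ i ∈ S, ev p M (r i) t (A i) (w i)) + ∑ i ∈ S, ∑ j ∈ (Q i).support.filter
        (fun j => ¬ t - (p : ℝ) ^ j * r i ∈ G),
        M' (t - (p : ℝ) ^ j * r i) * (algebraMap k Ω (-(Q i).coeff j) * w i ^ p ^ j) := by
    have h1 : ∀ i ∈ S, ev p M' (r i) t (Q i) (w i) = ev p M (r i) t (A i) (w i) -
        ∑ j ∈ (Q i).support.filter (fun j => ¬ t - (p : ℝ) ^ j * r i ∈ G),
        M' (t - (p : ℝ) ^ j * r i) * (algebraMap k Ω (-(Q i).coeff j) * w i ^ p ^ j) := by
      intro i hi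
      rw [← ev_fine hMM (hAop i hi)]
      conv_lhs => rw [hAB i, ev_add]
      rw [sub_eq_add_neg, ← Finset.sum_neg_distrib]
      congr 1
      rw [hB]
      simp only
      rw [ev_sum]
      refine Finset.sum_congr rfl fun j _ => ?_
      rw [ev_mono, map_neg]
      ring
    rw [Finset.sum_congr rfl h1, Finset.sum_sub_distrib]
    ring
  have hLA : L t (x - ∑ i ∈ S, ev p M (r i) t (A i) (w i)) :=
    hL.sub hM hx (hL.sum fun i hi => hL.ev (hAop i hi) (hw i hi))
  have hterm : ∀ i ∈ S, ∀ j ∈ (Q i).support.filter (fun j => ¬ t - (p : ℝ) ^ j * r i ∈ G),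
      L (t - (t - (p : ℝ) ^ j * r i)) (algebraMap k Ω (-(Q i).coeff j) * w i ^ p ^ j) ∧
      L' t (M' (t - (p : ℝ) ^ j * r i) * (algebraMap k Ω (-(Q i).coeff j) * w i ^ p ^ j)) := by
    intro i hi j hj
    rw [Finset.mem_filter] at hj
    constructor
    · have h1 := hL.op (-(Q i).coeff j) (r i) 0 j (w i) G.zero_mem (hw i hi)
      rw [hM.zero, mul_one, zero_add] at h1
      rwa [sub_sub_cancel]
    · have h1 := hL'.op (-(Q i).coeff j) (r i) (t - (p : ℝ) ^ j * r i) j (w i)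
        (hQ i hi j (mem_support_iff.mp hj.1)) (hLL _ _ (hw i hi))
      rw [sub_add_cancel] at h1
      have h2 : M' (t - (p : ℝ) ^ j * r i) * (algebraMap k Ω (-(Q i).coeff j) * w i ^ p ^ j) =
          algebraMap k Ω (-(Q i).coeff j) * M' (t - (p : ℝ) ^ j * r i) * w i ^ p ^ j := by ring
      rw [h2]
      exact h1
  have hB0 : π (∑ i ∈ S, ∑ j ∈ (Q i).support.filter
        (fun j => ¬ t - (p : ℝ) ^ j * r i ∈ G),
        M' (t - (p : ℝ) ^ j * r i) * (algebraMap k Ω (-(Q i).coeff j) * w i ^ p ^ j)) = 0 := by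
    refine hπ.sum_zero hL hL' S _ (fun i hi => hL'.sum fun j hj => (hterm i hi j hj).2) fun i hi =>
      hπ.sum_zero hL hL' _ _ (fun j hj => (hterm i hi j hj).2) fun j hj => ?_
    have hj' := Finset.mem_filter.mp hj
    exact hπ.kill _ (hQ i hi j (mem_support_iff.mp hj'.1)) hj'.2 _ (hterm i hi j hj).1
  refine ⟨A, hAop, ?_⟩
  have h1 := hπ.z _ h
  rw [hsplit, hπ.add _ _ (hLL _ _ hLA) (hL'.sum fun i hi => hL'.sum fun j hj =>
    (hterm i hi j hj).2), hB0, add_zero, hπ.id _ hLA] at h1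
  exact h1

/-- **A7.d (d2).** A finite family in the fine part has the same fine span as a family which is
free over `G`, if (P) holds over `G'`. -/
theorem exists_free_fine [IsAlgClosed k] [Fact p.Prime] [CharP k p] [CharP Ω p]
    (hM : MS v G M) (hM' : MS v G' M') (hGG : G ≤ G')
    (hMM : ∀ g ∈ G, M' g = M g) (hZ : GSub k p G M Z) (hL : GSub k p G M L)
    (hZL : ∀ r a, Z r a → L r a) (hZ' : GSub k p G' M' Z') (hL' : GSub k p G' M' L')
    (hZZ : ∀ r a, Z r a → Z' r a) (hLL : ∀ r a, L r a → L' r a)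
    (htor : ∀ g ∈ G', ∃ n : ℕ, ¬ p ∣ n ∧ (n : ℝ) * g ∈ G)
    (hπ : ∀ t, ∃ π : Ω → Ω, FinePr G G' M' Z L Z' L' t π) {g₀ : ℝ} (hg₀ : g₀ ∈ G')
    (hG : ∀ g ∈ G', ∃ l < p, ∃ g' ∈ G', g = l * g₀ + p * g')
    (hdiv : ∀ (R : ℝ) (y : ℕ → Ω), (∀ l < p, L' ((R - l * g₀) / p) (y l)) →
      Z' R (∑ l ∈ Finset.range p, M' (l * g₀) * y l ^ p) → ∀ l < p, Z' ((R - l * g₀) / p) (y l))
    (hP : PropP p M' Z' L' g₀) {ι : Type*} [Fintype ι] [DecidableEq ι] (r : ι → ℝ) (w₀ : ι → Ω)
    (hr : ∀ i, ∀ m : ℕ, m ≠ 0 → (p : ℝ) ^ m * r i - r i ∈ G' → r i ∈ G')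
    (hw₀ : ∀ i, L (r i) (w₀ i)) :
    ∃ (S : Finset ι) (w : ι → Ω), (∀ i ∈ S, L (r i) (w i)) ∧
      (∀ i, InSpan k p G M Z r w S (r i) (w₀ i)) ∧
      (∀ i ∈ S, InSpan k p G M Z r w₀ Finset.univ (r i) (w i)) ∧
      (∀ i ∈ S, ¬ InSpan k p G M Z r w (S.erase i) (r i) (w i)) ∧
      FreeOn k p G M Z r w S ∧
      (∀ i ∈ S, ¬ InSpan k p G' M' Z' r w (S.erase i) (r i) (w i)) := by
  obtain ⟨S, w, h1, h2, h3, h4, h5⟩ := exists_reduced hM hZ hL hZL r w₀ hw₀
  have h4' : ∀ i ∈ S, ¬ InSpan k p G' M' Z' r w (S.erase i) (r i) (w i) := by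
    intro i hi h
    obtain ⟨π, hπ'⟩ := hπ (r i)
    exact h4 i hi (inSpan_fine hM hMM hL hL' hLL hπ'
      (fun j hj => h1 j (Finset.mem_of_mem_erase hj)) (h1 i hi) h)
  refine ⟨S, w, h1, h2, h3, h4, ?_, h4'⟩
  rcases h5 with h5 | ⟨R, Q, hQ, ⟨i, hi, hQi⟩, hrel, -, hd⟩
  · exact h5
  · exfalso
    have hrel' : Z' R (∑ i ∈ S, ev p M' (r i) R (Q i) (w i)) := by
      rw [Finset.sum_congr rfl fun i hi => ev_fine hMM (hQ i hi) (w i)]
      exact hZZ _ _ hrel
    refine hQi (no_rel_all hM' hZ' hL' hg₀ hG hdiv hP (fun i _ => hr i)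
      (fun i hi => hLL _ _ (h1 i hi)) h4' (∑ i ∈ S, ((Q i).natDegree + 1)) R Q
      (fun j hj => isOp_coarse hGG (hQ j hj)) (fun j hj => ?_) hrel' ?_ i hi)
    · have h6 := Finset.single_le_sum (f := fun i => (Q i).natDegree + 1)
        (fun _ _ => Nat.zero_le _) hj
      omega
    · intro a ha b hb hra hrb hQa hQb
      by_contra hab
      have key : ∀ x ∈ S, ∀ y ∈ S, x ≠ y → r x ∈ G' → r y ∈ G' → Q x ≠ 0 → Q y ≠ 0 →
          ¬ (Q y).natDegree ≤ (Q x).natDegree := by
        intro x hx y hy hxy hrx hry hQx hQy hle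
        refine hd x hx y hy hxy hQx hQy hle ?_
        have h7 : r y - (p : ℝ) ^ ((Q x).natDegree - (Q y).natDegree) * r x ∈ G' := by
          refine G'.sub_mem hry ?_
          have h8 : (p : ℝ) ^ ((Q x).natDegree - (Q y).natDegree) * r x =
              (p ^ ((Q x).natDegree - (Q y).natDegree) : ℕ) • r x := by
            rw [nsmul_eq_mul, Nat.cast_pow]
          rw [h8]
          exact G'.nsmul_mem hrx _
        obtain ⟨n, hn, h9⟩ := htor _ h7
        refine mem_of_coprime (p := p) hn h9 (m := (Q y).natDegree) ?_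
        have h10 := hQ x hx _ (leadingCoeff_ne_zero.mpr hQx)
        have h11 := hQ y hy _ (leadingCoeff_ne_zero.mpr hQy)
        have h12 : (p : ℝ) ^ (Q y).natDegree *
            (r y - (p : ℝ) ^ ((Q x).natDegree - (Q y).natDegree) * r x) =
            (R - (p : ℝ) ^ (Q x).natDegree * r x) - (R - (p : ℝ) ^ (Q y).natDegree * r y) := by
          rw [mul_sub, ← mul_assoc, ← pow_add, Nat.add_sub_cancel' hle]
          ring
        rw [h12]
        exact G.sub_mem h10 h11
      rcases le_total (Q b).natDegree (Q a).natDegree with h | h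
      · exact key a ha b hb hab hra hrb hQa hQb h
      · exact key b hb a ha (Ne.symm hab) hrb hra hQb hQa h

/-- **A7.d (d2), for the saturation of `G` prime to `p`**: no condition on the radii. -/
theorem exists_free_satp [IsAlgClosed k] [Fact p.Prime] [CharP k p] [CharP Ω p]
    (hM : MS v G M) (hM' : MS v (satp p G) M') (hMM : ∀ g ∈ G, M' g = M g)
    (hZ : GSub k p G M Z) (hL : GSub k p G M L) (hZL : ∀ r a, Z r a → L r a)
    (hZ' : GSub k p (satp p G) M' Z') (hL' : GSub k p (satp p G) M' L')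
    (hZZ : ∀ r a, Z r a → Z' r a) (hLL : ∀ r a, L r a → L' r a)
    (hπ : ∀ t, ∃ π : Ω → Ω, FinePr G (satp p G) M' Z L Z' L' t π) {g₀ : ℝ} (hg₀ : g₀ ∈ G)
    (hG : ∀ g ∈ G, ∃ l < p, ∃ g' ∈ G, g = l * g₀ + p * g')
    (hdiv : ∀ (R : ℝ) (y : ℕ → Ω), (∀ l < p, L' ((R - l * g₀) / p) (y l)) →
      Z' R (∑ l ∈ Finset.range p, M' (l * g₀) * y l ^ p) → ∀ l < p, Z' ((R - l * g₀) / p) (y l))
    (hP : PropP p M' Z' L' g₀) {ι : Type*} [Fintype ι] [DecidableEq ι] (r : ι → ℝ) (w₀ : ι → Ω)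
    (hw₀ : ∀ i, L (r i) (w₀ i)) :
    ∃ (S : Finset ι) (w : ι → Ω), (∀ i ∈ S, L (r i) (w i)) ∧
      (∀ i, InSpan k p G M Z r w S (r i) (w₀ i)) ∧
      (∀ i ∈ S, InSpan k p G M Z r w₀ Finset.univ (r i) (w i)) ∧
      (∀ i ∈ S, ¬ InSpan k p G M Z r w (S.erase i) (r i) (w i)) ∧
      FreeOn k p G M Z r w S ∧
      (∀ i ∈ S, ¬ InSpan k p (satp p G) M' Z' r w (S.erase i) (r i) (w i)) :=
  exists_free_fine hM hM' le_satp hMM hZ hL hZL hZ' hL' hZZ hLL (fun _ hg => hg) hπ
    (le_satp hg₀) (satp_gen hg₀ hG) hdiv hP r w₀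
    (fun _ _ hm h => mem_of_pow_sub (fun _ _ hn h' => satp_sat hn h') hm h) hw₀

end fine_main

end Pool.Agent.TWT
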