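import Pool.Agent.Lib.TWT.SP2

/-!
# TWT, TR1: transport of charts by an automorphism
-/

set_option autoImplicit false

namespace Pool.Agent.TWT

open Pool.Agent.H15JM (RVal)
open Pool.Agent.LU1 (VPos)
open Pool.Agent.LUC

universe u

variable {Ω : Type u} [Field Ω]

/-- The valuation `v ∘ φ`. -/
def cm (v : RVal Ω) (φ : Ω ≃+* Ω) : RVal Ω where
  toFun f := v (φ f)
  map_mul' x y hx hy := by
    rw [_root_.map_mul]
    exact v.map_mul ((map_ne_zero φ).2 hx) ((map_ne_zero φ).2 hy)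
  map_add' x y hx hy hxy := by
    have h : φ x + φ y ≠ 0 := by
      rw [← _root_.map_add]
      exact (map_ne_zero φ).2 hxy
    rw [_root_.map_add]
    exact v.map_add ((map_ne_zero φ).2 hx) ((map_ne_zero φ).2 hy) h

variable {v : RVal Ω} {φ : Ω ≃+* Ω}

theorem cm_apply (v : RVal Ω) (φ : Ω ≃+* Ω) (f : Ω) : cm v φ f = v (φ f) := rfl

theorem cm_ge {c : ℝ} {f : Ω} : (cm v φ).Ge c f ↔ v.Ge c (φ f) :=
  ⟨fun h h0 => h ((map_ne_zero φ).1 h0), fun h h0 => h ((map_ne_zero φ).2 h0)⟩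

theorem cm_vpos {f : Ω} : VPos (cm v φ) f ↔ VPos v (φ f) :=
  ⟨fun h h0 => h ((map_ne_zero φ).1 h0), fun h h0 => h ((map_ne_zero φ).2 h0)⟩

theorem mem_map {B : Subring Ω} {f : Ω} : f ∈ B.map (φ : Ω →+* Ω) ↔ φ.symm f ∈ B := by
  constructor
  · rintro ⟨x, hx, rfl⟩
    have : φ.symm ((φ : Ω →+* Ω) x) = x := φ.symm_apply_apply x
    rw [this]
    exact hx
  · intro h
    exact ⟨φ.symm f, h, φ.apply_symm_apply f⟩

theorem apply_mem_map {B : Subring Ω} {f : Ω} : φ f ∈ B.map (φ : Ω →+* Ω) ↔ f ∈ B := by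
  rw [mem_map, φ.symm_apply_apply]

theorem adj_map (R : Subring Ω) (F : Set Ω) :
    (adj R F).map (φ : Ω →+* Ω) = adj (R.map (φ : Ω →+* Ω)) (φ '' F) := by
  rw [adj, adj, RingHom.map_closure]
  congr 1
  rw [Set.image_union]
  rfl

theorem lv_map (B : Subring Ω) :
    (lv (cm v φ) B).map (φ : Ω →+* Ω) = lv v (B.map (φ : Ω →+* Ω)) := by
  ext f
  rw [mem_map, mem_lv, mem_lv]
  constructor
  · rintro ⟨a, ha, b, hb, hb0, hbv, hf⟩
    refine ⟨φ a, apply_mem_map.2 ha, φ b, apply_mem_map.2 hb, (map_ne_zero φ).2 hb0, hbv, ?_⟩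
    rw [← map_div₀, ← hf, φ.apply_symm_apply]
  · rintro ⟨a, ha, b, hb, hb0, hbv, hf⟩
    refine ⟨φ.symm a, mem_map.1 ha, φ.symm b, mem_map.1 hb, (map_ne_zero φ.symm).2 hb0, ?_, ?_⟩
    · rw [cm_apply, φ.apply_symm_apply]
      exact hbv
    · rw [← map_div₀, hf]

theorem sm_map {O : Subring Ω} {n : ℕ} {z : Fin n → Ω} {J : Finset (Fin n)} {t : Ω}
    (h : SM (cm v φ) O z J t) : SM v (O.map (φ : Ω →+* Ω)) (fun i => φ (z i)) J (φ t) := by
  obtain ⟨e, y, hy, hy0, hyv, ht, hJ, hp, hn, h0⟩ := h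
  refine ⟨e, φ y, apply_mem_map.2 hy, (map_ne_zero φ).2 hy0, hyv, ?_, hJ, hp, hn, h0⟩
  rw [ht, _root_.map_mul, _root_.map_prod]
  simp only [map_zpow₀]

theorem ip_map {B : Subring Ω} {n : ℕ} {z : Fin n → Ω} (hz : ∀ i, z i ∈ B) {f : Ω}
    (h : IP B z 1 f) : IP (B.map (φ : Ω →+* Ω)) (fun i => φ (z i)) 1 (φ f) := by
  obtain ⟨a, ha, rfl⟩ := (IP.one_iff hz).1 h
  refine (IP.one_iff fun i => apply_mem_map.2 (hz i)).2
    ⟨fun i => φ (a i), fun i => apply_mem_map.2 (ha i), ?_⟩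
  rw [map_sum]
  exact Finset.sum_congr rfl fun i _ => _root_.map_mul φ _ _

theorem par_map {O : Subring Ω} {n : ℕ} {z : Fin n → Ω} (h : Par (cm v φ) O z) :
    Par v (O.map (φ : Ω →+* Ω)) (fun i => φ (z i)) := by
  refine ⟨fun i => apply_mem_map.2 (h.mem i), fun i => (map_ne_zero φ).2 (h.ne i),
    fun i => h.pos i, fun f hf hfv => ?_⟩
  have h1 := h.gen (φ.symm f) (mem_map.1 hf) (cm_vpos.2 (by rwa [φ.apply_symm_apply]))
  have h2 := ip_map (φ := φ) h.mem h1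
  rwa [φ.apply_symm_apply] at h2

theorem dim_map (O : Subring Ω) : ringKrullDim (O.map (φ : Ω →+* Ω)) = ringKrullDim O := by
  refine (ringKrullDim_eq_of_ringEquiv ?_).symm
  exact O.equivMapOfInjective (φ : Ω →+* Ω) φ.injective

end Pool.Agent.TWT
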