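import Pool.Agent.Lib.TWT.SP1
import Pool.Agent.Lib.LUC.Q1

/-!
# TWT, SP2: specialization of charts

Let `w` be a real valuation and `O` the local ring, with parameters `z`, of a chart for `w`, over a
perfect field `k`. There is a finite set `S` of elements such that every real valuation `V` (trivial
on `k`) for which the elements of `S` have the same signs as for `w` has a chart with the parameters
`z` and some more parameters, the same blowing up and the same monomials.
-/

set_option autoImplicit false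

namespace Pool.Agent.TWT

open Pool.Agent.H15JM (RVal)
open Pool.Agent.LU1 (VPos)
open Pool.Agent.LUC

universe u

variable {Ω : Type u} [Field Ω]

/-- The ideal of the elements of positive value. -/
def cen (w : RVal Ω) (B : Subring Ω) (hB : ∀ f ∈ B, w.Ge 0 f) : Ideal B where
  carrier := {f | VPos w (f : Ω)}
  add_mem' := fun ha hb => VPos.add ha hb
  zero_mem' := VPos.zero
  smul_mem' := fun a _ hb => VPos.mul' (hB a a.2) hb

theorem mem_cen {w : RVal Ω} {B : Subring Ω} {hB : ∀ f ∈ B, w.Ge 0 f} {f : B} :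
    f ∈ cen w B hB ↔ VPos w (f : Ω) := Iff.rfl

theorem notMem_cen {w : RVal Ω} {B : Subring Ω} {hB : ∀ f ∈ B, w.Ge 0 f} {f : B} :
    f ∉ cen w B hB ↔ (f : Ω) ≠ 0 ∧ w (f : Ω) = 0 := by
  rw [mem_cen]
  constructor
  · intro h
    have h0 : (f : Ω) ≠ 0 := fun h0 => h (by rw [h0]; exact VPos.zero)
    refine ⟨h0, ?_⟩
    by_contra h1
    exact h fun _ => lt_of_le_of_ne (hB f f.2 h0) (Ne.symm h1)
  · rintro ⟨h0, h1⟩ h
    have := h h0
    rw [h1] at this
    exact lt_irrefl _ this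

instance cen_prime (w : RVal Ω) (B : Subring Ω) (hB : ∀ f ∈ B, w.Ge 0 f) :
    (cen w B hB).IsPrime := by
  constructor
  · rw [Ne, Ideal.eq_top_iff_one, notMem_cen]
    exact ⟨by simp, by simpa using w.map_one⟩
  · intro a b hab
    by_contra h
    push Not at h
    obtain ⟨ha0, ha⟩ := notMem_cen.1 h.1
    obtain ⟨hb0, hb⟩ := notMem_cen.1 h.2
    have h1 : a * b ∉ cen w B hB := by
      rw [notMem_cen, Subring.coe_mul]
      exact ⟨mul_ne_zero ha0 hb0, by rw [w.map_mul ha0 hb0, ha, hb, add_zero]⟩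
    exact h1 hab

/-- The dimension of the local ring at the centre. -/
theorem dim_lv (w : RVal Ω) (B : Subring Ω) (hB : ∀ f ∈ B, w.Ge 0 f) :
    ringKrullDim (lv w B) = (cen w B hB).height := by
  letI : Algebra B (lv w B) := (Subring.inclusion (le_lv w B)).toAlgebra
  have hmap : ∀ s : B, ((algebraMap B (lv w B) s : lv w B) : Ω) = s := fun _ => rfl
  have hloc : IsLocalization.AtPrime (lv w B) (cen w B hB) := by
    refine ⟨?_, ?_, ?_⟩
    · rintro ⟨s, hs⟩
      obtain ⟨hs0, hs1⟩ := notMem_cen.1 hs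
      refine IsUnit.of_mul_eq_one ⟨(s : Ω)⁻¹, lv_inv (le_lv w B s.2) hs0 hs1⟩ ?_
      apply Subtype.ext
      rw [Subring.coe_mul, hmap]
      exact mul_inv_cancel₀ hs0
    · rintro ⟨f, a, ha, b, hb, hb0, hvb, rfl⟩
      refine ⟨(⟨a, ha⟩, ⟨⟨b, hb⟩, notMem_cen.2 ⟨hb0, hvb⟩⟩), ?_⟩
      apply Subtype.ext
      rw [Subring.coe_mul, hmap, hmap]
      exact div_mul_cancel₀ a hb0
    · intro a b hab
      have : a = b := Subtype.ext (congrArg (fun z : lv w B => (z : Ω)) hab)
      exact ⟨1, by rw [this]⟩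
  exact IsLocalization.AtPrime.ringKrullDim_eq_height (cen w B hB) (lv w B)

theorem dim_le_of_par {w : RVal Ω} {B : Subring Ω} (hB0 : ∀ f ∈ B, w.Ge 0 f)
    (hnoe : IsNoetherianRing (lv w B)) {m : ℕ} {y : Fin m → Ω} (hpar : Par w (lv w B) y) :
    ringKrullDim (lv w B) ≤ m := by
  have hloc : IsLocalRing (lv w B) := lv_isLocalRing hB0
  refine (ringKrullDim_le_spanFinrank_maximalIdeal (lv w B)).trans ?_
  rw [hpar.max_eq hB0, idl]
  have hsub : {b : lv w B | ∃ i, (b : Ω) = y i} =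
      Set.range fun i => (⟨y i, hpar.mem i⟩ : lv w B) := by
    ext b
    constructor
    · rintro ⟨i, hi⟩
      exact ⟨i, Subtype.ext hi.symm⟩
    · rintro ⟨i, rfl⟩
      exact ⟨i, rfl⟩
  rw [hsub]
  have hcard : (Set.range fun i => (⟨y i, hpar.mem i⟩ : lv w B)).ncard ≤ m := by
    rw [← Set.image_univ]
    refine (Set.ncard_image_le Set.finite_univ).trans ?_
    rw [Set.ncard_univ, Nat.card_eq_fintype_card, Fintype.card_fin]
  exact_mod_cast (Submodule.spanFinrank_span_le_ncard_of_finite (Set.finite_range _)).trans hcard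

/-- A strong monomial for `w` is one for `V`, if the parameters are positive and the unit is a unit
for `V`. -/
theorem sm_transfer {w V : RVal Ω} {O' : Subring Ω} {n m : ℕ} {z : Fin n → Ω}
    {J : Finset (Fin n)} (hz0 : ∀ i, z i ≠ 0) (hzV : ∀ i, 0 < V (z i)) {t : Ω} {e : Fin n → ℤ}
    {y : Ω} (hy : y ∈ O') (hy0 : y ≠ 0) (hyV : V y = 0) (ht : t = (∏ i, z i ^ e i) * y)
    (hJ : ∀ i, i ∉ J → e i = 0) (hp : 0 < w t → ∀ i ∈ J, 0 < e i)
    (hn : w t < 0 → ∀ i ∈ J, e i < 0) (h0 : w t = 0 → ∀ i, e i = 0) (x : Fin m → Ω) :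
    SM V O' (Fin.append z x) (J.map (Fin.castAddEmb m)) t := by
  classical
  have hVt : V t = ∑ i, (e i : ℝ) * V (z i) := by
    have h1 : (∏ i, z i ^ e i) ≠ 0 := Finset.prod_ne_zero_iff.2 fun i _ => zpow_ne_zero _ (hz0 i)
    rw [ht, V.map_mul h1 hy0, hyV, add_zero, V.map_prod _ _ fun i _ => zpow_ne_zero _ (hz0 i)]
    exact Finset.sum_congr rfl fun i _ => V.map_zpow (hz0 i) (e i)
  have hzero : w t = 0 → V t = 0 := by
    intro h
    rw [hVt]
    exact Finset.sum_eq_zero fun i _ => by rw [h0 h i]; simp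
  have hpos : 0 < w t → 0 ≤ V t := by
    intro h
    rw [hVt]
    refine Finset.sum_nonneg fun i _ => mul_nonneg ?_ (hzV i).le
    by_cases hi : i ∈ J
    · exact_mod_cast (hp h i hi).le
    · rw [hJ i hi]; simp
  have hneg : w t < 0 → V t ≤ 0 := by
    intro h
    rw [hVt]
    refine Finset.sum_nonpos fun i _ => mul_nonpos_of_nonpos_of_nonneg ?_ (hzV i).le
    by_cases hi : i ∈ J
    · exact_mod_cast (hn h i hi).le
    · rw [hJ i hi]; simp
  have hpos' : 0 < V t → 0 < w t := by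
    intro h
    rcases lt_trichotomy (w t) 0 with h1 | h1 | h1
    · exact absurd (hneg h1) (not_le.2 h)
    · exact absurd (hzero h1) h.ne'
    · exact h1
  have hneg' : V t < 0 → w t < 0 := by
    intro h
    rcases lt_trichotomy (w t) 0 with h1 | h1 | h1
    · exact h1
    · exact absurd (hzero h1) h.ne
    · exact absurd (hpos h1) (not_le.2 h)
  -- all the exponents are zero if `V t = 0`
  have hzero' : V t = 0 → ∀ i, e i = 0 := by
    intro h
    by_cases hJe : J = ∅
    · intro i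
      exact hJ i (by rw [hJe]; exact Finset.notMem_empty i)
    obtain ⟨j, hj⟩ := Finset.nonempty_iff_ne_empty.2 hJe
    rcases lt_trichotomy (w t) 0 with h1 | h1 | h1
    · exfalso
      have h2 : V t < 0 := by
        rw [hVt]
        refine Finset.sum_neg' (fun i _ => mul_nonpos_of_nonpos_of_nonneg ?_ (hzV i).le)
          ⟨j, Finset.mem_univ j, mul_neg_of_neg_of_pos (by exact_mod_cast hn h1 j hj) (hzV j)⟩
        by_cases hi : i ∈ J
        · exact_mod_cast (hn h1 i hi).le
        · rw [hJ i hi]; simp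
      exact h2.ne h
    · exact h0 h1
    · exfalso
      have h2 : 0 < V t := by
        rw [hVt]
        refine Finset.sum_pos' (fun i _ => mul_nonneg ?_ (hzV i).le)
          ⟨j, Finset.mem_univ j, mul_pos (by exact_mod_cast hp h1 j hj) (hzV j)⟩
        by_cases hi : i ∈ J
        · exact_mod_cast (hp h1 i hi).le
        · rw [hJ i hi]; simp
      exact h2.ne' h
  refine ⟨Fin.append e fun _ => 0, y, hy, hy0, hyV, ?_, ?_, ?_, ?_, ?_⟩
  · rw [Fin.prod_univ_add, ht]
    simp only [Fin.append_left, Fin.append_right, zpow_zero, Finset.prod_const_one, mul_one]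
  · intro i
    refine Fin.addCases (fun i => ?_) (fun i => ?_) i
    · intro hi
      rw [Fin.append_left]
      apply hJ
      intro hi'
      exact hi (Finset.mem_map.2 ⟨i, hi', rfl⟩)
    · intro _
      rw [Fin.append_right]
  · intro h i hi
    obtain ⟨j, hj, rfl⟩ := Finset.mem_map.1 hi
    rw [Fin.castAddEmb_apply, Fin.append_left]
    exact hp (hpos' h) j hj
  · intro h i hi
    obtain ⟨j, hj, rfl⟩ := Finset.mem_map.1 hi
    rw [Fin.castAddEmb_apply, Fin.append_left]
    exact hn (hneg' h) j hj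
  · intro h i
    refine Fin.addCases (fun i => ?_) (fun i => ?_) i
    · rw [Fin.append_left]
      exact hzero' h i
    · rw [Fin.append_right]

/-- The elements of `S` which are `≥ 0` for `w` have the same signs for `V`. -/
def Dom (w V : RVal Ω) (S : Set Ω) : Prop :=
  ∀ f ∈ S, f ≠ 0 → (w f = 0 → V f = 0) ∧ (0 < w f → 0 < V f)

theorem Dom.mono {w V : RVal Ω} {S S' : Set Ω} (h : Dom w V S') (hS : S ⊆ S') : Dom w V S :=
  fun f hf => h f (hS hf)

theorem Dom.ge {w V : RVal Ω} {S : Set Ω} (h : Dom w V S) {f : Ω} (hf : f ∈ S) (h0 : w.Ge 0 f) :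
    V.Ge 0 f := by
  intro h1
  rcases (h0 h1).lt_or_eq with h2 | h2
  · exact ((h f hf h1).2 h2).le
  · exact ((h f hf h1).1 h2.symm).ge

theorem finiteType_adj {k : Type*} [Field k] [Algebra k Ω] (F : Finset Ω) :
    ∃ i : Algebra k (adj (algebraMap k Ω).range (F : Set Ω)),
      @Algebra.FiniteType k (adj (algebraMap k Ω).range (F : Set Ω)) _ _ i := by
  classical
  obtain ⟨B, hB⟩ : ∃ B : Subring Ω, B = adj (algebraMap k Ω).range (F : Set Ω) := ⟨_, rfl⟩
  rw [← hB]
  have hS : (Algebra.adjoin k (F : Set Ω)).toSubring = B := by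
    rw [Algebra.adjoin_eq_ring_closure, hB, adj]
    congr 2
  have hft : Algebra.FiniteType k (Algebra.adjoin k (F : Set Ω)) :=
    (Subalgebra.fg_iff_finiteType _).1 ⟨F, rfl⟩
  subst hS
  exact ⟨inferInstanceAs (Algebra k (Algebra.adjoin k (F : Set Ω))), hft⟩

/-- **Specialization of charts.** -/
theorem exists_control {k : Type*} [Field k] [PerfectField k] [Algebra k Ω] (w : RVal Ω)
    (hk : ∀ c : k, c ≠ 0 → w (algebraMap k Ω c) = 0) {A T : Finset Ω}
    (hA : ∀ a ∈ A, w.Ge 0 a) {n : ℕ} {z : Fin n → Ω} {J : Finset (Fin n)} {O : Subring Ω}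
    (h : IsMod w (algebraMap k Ω).range (A : Set Ω) (T : Set Ω) z J O) (hd : ringKrullDim O = n)
    {K : Subfield Ω} (hkK : ∀ c : k, algebraMap k Ω c ∈ K) (hAK : ∀ a ∈ A, a ∈ K) :
    ∃ (g : Ω) (G S : Finset Ω), (∀ f ∈ S, f ∈ K) ∧ g ∈ adj (algebraMap k Ω).range (A : Set Ω) ∧
      g ≠ 0 ∧ (∀ x ∈ G, x ∈ adj (algebraMap k Ω).range (A : Set Ω)) ∧
      ∀ V : RVal Ω, (∀ c : k, c ≠ 0 → V (algebraMap k Ω c) = 0) → Dom w V (S : Set Ω) →
        ∃ (m : ℕ) (x : Fin m → Ω),
          (∀ i, x i ∈ K) ∧ (∀ y ∈ G, V.Ge (V g) y) ∧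
          SM V (lv V (adj (algebraMap k Ω).range ((A : Set Ω) ∪ (fun x => x / g) '' (G : Set Ω))))
            (Fin.append z x) (J.map (Fin.castAddEmb m)) g ∧
          IsMod V (algebraMap k Ω).range (A : Set Ω) (T : Set Ω) (Fin.append z x)
            (J.map (Fin.castAddEmb m))
            (lv V (adj (algebraMap k Ω).range
              ((A : Set Ω) ∪ (fun x => x / g) '' (G : Set Ω)))) ∧
          ringKrullDim (lv V (adj (algebraMap k Ω).range
              ((A : Set Ω) ∪ (fun x => x / g) '' (G : Set Ω)))) = ((n + m : ℕ) : WithBot ℕ∞) := by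
  classical
  obtain ⟨g, hg, hg0, hgm, G, hG, hO⟩ := h.chart
  obtain ⟨R, hR⟩ : ∃ R : Subring Ω, R = (algebraMap k Ω).range := ⟨_, rfl⟩
  have hset : ((A : Set Ω) ∪ (fun x => x / g) '' (G : Set Ω)) =
      ((A ∪ G.image fun x => x / g : Finset Ω) : Set Ω) := by
    rw [Finset.coe_union, Finset.coe_image]
  obtain ⟨F, hF⟩ : ∃ F : Finset Ω, F = A ∪ G.image fun x => x / g := ⟨_, rfl⟩
  rw [← hF] at hset
  rw [hset] at hO
  -- everything is in `K`
  have hRK : ∀ f ∈ (algebraMap k Ω).range, f ∈ K := by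
    rintro _ ⟨c, rfl⟩
    exact hkK c
  have hadjK : ∀ E : Set Ω, (∀ f ∈ E, f ∈ K) → ∀ f ∈ adj (algebraMap k Ω).range E, f ∈ K :=
    fun E hE f hf => adj_induction (p := fun f => f ∈ K) hRK hE (fun _ _ => K.add_mem)
      (fun _ _ => K.mul_mem) hf
  have hA0K : ∀ f ∈ adj (algebraMap k Ω).range (A : Set Ω), f ∈ K := hadjK _ hAK
  have hFK : ∀ f ∈ F, f ∈ K := by
    intro f hf
    rw [hF, Finset.mem_union, Finset.mem_image] at hf
    rcases hf with hf | ⟨x, hx, rfl⟩
    · exact hAK f hf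
    · exact K.div_mem (hA0K x (hG x hx).1) (hA0K g hg)
  obtain ⟨B, hB⟩ : ∃ B : Subring Ω, B = adj (algebraMap k Ω).range (F : Set Ω) := ⟨_, rfl⟩
  rw [← hB] at hO
  have hBK : ∀ f ∈ B, f ∈ K := by rw [hB]; exact hadjK _ hFK
  have hOK : ∀ f ∈ O, f ∈ K := by
    rw [hO]
    rintro _ ⟨a, ha, b, hb, -, -, rfl⟩
    exact K.div_mem (hBK a ha) (hBK b hb)
  have hkge : ∀ (V : RVal Ω), (∀ c : k, c ≠ 0 → V (algebraMap k Ω c) = 0) →
      ∀ f ∈ (algebraMap k Ω).range, V.Ge 0 f := by
    rintro V hV _ ⟨c, rfl⟩ hc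
    rw [hV c (by rintro rfl; simp at hc)]
  have hFw : ∀ f ∈ F, w.Ge 0 f := by
    intro f hf
    rw [hF, Finset.mem_union, Finset.mem_image] at hf
    rcases hf with hf | ⟨x, hx, rfl⟩
    · exact hA f hf
    · intro hxg
      have hx0 : x ≠ 0 := by
        rintro rfl
        simp at hxg
      rw [w.map_div hx0 hg0]
      have := (hG x hx).2 hx0
      linarith
  have hBw : ∀ f ∈ B, w.Ge 0 f := by rw [hB]; exact adj_nonneg (hkge w hk) hFw
  have hBn : IsNoetherianRing B := by
    have : IsNoetherianRing (algebraMap k Ω).range :=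
      isNoetherianRing_range (algebraMap k Ω)
    rw [hB]
    exact adj_isNoetherian _ _
  -- the parameters near the centre of `w`
  obtain ⟨iB, hft⟩ : ∃ i : Algebra k B, @Algebra.FiniteType k B _ _ i := by
    rw [hB]
    exact finiteType_adj F
  obtain ⟨f₀, hf₀, hpar⟩ := exists_params k B (cen w B hBw)
  obtain ⟨hf₀0, hf₀w⟩ := notMem_cen.1 hf₀
  -- generators of the centre of `w`
  obtain ⟨NP, hNP⟩ := (isNoetherianRing_iff_ideal_fg B).1 hBn (cen w B hBw)
  have hNPw : ∀ b ∈ NP, VPos w (b : Ω) := fun b hb => by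
    rw [← mem_cen (hB := hBw), ← hNP]
    exact Ideal.subset_span hb
  have hcoef : ∀ b : B, ∃ a : Fin n → Ω, b ∈ NP → (∀ i, a i ∈ O) ∧ (b : Ω) = ∑ i, a i * z i := by
    intro b
    by_cases hb : b ∈ NP
    · have h1 := h.par.gen b (by rw [hO]; exact le_lv w B b.2) (hNPw b hb)
      obtain ⟨a, ha, hab⟩ := (IP.one_iff h.par.mem).1 h1
      exact ⟨a, fun _ => ⟨ha, hab⟩⟩
    · exact ⟨0, fun h => absurd h hb⟩
  choose a ha using hcoef
  -- denominators
  have hden : ∀ y : Ω, ∃ d : Ω, y ∈ O → d ∈ B ∧ d ≠ 0 ∧ w d = 0 ∧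
      ∀ V : RVal Ω, V d = 0 → y ∈ lv V B := by
    intro y
    by_cases hy : y ∈ O
    · have hy' := hy
      rw [hO] at hy'
      obtain ⟨p, hp, d, hd, hd0, hdw, rfl⟩ := hy'
      exact ⟨d, fun _ => ⟨hd, hd0, hdw, fun V hV => ⟨p, hp, d, hd, hd0, hV, rfl⟩⟩⟩
    · exact ⟨0, fun h => absurd h hy⟩
  choose den hden using hden
  -- monomials
  have hmono : ∀ t : Ω, ∃ (e : Fin n → ℤ) (y : Ω), t ∈ insert g T → y ∈ O ∧ y ≠ 0 ∧ w y = 0 ∧
      t = (∏ i, z i ^ e i) * y ∧ (∀ i, i ∉ J → e i = 0) ∧ (0 < w t → ∀ i ∈ J, 0 < e i) ∧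
      (w t < 0 → ∀ i ∈ J, e i < 0) ∧ (w t = 0 → ∀ i, e i = 0) := by
    intro t
    by_cases ht : t ∈ insert g T
    · have h1 : SM w O z J t := by
        rcases Finset.mem_insert.1 ht with rfl | ht
        · exact hgm
        · exact h.mono t ht
      obtain ⟨e, y, h2⟩ := h1
      exact ⟨e, y, fun _ => h2⟩
    · exact ⟨0, 0, fun h => absurd h ht⟩
  choose e y hmono using hmono
  -- the finite sets
  obtain ⟨Y, hY⟩ : ∃ Y : Finset Ω, Y = Finset.univ.image z ∪ (insert g T).image y ∪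
      NP.biUnion fun b => Finset.univ.image (a b) := ⟨_, rfl⟩
  have hYO : ∀ x ∈ Y, x ∈ O := by
    intro x hx
    rw [hY, Finset.mem_union, Finset.mem_union] at hx
    rcases hx with (hx | hx) | hx
    · obtain ⟨i, -, rfl⟩ := Finset.mem_image.1 hx
      exact h.par.mem i
    · obtain ⟨t, ht, rfl⟩ := Finset.mem_image.1 hx
      exact (hmono t ht).1
    · obtain ⟨b, hb, hx⟩ := Finset.mem_biUnion.1 hx
      obtain ⟨i, -, rfl⟩ := Finset.mem_image.1 hx
      exact (ha b hb).1 i
  obtain ⟨S, hS⟩ : ∃ S : Finset Ω, S = F ∪ NP.image (fun b : B => (b : Ω)) ∪ {(f₀ : Ω)} ∪ Y ∪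
      Y.image den := ⟨_, rfl⟩
  have hSF : ∀ f ∈ F, f ∈ S := fun f hf => by
    rw [hS]; simp only [Finset.mem_union]; tauto
  have hSN : ∀ b ∈ NP, (b : Ω) ∈ S := fun b hb => by
    rw [hS]
    simp only [Finset.mem_union]
    exact Or.inl (Or.inl (Or.inl (Or.inr (Finset.mem_image_of_mem _ hb))))
  have hSf : (f₀ : Ω) ∈ S := by
    rw [hS]; simp only [Finset.mem_union, Finset.mem_singleton]; tauto
  have hSY : ∀ f ∈ Y, f ∈ S := fun f hf => by
    rw [hS]; simp only [Finset.mem_union]; tauto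
  have hSd : ∀ f ∈ Y, den f ∈ S := fun f hf => by
    rw [hS]
    simp only [Finset.mem_union]
    exact Or.inr (Finset.mem_image_of_mem _ hf)
  refine ⟨g, G, S, ?_, hg, hg0, fun x hx => (hG x hx).1, ?_⟩
  · intro f hf
    rw [hS] at hf
    simp only [Finset.mem_union, Finset.mem_singleton] at hf
    rcases hf with (((hf | hf) | hf) | hf) | hf
    · exact hFK f hf
    · obtain ⟨b, -, rfl⟩ := Finset.mem_image.1 hf
      exact hBK b b.2
    · rw [hf]; exact hBK f₀ f₀.2
    · exact hOK f (hYO f hf)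
    · obtain ⟨x, hx, rfl⟩ := Finset.mem_image.1 hf
      exact hBK _ (hden x (hYO x hx)).1
  intro V hV hdom
  rw [hset, ← hB]
  -- the centre of `V`
  have hFV : ∀ f ∈ F, V.Ge 0 f := fun f hf => hdom.ge (hSF f hf) (hFw f hf)
  have hBV : ∀ f ∈ B, V.Ge 0 f := by rw [hB]; exact adj_nonneg (hkge V hV) hFV
  have hPQ : cen w B hBw ≤ cen V B hBV := by
    rw [← hNP, Ideal.span_le]
    intro b hb
    have h1 := hNPw b hb
    change VPos V (b : Ω)
    intro hb0
    exact (hdom _ (hSN b hb) hb0).2 (h1 hb0)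
  have hfQ : f₀ ∉ cen V B hBV := notMem_cen.2 ⟨hf₀0, (hdom _ hSf hf₀0).1 hf₀w⟩
  obtain ⟨m, x, hxQ, hxP, hgen, hheight⟩ := hpar (cen V B hBV) hPQ hfQ
  have hYV : ∀ f ∈ Y, f ∈ lv V B := by
    intro f hf
    obtain ⟨h1, h2, h3, h4⟩ := hden f (hYO f hf)
    exact h4 V ((hdom _ (hSd f hf) h2).1 h3)
  have hzY : ∀ i, z i ∈ Y := fun i => by
    rw [hY]; simp only [Finset.mem_union]
    exact Or.inl (Or.inl (Finset.mem_image_of_mem _ (Finset.mem_univ i)))
  have hyY : ∀ t ∈ insert g T, y t ∈ Y := fun t ht => by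
    rw [hY]; simp only [Finset.mem_union]
    exact Or.inl (Or.inr (Finset.mem_image_of_mem _ ht))
  have haY : ∀ b ∈ NP, ∀ i, a b i ∈ Y := fun b hb i => by
    rw [hY]; simp only [Finset.mem_union]
    exact Or.inr (Finset.mem_biUnion.2 ⟨b, hb, Finset.mem_image_of_mem _ (Finset.mem_univ i)⟩)
  have hzV : ∀ i, 0 < V (z i) := fun i =>
    (hdom _ (hSY _ (hzY i)) (h.par.ne i)).2 (h.par.pos i)
  have hx0 : ∀ i, (x i : Ω) ≠ 0 := fun i h0 => hxP i (by
    have : x i = 0 := Subtype.ext h0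
    rw [this]
    exact Ideal.zero_mem _)
  have hmem : ∀ i, Fin.append z (fun i => (x i : Ω)) i ∈ lv V B := by
    intro i
    refine Fin.addCases (fun i => ?_) (fun i => ?_) i
    · rw [Fin.append_left]
      exact hYV _ (hzY i)
    · rw [Fin.append_right]
      exact le_lv V B (x i).2
  have hSM : ∀ t ∈ insert g T, SM V (lv V B) (Fin.append z fun i => (x i : Ω))
      (J.map (Fin.castAddEmb m)) t := by
    intro t ht
    obtain ⟨h1, h2, h3, h4, h5, h6, h7, h8⟩ := hmono t ht
    exact sm_transfer h.par.ne hzV (hYV _ (hyY t ht)) h2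
      ((hdom _ (hSY _ (hyY t ht)) h2).1 h3) h4 h5 h6 h7 h8 _
  have hGV : ∀ p ∈ G, V.Ge (V g) p := by
    intro p hp hp0
    have h1 : p / g ∈ F := by
      rw [hF, Finset.mem_union]
      exact Or.inr (Finset.mem_image_of_mem _ hp)
    have h2 := hFV _ h1 (div_ne_zero hp0 hg0)
    rw [V.map_div hp0 hg0] at h2
    linarith
  have hparV : Par V (lv V B) (Fin.append z fun i => (x i : Ω)) := by
    refine ⟨hmem, ?_, ?_, ?_⟩
    · intro i
      refine Fin.addCases (fun i => ?_) (fun i => ?_) i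
      · rw [Fin.append_left]
        exact h.par.ne i
      · rw [Fin.append_right]
        exact hx0 i
    · intro i
      refine Fin.addCases (fun i => ?_) (fun i => ?_) i
      · rw [Fin.append_left]
        exact hzV i
      · rw [Fin.append_right]
        exact hxQ i (hx0 i)
    · -- generation
      have hI : ∀ b : B, b ∈ Ideal.span (Set.range x) ⊔ cen w B hBw →
          IP (lv V B) (Fin.append z fun i => (x i : Ω)) 1 (b : Ω) := by
        obtain ⟨I, hI⟩ : ∃ I : Ideal B, I = (idl (lv V B) (Fin.append z fun i => (x i : Ω))).comap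
            (Subring.inclusion (le_lv V B)) := ⟨_, rfl⟩
        have hmemI : ∀ b : B, IP (lv V B) (Fin.append z fun i => (x i : Ω)) 1 (b : Ω) → b ∈ I := by
          intro b hb
          rw [hI, Ideal.mem_comap]
          rw [IP.iff_mem (le_lv V B b.2), pow_one] at hb
          exact hb
        have hle : Ideal.span (Set.range x) ⊔ cen w B hBw ≤ I := by
          refine sup_le (Ideal.span_le.2 ?_) ?_
          · rintro _ ⟨i, rfl⟩
            apply hmemI
            have h1 := IP.gen (B := lv V B) (z := Fin.append z fun i => (x i : Ω))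
              (i := Fin.natAdd n i) (hmem _)
            rwa [Fin.append_right] at h1
          · rw [← hNP, Ideal.span_le]
            intro b hb
            apply hmemI
            rw [(ha b hb).2]
            refine IP.sum _ _ fun i _ => ?_
            have h1 := IP.gen (B := lv V B) (z := Fin.append z fun i => (x i : Ω))
              (i := Fin.castAdd m i) (hmem _)
            rw [Fin.append_left] at h1
            exact h1.mul_left (hYV _ (haY b hb i))
        intro b hb
        have h1 := hle hb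
        rw [hI, Ideal.mem_comap] at h1
        rw [IP.iff_mem (le_lv V B b.2), pow_one]
        exact h1
      rintro f ⟨p, hp, q, hq, hq0, hqV, rfl⟩ hf
      have hpQ : (⟨p, hp⟩ : B) ∈ cen V B hBV := by
        rw [mem_cen]
        intro hp0
        have h1 := hf (div_ne_zero hp0 hq0)
        rw [V.map_div hp0 hq0, hqV, sub_zero] at h1
        exact h1
      obtain ⟨s, hs, hsp⟩ := hgen _ hpQ
      obtain ⟨hs0, hsV⟩ := notMem_cen.1 hs
      have h1 := hI _ hsp
      rw [Subring.coe_mul] at h1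
      have h2 : p / q = ((s : Ω)⁻¹ * q⁻¹) * ((s : Ω) * p) := by
        field_simp
      rw [h2]
      exact h1.mul_left (Subring.mul_mem _ (lv_inv (le_lv V B s.2) hs0 hsV)
        (lv_inv (le_lv V B hq) hq0 hqV))
  have hnoe : IsNoetherianRing (lv V B) := lv_isNoetherian B
  refine ⟨m, fun i => (x i : Ω), fun i => hBK _ (x i).2, hGV, hSM g (Finset.mem_insert_self g T),
    ⟨hparV, ⟨g, hg, hg0, hSM g (Finset.mem_insert_self g T), G,
      fun p hp => ⟨(hG p hp).1, hGV p hp⟩, ?_⟩,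
      fun t ht => hSM t (Finset.mem_insert_of_mem ht)⟩, ?_⟩
  · rw [hset, ← hB]
  · apply le_antisymm
    · exact dim_le_of_par hBV hnoe hparV
    · rw [dim_lv V B hBV]
      have h1 : (n : ℕ∞) ≤ (cen w B hBw).height := by
        have h2 := dim_lv w B hBw
        rw [← hO, hd] at h2
        exact_mod_cast h2.le
      exact_mod_cast hheight n h1

end Pool.Agent.TWT
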