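import Pool.Agent.Lib.TWM.Red

/-!
# TANK W, leaf (IV), row A1: finitely generated graded modules with property (P) are free

`G` is the value group, `G = ℤ g₀ + p G`, and all radii lie in `G[1/p]`.
`(P)`: `q^p - q = ∑_{0<l<p} M(l g₀) e_l^p` modulo `Z 0`, with `q` of radius `0` and `e_l` of radius
`-l g₀/p`, implies `q ∈ Z 0`.
-/

set_option autoImplicit false

open Polynomial Finset

namespace Pool.Agent.TWT

open Pool.Agent.H15JM (RVal)
open Pool.Agent.TWM

universe u

section factor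

variable {k : Type u} [Field k] {p : ℕ} [Fact p.Prime] [CharP k p]

theorem tw_X_sub_C_coeff_zero (a : k) (g : k[X]) :
    (tw p (X - C a) g).coeff 0 = -a * g.coeff 0 := by
  rw [tw_coeff, zero_add, Finset.sum_range_one, coeff_sub, coeff_X_zero, coeff_C_zero, zero_sub,
    Nat.sub_zero, pow_zero, pow_one]

theorem tw_X_sub_C_coeff_succ (a : k) (g : k[X]) (n : ℕ) :
    (tw p (X - C a) g).coeff (n + 1) = g.coeff n ^ p - a * g.coeff (n + 1) := by
  rw [tw_coeff]
  have h : ∀ i ∈ Finset.range (n + 1 + 1), i ∉ Finset.range 2 →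
      (X - C a : k[X]).coeff i * g.coeff (n + 1 - i) ^ p ^ i = 0 := by
    intro i _ hi
    have h2 : 2 ≤ i := by
      rw [Finset.mem_range] at hi
      omega
    rw [coeff_sub, coeff_X, coeff_C, if_neg (by omega), if_neg (by omega), sub_zero, zero_mul]
  rw [← Finset.sum_subset (Finset.range_subset_range.mpr (by omega)) h, Finset.sum_range_succ,
    Finset.sum_range_one, coeff_sub, coeff_sub, coeff_X_zero, coeff_C_zero, coeff_X_one, coeff_C,
    if_neg one_ne_zero, Nat.sub_zero, Nat.add_sub_cancel, pow_zero, pow_one, pow_one]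
  ring

/-- The coefficients of the quotient, as polynomials in the lowest one. -/
noncomputable def quo (P : k[X]) (p : ℕ) : ℕ → k[X]
  | 0 => X
  | n + 1 => -(C (P.coeff 0)⁻¹ * (X * (quo P p n ^ p - C (P.coeff (n + 1)))))

omit [CharP k p] in
theorem quo_natDegree {P : k[X]} (h0 : P.coeff 0 ≠ 0) (n : ℕ) : 0 < (quo P p n).natDegree := by
  have hp : 0 < p := (Fact.out : p.Prime).pos
  induction n with
  | zero => rw [quo, natDegree_X]; exact one_pos
  | succ n ih =>
    have h1 : (quo P p n ^ p - C (P.coeff (n + 1))).natDegree = p * (quo P p n).natDegree := by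
      rw [natDegree_sub_C, natDegree_pow]
    have h2 : quo P p n ^ p - C (P.coeff (n + 1)) ≠ 0 := by
      intro h
      rw [h, natDegree_zero] at h1
      have := Nat.mul_pos hp ih
      omega
    rw [quo, natDegree_neg, natDegree_C_mul (inv_ne_zero h0), natDegree_mul X_ne_zero h2,
      natDegree_X]
    omega

omit [Fact p.Prime] [CharP k p] in
theorem quo_eval_zero (P : k[X]) (n : ℕ) : (quo P p n).eval 0 = 0 := by
  cases n with
  | zero => rw [quo, eval_X]
  | succ n => rw [quo, eval_neg, eval_mul, eval_mul, eval_X, zero_mul, mul_zero, neg_zero]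

/-- A twisted polynomial with non zero constant term has a left factor `F - a`. -/
theorem exists_left_factor [IsAlgClosed k] {P : k[X]} (h0 : P.coeff 0 ≠ 0) {d : ℕ}
    (hd : P.natDegree = d + 1) : ∃ (a : k) (P' : k[X]), a ≠ 0 ∧ P'.coeff 0 ≠ 0 ∧
      P'.natDegree = d ∧ P = tw p (X - C a) P' := by
  have hp : 0 < p := (Fact.out : p.Prime).pos
  have hP0 : P ≠ 0 := by rintro rfl; exact h0 (coeff_zero 0)
  have hlc : P.coeff (d + 1) ≠ 0 := by
    rw [← hd]; exact leadingCoeff_ne_zero.mpr hP0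
  obtain ⟨t, ht⟩ := IsAlgClosed.exists_root (quo P p d ^ p - C (P.coeff (d + 1))) (by
    intro h
    have h1 := natDegree_eq_zero_iff_degree_le_zero.mpr h.le
    rw [natDegree_sub_C, natDegree_pow] at h1
    have := Nat.mul_pos hp (quo_natDegree (p := p) h0 d)
    omega)
  rw [IsRoot.def, eval_sub, eval_pow, eval_C, sub_eq_zero] at ht
  have ht0 : t ≠ 0 := by
    rintro rfl
    rw [quo_eval_zero, zero_pow hp.ne'] at ht
    exact hlc ht.symm
  set b : ℕ → k := fun n => (quo P p n).eval t with hb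
  have hb0 : b 0 = t := by simp only [hb]; rw [quo, eval_X]
  have hbs : ∀ n, b (n + 1) = -((P.coeff 0)⁻¹ * (t * (b n ^ p - P.coeff (n + 1)))) := by
    intro n
    simp only [hb]
    rw [quo, eval_neg, eval_mul, eval_C, eval_mul, eval_X, eval_sub, eval_pow, eval_C]
  have hbd : b d ≠ 0 := by
    intro h
    apply hlc
    rw [← ht]
    change b d ^ p = 0
    rw [h, zero_pow hp.ne']
  set P' : k[X] := ∑ j ∈ Finset.range (d + 1), C (b j) * X ^ j with hP'
  have hc : ∀ n, P'.coeff n = if n < d + 1 then b n else 0 := by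
    intro n
    rw [hP', finsetSum_coeff]
    simp only [coeff_C_mul_X_pow]
    rw [Finset.sum_ite_eq]
    simp only [Finset.mem_range]
  refine ⟨-(P.coeff 0) / t, P', div_ne_zero (neg_ne_zero.mpr h0) ht0, ?_, ?_, ?_⟩
  · rw [hc, if_pos (Nat.succ_pos d), hb0]; exact ht0
  · refine le_antisymm ?_ ?_
    · rw [natDegree_le_iff_coeff_eq_zero]
      intro N hN
      rw [hc, if_neg (by omega)]
    · refine le_natDegree_of_ne_zero ?_
      rw [hc, if_pos (Nat.lt_succ_self d)]
      exact hbd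
  · ext n
    cases n with
    | zero =>
      rw [tw_X_sub_C_coeff_zero, hc, if_pos (Nat.succ_pos d), hb0]
      field_simp
    | succ n =>
      rw [tw_X_sub_C_coeff_succ, hc, hc]
      rcases lt_trichotomy n d with h | h | h
      · rw [if_pos (by omega), if_pos (by omega), hbs]
        field_simp
        ring
      · rw [if_pos (by omega), if_neg (by omega), mul_zero, sub_zero, h]
        exact ht.symm
      · rw [if_neg (by omega), if_neg (by omega), mul_zero, sub_zero, zero_pow hp.ne']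
        exact coeff_eq_zero_of_natDegree_lt (by omega)

variable {G : AddSubgroup ℝ}

/-- Division of a monomial by `F - a`, down to the exponent `e`. -/
theorem exists_div_mono [IsAlgClosed k] (a : k) {s : ℝ} {e : ℕ} (he : (p : ℝ) ^ e * s ∈ G) {j : ℕ}
    (hj : e ≤ j) (b : k) : ∃ (D : k[X]) (c : k), IsOp p G s 0 D ∧
      (C b * X ^ j : k[X]) = tw p (X - C a) D + C c * X ^ e := by
  induction j, hj using Nat.le_induction generalizing b with
  | base => exact ⟨0, b, IsOp.zero, by rw [tw_zero_right, zero_add]⟩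
  | succ j hj ih =>
    obtain ⟨b', hb'⟩ := IsAlgClosed.exists_pow_nat_eq b (Fact.out : p.Prime).pos
    obtain ⟨D, c, hD, h⟩ := ih (a * b')
    have hG : (0 : ℝ) - (p : ℝ) ^ j * s ∈ G := by
      have h1 : (p : ℝ) ^ j * s = ((p ^ (j - e) : ℕ) : ℝ) * ((p : ℝ) ^ e * s) := by
        rw [← mul_assoc, Nat.cast_pow, ← pow_add, Nat.sub_add_cancel hj]
      rw [zero_sub, h1, ← nsmul_eq_mul]
      exact G.neg_mem (G.nsmul_mem he _)
    refine ⟨C b' * X ^ j + D, c, (IsOp.mono fun _ => hG).add hD, ?_⟩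
    rw [tw_add_right, add_assoc, ← h]
    ext n
    cases n with
    | zero =>
      rw [coeff_add, tw_X_sub_C_coeff_zero, coeff_C_mul_X_pow, coeff_C_mul_X_pow,
        coeff_C_mul_X_pow, if_neg (Nat.succ_ne_zero j).symm]
      split_ifs <;> ring
    | succ n =>
      rw [coeff_add, tw_X_sub_C_coeff_succ, coeff_C_mul_X_pow, coeff_C_mul_X_pow,
        coeff_C_mul_X_pow, coeff_C_mul_X_pow]
      by_cases h1 : n = j
      · rw [if_pos (by rw [h1]), if_pos h1, if_neg (by omega), if_neg (by omega), hb']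
        ring
      · rw [if_neg (by omega), if_neg h1, zero_pow (Fact.out : p.Prime).ne_zero]
        split_ifs <;> ring

/-- Division of an operator by `F - a`. -/
theorem exists_div [IsAlgClosed k] (a : k) {s : ℝ} {e : ℕ} (he : (p : ℝ) ^ e * s ∈ G)
    (hmin : ∀ j, (p : ℝ) ^ j * s ∈ G → e ≤ j) {Q : k[X]} (hQ : IsOp p G s 0 Q) :
    ∃ (D : k[X]) (c : k), IsOp p G s 0 D ∧ Q = tw p (X - C a) D + C c * X ^ e := by
  have h1 : ∀ j, ∃ (D : k[X]) (c : k), IsOp p G s 0 D ∧
      (C (Q.coeff j) * X ^ j : k[X]) = tw p (X - C a) D + C c * X ^ e := by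
    intro j
    by_cases hj : Q.coeff j = 0
    · refine ⟨0, 0, IsOp.zero, ?_⟩
      rw [hj, tw_zero_right, map_zero, zero_mul, zero_mul, zero_add]
    · refine exists_div_mono a he (hmin j ?_) _
      have h := G.neg_mem (hQ j hj)
      rwa [zero_sub, neg_neg] at h
  choose D c hD h using h1
  refine ⟨∑ j ∈ Q.support, D j, ∑ j ∈ Q.support, c j, IsOp.sum fun j _ => hD j, ?_⟩
  conv_lhs => rw [as_sum_support_C_mul_X_pow Q]
  rw [tw_sum_right, map_sum, Finset.sum_mul, ← Finset.sum_add_distrib]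
  exact Finset.sum_congr rfl fun j _ => h j

end factor

section main

variable {k Ω : Type u} [Field k] [Field Ω] [Algebra k Ω] {v : RVal Ω}
  {p : ℕ} {G : AddSubgroup ℝ} {M : ℝ → Ω} {Z L : ℝ → Ω → Prop} [Fact p.Prime] [CharP k p]
  [CharP Ω p]

theorem ev_X_sub_C (hM : MS v G M) (a : k) (q : Ω) :
    ev p M 0 0 (X - C a) q = q ^ p - algebraMap k Ω a * q := by
  have h1 : (X - C a : k[X]) = C 1 * X ^ 1 + C (-a) * X ^ 0 := by
    rw [map_one, one_mul, pow_one, pow_zero, mul_one, map_neg, sub_eq_add_neg]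
  rw [h1, ev_add, ev_mono, ev_mono, mul_zero, mul_zero, sub_zero, hM.zero, map_one, _root_.map_neg,
    pow_one, pow_zero, pow_one, one_mul, one_mul, mul_one, neg_mul, sub_eq_add_neg]

theorem isOp_X_sub_C (a : k) : IsOp p G 0 0 (X - C a : k[X]) := by
  intro j _
  rw [mul_zero, sub_zero]
  exact G.zero_mem

/-- A relation in which one coefficient is a non zero constant. -/
theorem inSpan_of_const (hM : MS v G M) (hZ : GSub k p G M Z) {ι : Type*} [DecidableEq ι]
    {r : ι → ℝ} {w : ι → Ω} {S : Finset ι} {R : ℝ} {Q : ι → k[X]}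
    (hQ : ∀ i ∈ S, IsOp p G (r i) R (Q i)) (hrel : Z R (∑ i ∈ S, ev p M (r i) R (Q i) (w i)))
    {i : ι} (hi : i ∈ S) {c : k} (hc0 : c ≠ 0) (hc : Q i = C c) :
    InSpan k p G M Z r w (S.erase i) (r i) (w i) := by
  have hG : R - r i ∈ G := by
    have h := hQ i hi 0 (by rw [hc, coeff_C_zero]; exact hc0)
    rwa [pow_zero, one_mul] at h
  have hopc : IsOp p G R (r i) (C c⁻¹ : k[X]) := by
    have h := IsOp.mono (p := p) (G := G) (s := R) (r := r i) (a := c⁻¹) (j := 0) (fun _ => by
      rw [pow_zero, one_mul]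
      have := G.neg_mem hG
      rwa [neg_sub] at this)
    rwa [pow_zero, mul_one] at h
  have h1 := hZ.ev hopc hrel
  rw [← Finset.add_sum_erase S _ hi, ev_add_right] at h1
  have h2 : ev p M R (r i) (C c⁻¹) (ev p M (r i) R (Q i) (w i)) = w i := by
    rw [← ev_tw hM (hQ i hi) hopc, hc]
    have h3 : tw p (C c⁻¹) (C c : k[X]) = 1 := by
      have h4 := tw_mono (p := p) c⁻¹ c 0 0
      rw [pow_zero, mul_one, mul_one, pow_zero, pow_one, inv_mul_cancel₀ hc0, map_one,
        mul_one] at h4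
      exact h4
    rw [h3, ev_one hM]
  rw [h2, ev_sum_right] at h1
  refine ⟨fun j => - tw p (C c⁻¹) (Q j), fun j hj =>
    ((hQ j (Finset.mem_of_mem_erase hj)).tw hopc).neg, ?_⟩
  have h5 : w i - ∑ j ∈ S.erase i, ev p M (r j) (r i) (-tw p (C c⁻¹) (Q j)) (w j) =
      w i + ∑ j ∈ S.erase i, ev p M R (r i) (C c⁻¹) (ev p M (r j) R (Q j) (w j)) := by
    rw [Finset.sum_congr rfl fun j hj => by
      rw [ev_neg, ev_tw hM (hQ j (Finset.mem_of_mem_erase hj)) hopc], Finset.sum_neg_distrib,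
      sub_neg_eq_add]
  rw [h5]
  exact h1

/-- The property (P). -/
def PropP (p : ℕ) (M : ℝ → Ω) (Z L : ℝ → Ω → Prop) (g₀ : ℝ) : Prop :=
  ∀ (q : Ω) (e : ℕ → Ω), L 0 q → (∀ l, 0 < l → l < p → L (-(l * g₀) / p) (e l)) →
    Z 0 (q ^ p - q - ∑ l ∈ Finset.Ico 1 p, M (l * g₀) * e l ^ p) → Z 0 q

/-- (P) for `F - a`, `a ≠ 0`. -/
theorem PropP.scale [IsAlgClosed k] (hM : MS v G M) (hZ : GSub k p G M Z) (hL : GSub k p G M L)
    {g₀ : ℝ} (hP : PropP p M Z L g₀) {a : k} (ha : a ≠ 0) {q : Ω} {e : ℕ → Ω} (hq : L 0 q)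
    (he : ∀ l, 0 < l → l < p → L (-(l * g₀) / p) (e l))
    (h : Z 0 (q ^ p - algebraMap k Ω a * q + ∑ l ∈ Finset.Ico 1 p, M (l * g₀) * e l ^ p)) :
    Z 0 q := by
  have hp1 : 0 < p - 1 := Nat.sub_pos_of_lt (Fact.out : p.Prime).one_lt
  obtain ⟨t, ht⟩ := IsAlgClosed.exists_pow_nat_eq a hp1
  have ht0 : t ≠ 0 := by
    rintro rfl
    rw [zero_pow hp1.ne'] at ht
    exact ha ht.symm
  have htp : t ^ p = a * t := by
    rw [← ht, ← pow_succ, Nat.sub_add_cancel (Fact.out : p.Prime).one_lt.le]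
  have hsc : ∀ (Y : ℝ → Ω → Prop), GSub k p G M Y → ∀ (c : k) (s : ℝ) (x : Ω), Y s x →
      Y s (algebraMap k Ω c * x) := by
    intro Y hY c s x hx
    have h1 := hY.op c s 0 0 x G.zero_mem hx
    rwa [pow_zero, one_mul, zero_add, pow_zero, pow_one, hM.zero, mul_one] at h1
  have h1 : Z 0 (algebraMap k Ω t⁻¹ * q) := by
    refine hP (algebraMap k Ω t⁻¹ * q) (fun l => algebraMap k Ω (-t⁻¹) * e l) (hsc L hL _ _ _ hq)
      (fun l hl hl' => hsc L hL _ _ _ (he l hl hl')) ?_
    have h2 := hsc Z hZ (t⁻¹ ^ p) 0 _ h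
    have h3 : algebraMap k Ω (t⁻¹ ^ p) *
        (q ^ p - algebraMap k Ω a * q + ∑ l ∈ Finset.Ico 1 p, M (l * g₀) * e l ^ p) =
        (algebraMap k Ω t⁻¹ * q) ^ p - algebraMap k Ω t⁻¹ * q -
          ∑ l ∈ Finset.Ico 1 p, M (l * g₀) * (algebraMap k Ω (-t⁻¹) * e l) ^ p := by
      have h4 : t⁻¹ ^ p * a = t⁻¹ := by
        rw [inv_pow, htp]
        field_simp
      have h5 : ∀ l ∈ Finset.Ico 1 p, M (l * g₀) * (algebraMap k Ω (-t⁻¹) * e l) ^ p =
          -(algebraMap k Ω (t⁻¹ ^ p) * (M (l * g₀) * e l ^ p)) := by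
        intro l _
        have h6 : (-t⁻¹ : k) ^ p = -(t⁻¹ ^ p) := by
          have h7 := neg_pow (t⁻¹ : k) p
          rw [h7, neg_one_pow_char k p]
          ring
        rw [mul_pow, ← _root_.map_pow, h6, _root_.map_neg]
        ring
      rw [Finset.sum_congr rfl h5, Finset.sum_neg_distrib, ← Finset.mul_sum, sub_neg_eq_add,
        mul_add, mul_sub, ← mul_assoc, ← _root_.map_mul, h4, mul_pow, ← _root_.map_pow]
    rw [h3] at h2
    exact h2
  have h2 := hsc Z hZ t 0 _ h1
  rwa [← mul_assoc, ← _root_.map_mul, mul_inv_cancel₀ ht0, _root_.map_one, one_mul] at h2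

theorem isOp_of_mem {s : ℝ} (hs : s ∈ G) (f : k[X]) : IsOp p G s 0 f := by
  intro j _
  have h1 : (p : ℝ) ^ j * s ∈ G := by
    have h2 : (p : ℝ) ^ j * s = (p ^ j : ℕ) • s := by rw [nsmul_eq_mul, Nat.cast_pow]
    rw [h2]
    exact G.nsmul_mem hs _
  rw [zero_sub]
  exact G.neg_mem h1

/-- The step of the elimination: a monomial operator from a radius outside `G` to the radius `0` is
a combination of the `M (l g₀) e_l^p`, `0 < l < p`. -/
theorem mono_class [IsAlgClosed k] (hM : MS v G M) (hL : GSub k p G M L) {g₀ : ℝ}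
    (hG : ∀ g ∈ G, ∃ l < p, ∃ g' ∈ G, g = l * g₀ + p * g') (hg₀ : g₀ ∈ G) {s : ℝ} {e : ℕ}
    (he : (p : ℝ) ^ e * s ∈ G) (hmin : ∀ j, (p : ℝ) ^ j * s ∈ G → e ≤ j) (hs : s ∉ G) (c : k)
    {x : Ω} (hx : L s x) : ∃ (l : ℕ) (y : Ω), 0 < l ∧ l < p ∧ L (-(l * g₀) / p) y ∧
      ev p M s 0 (C c * X ^ e) x = M (l * g₀) * y ^ p := by
  have hp0 : (p : ℝ) ≠ 0 := Nat.cast_ne_zero.mpr (Fact.out : p.Prime).ne_zero
  obtain ⟨e', rfl⟩ : ∃ e', e = e' + 1 := by
    refine ⟨e - 1, ?_⟩
    have h0 : e ≠ 0 := by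
      rintro rfl
      rw [pow_zero, one_mul] at he
      exact hs he
    omega
  obtain ⟨l, hl, g', hg', hgl⟩ := hG _ (G.neg_mem he)
  obtain ⟨γ, hγ⟩ := IsAlgClosed.exists_pow_nat_eq c (Fact.out : p.Prime).pos
  have hgg : g' = -(l * g₀) / p - (p : ℝ) ^ e' * s := by
    field_simp
    rw [pow_succ] at hgl
    linarith
  have hl0 : 0 < l := by
    rcases Nat.eq_zero_or_pos l with h0 | h0
    · exfalso
      rw [h0, Nat.cast_zero, zero_mul, neg_zero, zero_div, zero_sub] at hgg
      have h1 := G.neg_mem hg'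
      rw [hgg, neg_neg] at h1
      have := hmin e' h1
      omega
    · exact h0
  have hlg : (l : ℝ) * g₀ ∈ G := by
    rw [← nsmul_eq_mul]; exact G.nsmul_mem hg₀ _
  refine ⟨l, algebraMap k Ω γ * M g' * x ^ p ^ e', hl0, hl, ?_, ?_⟩
  · have h1 := hL.op γ s g' e' x hg' hx
    have h2 : g' + (p : ℝ) ^ e' * s = -(l * g₀) / p := by rw [hgg]; ring
    rwa [h2] at h1
  · rw [ev_mono, mul_pow, mul_pow, ← _root_.map_pow, hγ, ← pow_mul, ← pow_succ]
    have h1 : (0 : ℝ) - (p : ℝ) ^ (e' + 1) * s = l * g₀ + p * g' := by rw [zero_sub]; exact hgl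
    have h2 : M ((l : ℝ) * g₀ + p * g') = M (l * g₀) * M g' ^ p := by
      rw [hM.mul _ hlg _ (by rw [← nsmul_eq_mul]; exact G.nsmul_mem hg' _), hM.pow hg']
    rw [h1, h2]
    ring

/-- **Elimination.** A relation at the radius `0` with exactly one operator `P` from a radius in
`G`, with non zero constant term. -/
theorem elim [IsAlgClosed k] (hM : MS v G M) (hZ : GSub k p G M Z) (hL : GSub k p G M L)
    {g₀ : ℝ} (hg₀ : g₀ ∈ G) (hG : ∀ g ∈ G, ∃ l < p, ∃ g' ∈ G, g = l * g₀ + p * g')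
    (hP : PropP p M Z L g₀) {ι : Type*} [DecidableEq ι] {r : ι → ℝ} {w : ι → Ω} {S : Finset ι}
    (hr : ∀ i, ∃ n : ℕ, (p : ℝ) ^ n * r i ∈ G) (hw : ∀ i ∈ S, L (r i) (w i)) {i₀ : ι}
    (hi₀ : i₀ ∈ S) (hri₀ : r i₀ ∈ G) (d : ℕ) : ∀ (P : k[X]) (Q : ι → k[X]), P.natDegree = d →
      P.coeff 0 ≠ 0 → (∀ i ∈ S.erase i₀, IsOp p G (r i) 0 (Q i)) →
      (∀ i ∈ S.erase i₀, Q i ≠ 0 → r i ∉ G) →
      Z 0 (ev p M (r i₀) 0 P (w i₀) + ∑ i ∈ S.erase i₀, ev p M (r i) 0 (Q i) (w i)) →
      InSpan k p G M Z r w (S.erase i₀) (r i₀) (w i₀) := by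
  classical
  induction d with
  | zero =>
    intro P Q hd h0 hQ _ hrel
    have hPc : P = C (P.coeff 0) := eq_C_of_natDegree_eq_zero hd
    refine inSpan_of_const (R := 0) (Q := Function.update Q i₀ P) hM hZ ?_ ?_ hi₀ h0 ?_
    · intro i hi
      by_cases h : i = i₀
      · rw [h, Function.update_self]
        exact isOp_of_mem hri₀ P
      · rw [Function.update_of_ne h]
        exact hQ i (Finset.mem_erase.mpr ⟨h, hi⟩)
    · rw [← Finset.add_sum_erase S _ hi₀, Function.update_self]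
      have h1 : ∑ i ∈ S.erase i₀, ev p M (r i) 0 (Function.update Q i₀ P i) (w i) =
          ∑ i ∈ S.erase i₀, ev p M (r i) 0 (Q i) (w i) := by
        refine Finset.sum_congr rfl fun i hi => ?_
        rw [Function.update_of_ne (Finset.ne_of_mem_erase hi)]
      rw [h1]
      exact hrel
    · rw [Function.update_self]
      exact hPc
  | succ d ih =>
    intro P Q hd h0 hQ hQG hrel
    obtain ⟨a, P', ha, h0', hd', hPP⟩ := exists_left_factor (p := p) h0 hd
    -- the least exponents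
    have hex : ∀ i, ∃ e : ℕ, (p : ℝ) ^ e * r i ∈ G ∧ ∀ j : ℕ, (p : ℝ) ^ j * r i ∈ G → e ≤ j :=
      fun i => ⟨Nat.find (hr i), Nat.find_spec (hr i), fun j hj => Nat.find_min' (hr i) hj⟩
    choose e he hmin using hex
    have hdiv : ∀ i, ∃ (D : k[X]) (c : k) (l : ℕ) (y : Ω), i ∈ S.erase i₀ →
        IsOp p G (r i) 0 D ∧ (D ≠ 0 → r i ∉ G) ∧ 0 < l ∧ l < p ∧ L (-(l * g₀) / p) y ∧
        ev p M (r i) 0 (Q i) (w i) = ev p M 0 0 (X - C a) (ev p M (r i) 0 D (w i)) +
          M (l * g₀) * y ^ p := by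
      intro i
      by_cases hi : i ∈ S.erase i₀
      · by_cases hQi : Q i = 0
        · refine ⟨0, 0, 1, 0, fun _ => ⟨IsOp.zero, fun h => absurd rfl h, one_pos,
            (Fact.out : p.Prime).one_lt, hL.zero _, ?_⟩⟩
          rw [hQi, ev_zero, ev_zero_right, zero_pow (Fact.out : p.Prime).ne_zero, mul_zero,
            add_zero]
        · have hs := hQG i hi hQi
          obtain ⟨D, c, hD, hQD⟩ := exists_div (p := p) (G := G) a (he i) (hmin i) (hQ i hi)
          obtain ⟨l, y, hl0, hl, hy, hev⟩ := mono_class hM hL hG hg₀ (he i) (hmin i) hs c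
            (hw i (Finset.mem_of_mem_erase hi))
          refine ⟨D, c, l, y, fun _ => ⟨hD, fun _ => hs, hl0, hl, hy, ?_⟩⟩
          rw [← hev, ← ev_tw hM hD (isOp_X_sub_C a), ← ev_add]
          exact congrArg (fun f => ev p M (r i) 0 f (w i)) hQD
      · exact ⟨0, 0, 0, 0, fun h => absurd h hi⟩
    choose D c l y hD using hdiv
    set T := S.erase i₀ with hT
    set q : Ω := ev p M (r i₀) 0 P' (w i₀) + ∑ i ∈ T, ev p M (r i) 0 (D i) (w i) with hq
    have hLq : L 0 q := by
      refine hL.add _ _ _ (hL.ev (isOp_of_mem hri₀ P') (hw i₀ hi₀)) (hL.sum fun i hi => ?_)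
      exact hL.ev (hD i hi).1 (hw i (Finset.mem_of_mem_erase hi))
    set E : ℕ → Ω := fun m => ∑ i ∈ T.filter (fun i => l i = m), y i with hE
    have hLE : ∀ m, 0 < m → m < p → L (-(m * g₀) / p) (E m) := by
      intro m _ _
      refine hL.sum fun i hi => ?_
      rw [Finset.mem_filter] at hi
      have h1 := (hD i hi.1).2.2.2.2.1
      rwa [hi.2] at h1
    have hsum : ∑ m ∈ Finset.Ico 1 p, M (m * g₀) * E m ^ p = ∑ i ∈ T, M (l i * g₀) * y i ^ p := by
      have h1 : ∀ m ∈ Finset.Ico 1 p, M (m * g₀) * E m ^ p =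
          ∑ i ∈ T.filter (fun i => l i = m), M (l i * g₀) * y i ^ p := by
        intro m _
        rw [hE]
        simp only
        rw [sum_pow_char p, Finset.mul_sum]
        refine Finset.sum_congr rfl fun i hi => ?_
        rw [(Finset.mem_filter.mp hi).2]
      rw [Finset.sum_congr rfl h1]
      refine Finset.sum_fiberwise_of_maps_to (fun i hi => ?_) _
      rw [Finset.mem_Ico]
      exact ⟨(hD i hi).2.2.1, (hD i hi).2.2.2.1⟩
    have hZq : Z 0 q := by
      refine PropP.scale hM hZ hL hP ha hLq hLE ?_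
      have h1 : ev p M (r i₀) 0 P (w i₀) + ∑ i ∈ T, ev p M (r i) 0 (Q i) (w i) =
          q ^ p - algebraMap k Ω a * q + ∑ m ∈ Finset.Ico 1 p, M (m * g₀) * E m ^ p := by
        rw [hsum, ← ev_X_sub_C hM, hq, ev_add_right, ev_sum_right, hPP,
          ev_tw hM (isOp_of_mem hri₀ P') (isOp_X_sub_C a), add_assoc, ← Finset.sum_add_distrib]
        congr 1
        exact Finset.sum_congr rfl fun i hi => (hD i hi).2.2.2.2.2
      rw [← h1]
      exact hrel
    exact ih P' D hd' h0' (fun i hi => (hD i hi).1) (fun i hi h => (hD i hi).2.1 h) hZq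

/-- No relation, by induction on the degree of its operators. -/
theorem no_rel [IsAlgClosed k] (hM : MS v G M) (hZ : GSub k p G M Z) (hL : GSub k p G M L)
    {g₀ : ℝ} (hg₀ : g₀ ∈ G) (hG : ∀ g ∈ G, ∃ l < p, ∃ g' ∈ G, g = l * g₀ + p * g')
    (hdiv : ∀ (R : ℝ) (y : ℕ → Ω), (∀ l < p, L ((R - l * g₀) / p) (y l)) →
      Z R (∑ l ∈ Finset.range p, M (l * g₀) * y l ^ p) → ∀ l < p, Z ((R - l * g₀) / p) (y l))
    (hP : PropP p M Z L g₀) {ι : Type*} [DecidableEq ι] {r : ι → ℝ} {w : ι → Ω} {S : Finset ι}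
    (hr : ∀ i, ∃ n : ℕ, (p : ℝ) ^ n * r i ∈ G) (hw : ∀ i ∈ S, L (r i) (w i))
    (hmin : ∀ i ∈ S, ¬ InSpan k p G M Z r w (S.erase i) (r i) (w i)) (D : ℕ) :
    ∀ (R : ℝ) (Q : ι → k[X]), (∀ i ∈ S, IsOp p G (r i) R (Q i)) →
      (∀ i ∈ S, (Q i).natDegree < D) → Z R (∑ i ∈ S, ev p M (r i) R (Q i) (w i)) →
      (∀ i ∈ S, ∀ j ∈ S, r i ∈ G → r j ∈ G → Q i ≠ 0 → Q j ≠ 0 → i = j) →
      ∀ i ∈ S, Q i = 0 := by
  classical
  have hp0 : (p : ℝ) ≠ 0 := Nat.cast_ne_zero.mpr (Fact.out : p.Prime).ne_zero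
  induction D with
  | zero => intro R Q _ hD _ _ i hi; exact absurd (hD i hi) (Nat.not_lt_zero _)
  | succ D ih =>
    intro R Q hQ hD hrel huniq
    by_cases hconst : ∃ i ∈ S, (Q i).coeff 0 ≠ 0
    · -- a constant term
      exfalso
      obtain ⟨i, hi, hi0⟩ := hconst
      have hRi : R - r i ∈ G := by
        have h := hQ i hi 0 hi0
        rwa [pow_zero, one_mul] at h
      by_cases hri : r i ∈ G
      · have hR : R ∈ G := by
          have h := G.add_mem hRi hri
          rwa [sub_add_cancel] at h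
        -- shift to the radius `0`
        have hQ0 : ∀ j ∈ S, IsOp p G (r j) 0 (Q j) := by
          intro j hj m hm
          have h := G.sub_mem (hQ j hj m hm) hR
          rwa [sub_sub_cancel_left, ← zero_sub] at h
        have hev : ∀ j ∈ S, ev p M (r j) 0 (Q j) (w j) =
            M (-R) * ev p M (r j) R (Q j) (w j) := by
          intro j hj
          rw [ev, ev, Polynomial.sum, Polynomial.sum, Finset.mul_sum]
          refine Finset.sum_congr rfl fun m hm => ?_
          have h1 := hM.mul (-R) (G.neg_mem hR) (R - (p : ℝ) ^ m * r j)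
            (hQ j hj m (mem_support_iff.mp hm))
          have h2 : -R + (R - (p : ℝ) ^ m * r j) = 0 - (p : ℝ) ^ m * r j := by ring
          rw [← h2, h1]
          ring
        have hrel0 : Z 0 (∑ j ∈ S, ev p M (r j) 0 (Q j) (w j)) := by
          have h1 := hZ.op 1 R (-R) 0 _ (G.neg_mem hR) hrel
          rw [pow_zero, one_mul, neg_add_cancel, pow_zero, pow_one, _root_.map_one, one_mul,
            Finset.mul_sum] at h1
          rwa [Finset.sum_congr rfl fun j hj => hev j hj]
        rw [← Finset.add_sum_erase S _ hi] at hrel0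
        refine hmin i hi (elim hM hZ hL hg₀ hG hP hr hw hi hri _ (Q i) Q rfl hi0
          (fun j hj => hQ0 j (Finset.mem_of_mem_erase hj)) (fun j hj hQj hrj => ?_) hrel0)
        exact Finset.ne_of_mem_erase hj (huniq j (Finset.mem_of_mem_erase hj) i hi hrj hri hQj
          (fun h => hi0 (by rw [h, coeff_zero])))
      · -- the operator is constant
        have hc : Q i = C ((Q i).coeff 0) := by
          ext m
          rw [coeff_C]
          split_ifs with hm
          · rw [hm]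
          · by_contra hm0
            apply hri
            have h1 := hQ i hi m hm0
            have h2 : (p : ℝ) ^ m * r i - r i ∈ G := by
              have h := G.sub_mem hRi h1
              rwa [sub_sub_sub_cancel_left] at h
            obtain ⟨n, hn⟩ := hr i
            -- `p^n` and `p^m - 1` are coprime
            have hcop : IsCoprime ((p : ℤ) ^ n) ((p : ℤ) ^ m - 1) := by
              have h3 : IsCoprime (p : ℤ) ((p : ℤ) ^ m - 1) := by
                refine ⟨(p : ℤ) ^ (m - 1), -1, ?_⟩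
                rw [← pow_succ, Nat.sub_add_cancel (Nat.pos_of_ne_zero hm)]
                ring
              exact h3.pow_left
            obtain ⟨a, b, hab⟩ := hcop
            have h4 : r i = a • ((p : ℝ) ^ n * r i) + b • ((p : ℝ) ^ m * r i - r i) := by
              rw [zsmul_eq_mul, zsmul_eq_mul]
              have h5 : ((a * (p : ℤ) ^ n + b * ((p : ℤ) ^ m - 1) : ℤ) : ℝ) = 1 := by
                rw [hab, Int.cast_one]
              push_cast at h5
              linear_combination (-(r i)) * h5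
            rw [h4]
            exact G.add_mem (G.zsmul_mem hn _) (G.zsmul_mem h2 _)
        exact hmin i hi (inSpan_of_const hM hZ hQ hrel hi hi0 hc)
    · -- divide by `F`
      push Not at hconst
      rcases Nat.eq_zero_or_pos D with hD0 | hDpos
      · intro i hi
        ext m
        rw [coeff_zero]
        by_cases hm : m = 0
        · rw [hm]; exact hconst i hi
        · refine coeff_eq_zero_of_natDegree_lt ?_
          have := hD i hi
          omega
      choose! lf hlf gf hgf hgeq using hG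
      choose ρ hρ using fun c : k => IsAlgClosed.exists_pow_nat_eq c (Fact.out : p.Prime).pos
      set g : ι → ℕ → ℝ := fun i j => R - (p : ℝ) ^ (j + 1) * r i with hg
      have hgG : ∀ i ∈ S, ∀ j, (Q i).coeff (j + 1) ≠ 0 → g i j ∈ G :=
        fun i hi j hj => hQ i hi (j + 1) hj
      set Q' : ℕ → ι → k[X] := fun l i => ∑ j ∈ (Finset.range D).filter
        (fun j => (Q i).coeff (j + 1) ≠ 0 ∧ lf (g i j) = l), C (ρ ((Q i).coeff (j + 1))) * X ^ j
        with hQ'
      have hgf2 : ∀ (l : ℕ), ∀ i ∈ S, ∀ j, (Q i).coeff (j + 1) ≠ 0 → lf (g i j) = l →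
          (R - l * g₀) / p - (p : ℝ) ^ j * r i = gf (g i j) := by
        intro l i hi j hj0 hjl
        have h1 : R - (p : ℝ) ^ (j + 1) * r i = lf (g i j) * g₀ + p * gf (g i j) :=
          hgeq _ (hgG i hi j hj0)
        rw [hjl] at h1
        generalize gf (g i j) = x at h1 ⊢
        rw [pow_succ] at h1
        field_simp
        linarith
      have hQ'op : ∀ (l : ℕ), ∀ i ∈ S, IsOp p G (r i) ((R - l * g₀) / p) (Q' l i) := by
        intro l i hi
        refine IsOp.sum fun j hj => IsOp.mono fun _ => ?_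
        obtain ⟨-, hj0, hjl⟩ := Finset.mem_filter.mp hj
        rw [hgf2 l i hi j hj0 hjl]
        exact hgf _ (hgG i hi j hj0)
      have hy : ∀ l : ℕ, L ((R - l * g₀) / p) (∑ i ∈ S, ev p M (r i) ((R - l * g₀) / p) (Q' l i) (w i)) :=
        fun l => hL.sum fun i hi => hL.ev (hQ'op l i hi) (hw i hi)
      have hlg : ∀ l : ℕ, (l : ℝ) * g₀ ∈ G := fun l => by
        rw [← nsmul_eq_mul]; exact G.nsmul_mem hg₀ _
      -- the terms
      have hterm : ∀ l : ℕ, ∀ i ∈ S, M (l * g₀) * (ev p M (r i) ((R - l * g₀) / p) (Q' l i) (w i)) ^ p =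
          ∑ j ∈ (Finset.range D).filter (fun j => (Q i).coeff (j + 1) ≠ 0 ∧ lf (g i j) = l),
            algebraMap k Ω ((Q i).coeff (j + 1)) * M (g i j) * w i ^ p ^ (j + 1) := by
        intro l i hi
        rw [hQ']
        simp only
        rw [ev_sum, sum_pow_char p, Finset.mul_sum]
        refine Finset.sum_congr rfl fun j hj => ?_
        obtain ⟨-, hj0, hjl⟩ := Finset.mem_filter.mp hj
        have h1 := hgeq _ (hgG i hi j hj0)
        have h2 := hgf2 l i hi j hj0 hjl
        have h3 : M (g i j) = M (l * g₀) * M (gf (g i j)) ^ p := by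
          conv_lhs => rw [h1, hjl]
          rw [hM.mul _ (hlg l) _ (by
            rw [← nsmul_eq_mul]; exact G.nsmul_mem (hgf _ (hgG i hi j hj0)) _),
            hM.pow (hgf _ (hgG i hi j hj0))]
        rw [ev_mono, h2, mul_pow, mul_pow, ← _root_.map_pow, hρ, h3, ← pow_mul, ← pow_succ]
        ring
      have hsum : ∑ l ∈ Finset.range p, M (l * g₀) *
          (∑ i ∈ S, ev p M (r i) ((R - l * g₀) / p) (Q' l i) (w i)) ^ p =
          ∑ i ∈ S, ev p M (r i) R (Q i) (w i) := by
        have h1 : ∀ l ∈ Finset.range p, M (l * g₀) *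
            (∑ i ∈ S, ev p M (r i) ((R - l * g₀) / p) (Q' l i) (w i)) ^ p =
            ∑ i ∈ S, M (l * g₀) * (ev p M (r i) ((R - l * g₀) / p) (Q' l i) (w i)) ^ p := by
          intro l _
          rw [sum_pow_char p, Finset.mul_sum]
        rw [Finset.sum_congr rfl h1, Finset.sum_comm]
        refine Finset.sum_congr rfl fun i hi => ?_
        rw [Finset.sum_congr rfl fun l _ => hterm l i hi]
        have h2 : ev p M (r i) R (Q i) (w i) = ∑ j ∈ (Finset.range D).filter
            (fun j => (Q i).coeff (j + 1) ≠ 0),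
            algebraMap k Ω ((Q i).coeff (j + 1)) * M (g i j) * w i ^ p ^ (j + 1) := by
          have h5 := Polynomial.sum_over_range' (Q i)
            (f := fun j a => algebraMap k Ω a * M (R - (p : ℝ) ^ j * r i) * w i ^ p ^ j)
            (fun j => by rw [_root_.map_zero, zero_mul, zero_mul]) (D + 1) (hD i hi)
          rw [ev, h5]
          rw [Finset.sum_range_succ', hconst i hi, _root_.map_zero, zero_mul, zero_mul, add_zero,
            Finset.sum_filter_of_ne]
          intro j _ hj hj0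
          apply hj
          rw [hj0, _root_.map_zero, zero_mul, zero_mul]
        rw [h2]
        have h3 : ∀ l, (Finset.range D).filter (fun j => (Q i).coeff (j + 1) ≠ 0 ∧
            lf (g i j) = l) = ((Finset.range D).filter (fun j => (Q i).coeff (j + 1) ≠ 0)).filter
            (fun j => lf (g i j) = l) := by
          intro l
          rw [Finset.filter_filter]
        rw [Finset.sum_congr rfl fun l _ => by rw [h3 l]]
        refine Finset.sum_fiberwise_of_maps_to (fun j hj => ?_) _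
        rw [Finset.mem_range]
        exact hlf _ (hgG i hi j (Finset.mem_filter.mp hj).2)
      have hZl := hdiv R (fun l => ∑ i ∈ S, ev p M (r i) ((R - l * g₀) / p) (Q' l i) (w i))
        (fun l _ => hy l) (by rw [hsum]; exact hrel)
      -- the coefficients of `Q' l i`
      have hcoef : ∀ l i m, (Q' l i).coeff m = if m < D ∧ (Q i).coeff (m + 1) ≠ 0 ∧
          lf (g i m) = l then ρ ((Q i).coeff (m + 1)) else 0 := by
        intro l i m
        rw [hQ']
        simp only
        rw [finsetSum_coeff]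
        simp only [coeff_C_mul_X_pow]
        rw [Finset.sum_ite_eq]
        simp only [Finset.mem_filter, Finset.mem_range]
      have hQ0 : ∀ l < p, ∀ i ∈ S, Q' l i = 0 := by
        intro l hl
        refine ih ((R - l * g₀) / p) (Q' l) (hQ'op l) (fun i hi => ?_) (hZl l hl) ?_
        · have h1 : (Q' l i).natDegree ≤ D - 1 := by
            rw [natDegree_le_iff_coeff_eq_zero]
            intro N hN
            rw [hcoef, if_neg (by omega)]
          omega
        · intro i hi j hj hri hrj hQi hQj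
          refine huniq i hi j hj hri hrj (fun h => hQi ?_) (fun h => hQj ?_)
          · ext m
            rw [hcoef, if_neg (fun h' => h'.2.1 (by rw [h, coeff_zero])), coeff_zero]
          · ext m
            rw [hcoef, if_neg (fun h' => h'.2.1 (by rw [h, coeff_zero])), coeff_zero]
      intro i hi
      ext m
      rw [coeff_zero]
      cases m with
      | zero => exact hconst i hi
      | succ m =>
        by_contra hm
        have hmD : m < D := by
          have h1 := le_natDegree_of_ne_zero hm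
          have h2 := hD i hi
          omega
        have h1 := hQ0 (lf (g i m)) (hlf _ (hgG i hi m hm)) i hi
        have h2 : (Q' (lf (g i m)) i).coeff m = 0 := by rw [h1, coeff_zero]
        rw [hcoef, if_pos ⟨hmD, hm, rfl⟩] at h2
        apply hm
        rw [← hρ ((Q i).coeff (m + 1)), h2, zero_pow (Fact.out : p.Prime).ne_zero]

/-- **A1.** A finite family in `L` has the same span modulo `Z` as a free family. -/
theorem exists_free_of_P [IsAlgClosed k] (hM : MS v G M) (hZ : GSub k p G M Z)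
    (hL : GSub k p G M L) (hZL : ∀ r a, Z r a → L r a) {g₀ : ℝ} (hg₀ : g₀ ∈ G)
    (hG : ∀ g ∈ G, ∃ l < p, ∃ g' ∈ G, g = l * g₀ + p * g')
    (hdiv : ∀ (R : ℝ) (y : ℕ → Ω), (∀ l < p, L ((R - l * g₀) / p) (y l)) →
      Z R (∑ l ∈ Finset.range p, M (l * g₀) * y l ^ p) → ∀ l < p, Z ((R - l * g₀) / p) (y l))
    (hP : PropP p M Z L g₀) {ι : Type*} [Fintype ι] [DecidableEq ι] (r : ι → ℝ) (w₀ : ι → Ω)
    (hr : ∀ i, ∃ n : ℕ, (p : ℝ) ^ n * r i ∈ G) (hw₀ : ∀ i, L (r i) (w₀ i)) :
    ∃ (S : Finset ι) (w : ι → Ω), (∀ i ∈ S, L (r i) (w i)) ∧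
      (∀ i, InSpan k p G M Z r w S (r i) (w₀ i)) ∧
      (∀ i ∈ S, InSpan k p G M Z r w₀ Finset.univ (r i) (w i)) ∧
      (∀ i ∈ S, ¬ InSpan k p G M Z r w (S.erase i) (r i) (w i)) ∧
      FreeOn k p G M Z r w S := by
  obtain ⟨S, w, h1, h2, h3, h4, h5⟩ := exists_reduced hM hZ hL hZL r w₀ hw₀
  refine ⟨S, w, h1, h2, h3, h4, ?_⟩
  rcases h5 with h5 | ⟨R, Q, hQ, ⟨i, hi, hQi⟩, hrel, -, hd⟩
  · exact h5
  · exfalso
    refine hQi (no_rel hM hZ hL hg₀ hG hdiv hP hr h1 h4 (∑ i ∈ S, ((Q i).natDegree + 1)) R Q hQ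
      (fun j hj => ?_) hrel ?_ i hi)
    · have h6 := Finset.single_le_sum (f := fun i => (Q i).natDegree + 1)
        (fun _ _ => Nat.zero_le _) hj
      omega
    · intro a ha b hb hra hrb hQa hQb
      by_contra hab
      have key : ∀ x ∈ S, ∀ y ∈ S, x ≠ y → r x ∈ G → r y ∈ G → Q x ≠ 0 → Q y ≠ 0 →
          ¬ (Q y).natDegree ≤ (Q x).natDegree := by
        intro x hx y hy hxy hrx hry hQx hQy hle
        refine hd x hx y hy hxy hQx hQy hle (G.sub_mem hry ?_)
        have h7 : (p : ℝ) ^ ((Q x).natDegree - (Q y).natDegree) * r x =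
            (p ^ ((Q x).natDegree - (Q y).natDegree) : ℕ) • r x := by
          rw [nsmul_eq_mul, Nat.cast_pow]
        rw [h7]
        exact G.nsmul_mem hrx _
      rcases le_total (Q b).natDegree (Q a).natDegree with h | h
      · exact key a ha b hb hab hra hrb hQa hQb h
      · exact key b hb a ha (Ne.symm hab) hrb hra hQb hQa h

end main

end Pool.Agent.TWT
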