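import Pool.Agent.Lib.LU2G.SmoothB

/-!
# TWT, SP1: regular parameters at the points near a regular point of a subvariety

`B` is an algebra of finite type over a perfect field, `P` a prime ideal. Outside of a proper closed
subset of `V(P)`, the ring `B / P` is regular: the maximal ideal of the local ring of `B` at
`Q ⊇ P` is generated by `P` and by `m` elements, and the height of `Q` is at least `m` more than
the one of `P`.
-/

set_option autoImplicit false

namespace Pool.Agent.TWT

open IsLocalRing

theorem regular_of_smoothAt (k T : Type*) [Field k] [CommRing T] [Algebra k T]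
    [Algebra.FinitePresentation k T] (P : Ideal T) [P.IsPrime] [Algebra.IsSmoothAt k P] :
    IsRegularLocalRing (Localization.AtPrime P) := by
  obtain ⟨f, hf, hsm⟩ := Algebra.IsSmoothAt.exists_notMem_isStandardSmooth k P
  have hdisj : Disjoint (Submonoid.powers f : Set T) (P : Set T) := by
    rwa [Ideal.disjoint_powers_iff_notMem_of_isPrime]
  have hprime : (P.map (algebraMap T (Localization.Away f))).IsPrime :=
    IsLocalization.isPrime_of_isPrime_disjoint (.powers f) _ _ ‹_› hdisj
  have hcomap : (P.map (algebraMap T (Localization.Away f))).comap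
      (algebraMap T (Localization.Away f)) = P :=
    IsLocalization.comap_map_of_isPrime_disjoint (.powers f) _ ‹_› hdisj
  have hstd : (algebraMap k (Localization.Away f)).IsStandardSmooth := by
    rwa [RingHom.isStandardSmooth_algebraMap]
  obtain ⟨n, g, hg1, hg2⟩ := RingHom.IsStandardSmooth.exists_etale_mvPolynomial hstd
  letI := g.toAlgebra
  have : Algebra.Etale (MvPolynomial (Fin n) k) (Localization.Away f) := hg2
  have hreg := Pool.Agent.LU2G.regular_of_etale (MvPolynomial (Fin n) k) (Localization.Away f)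
    (P.map (algebraMap T (Localization.Away f)))
  have hreg' := IsRegularLocalRing.of_ringEquiv
    (IsLocalization.localizationLocalizationAtPrimeIsoLocalization (.powers f)
      (P.map (algebraMap T (Localization.Away f)))).symm.toRingEquiv
  have key : ∀ (P' : Ideal T) [P'.IsPrime], P' = P → IsRegularLocalRing (Localization.AtPrime P') →
      IsRegularLocalRing (Localization.AtPrime P) := by
    intro P' _ h h'
    subst h
    exact h'
  exact key _ hcomap hreg'

/-- Generic regularity over a perfect field. -/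
theorem exists_regular (k C : Type*) [Field k] [PerfectField k] [CommRing C] [IsDomain C]
    [Algebra k C] [Algebra.FiniteType k C] :
    ∃ f : C, f ≠ 0 ∧ ∀ (Q : Ideal C) [Q.IsPrime], f ∉ Q →
      IsRegularLocalRing (Localization.AtPrime Q) := by
  have hfp : Algebra.FinitePresentation k C := (Algebra.FinitePresentation.of_finiteType).1 ‹_›
  have hbot : (⊥ : Ideal C).IsPrime := Ideal.isPrime_bot
  have hM : (⊥ : Ideal C).primeCompl = nonZeroDivisors C := by
    ext x
    rw [mem_nonZeroDivisors_iff_ne_zero]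
    exact Iff.rfl
  have hloc : IsLocalization (⊥ : Ideal C).primeCompl (FractionRing C) := by
    rw [hM]
    infer_instance
  have hess : Algebra.EssFiniteType k (FractionRing C) :=
    have : Algebra.EssFiniteType C (FractionRing C) :=
      Algebra.EssFiniteType.of_isLocalization _ (nonZeroDivisors C)
    Algebra.EssFiniteType.comp k C (FractionRing C)
  have hsm0 : Algebra.FormallySmooth k (FractionRing C) := inferInstance
  have hsm1 : Algebra.IsSmoothAt k (⊥ : Ideal C) := by
    let e : FractionRing C ≃ₐ[C] Localization.AtPrime (⊥ : Ideal C) :=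
      IsLocalization.algEquiv (⊥ : Ideal C).primeCompl _ _
    exact Algebra.FormallySmooth.of_equiv (e.restrictScalars k)
  obtain ⟨f, hf, hsm⟩ := Algebra.IsSmoothAt.exists_notMem_smooth k (⊥ : Ideal C)
  refine ⟨f, fun h => hf (by rw [h]; exact Ideal.zero_mem _), fun Q _ hQ => ?_⟩
  have h1 := (Algebra.basicOpen_subset_smoothLocus_iff_smooth (R := k) (A := C)).2 hsm
  have h2 : (⟨Q, inferInstance⟩ : PrimeSpectrum C) ∈ Algebra.smoothLocus k C := h1 hQ
  have h3 : Algebra.IsSmoothAt k Q := h2
  exact regular_of_smoothAt k C Q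

/-- The heights of `P` and of `Q / P` add up to at most the height of `Q`. -/
theorem le_height {B : Type*} [CommRing B] (P : Ideal B) [P.IsPrime] {n : ℕ}
    (hn : (n : ℕ∞) ≤ P.height) (m : ℕ) : ∀ (Q' : Ideal (B ⧸ P)) [Q'.IsPrime],
      (m : ℕ∞) ≤ Q'.height →
      ((n + m : ℕ) : ℕ∞) ≤ (Q'.comap (Ideal.Quotient.mk P)).height := by
  have key : ∀ (m : ℕ) (q : LTSeries (PrimeSpectrum (B ⧸ P))), q.length = m →
      ((n + m : ℕ) : ℕ∞) ≤ Order.height
        (PrimeSpectrum.comap (Ideal.Quotient.mk P) q.last) := by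
    intro m
    induction m with
    | zero =>
      intro q hq
      rw [PrimeSpectrum.height_eq_orderHeight ⟨P, inferInstance⟩] at hn
      rw [add_zero]
      refine hn.trans (Order.height_mono ?_)
      change P ≤ (q.last.asIdeal).comap (Ideal.Quotient.mk P)
      intro x hx
      rw [Ideal.mem_comap, Ideal.Quotient.eq_zero_iff_mem.2 hx]
      exact Ideal.zero_mem _
    | succ m ih =>
      intro q hq
      have h1 := ih q.eraseLast (by rw [RelSeries.eraseLast_length, hq]; rfl)
      have hlt : q.eraseLast.last < q.last := by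
        exact q.eraseLast_last_rel_last (by rw [hq]; exact Nat.succ_ne_zero m)
      have hlt' : PrimeSpectrum.comap (Ideal.Quotient.mk P) q.eraseLast.last <
          PrimeSpectrum.comap (Ideal.Quotient.mk P) q.last := by
        refine lt_of_le_of_ne (Ideal.comap_mono hlt.le) fun h => hlt.ne ?_
        exact PrimeSpectrum.comap_injective_of_surjective _ Ideal.Quotient.mk_surjective h
      have h2 := Order.height_add_one_le hlt'
      refine le_trans ?_ h2
      have : ((n + (m + 1) : ℕ) : ℕ∞) = ((n + m : ℕ) : ℕ∞) + 1 := by push_cast; ring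
      rw [this]
      exact add_le_add_left h1 1
  intro Q' _ hm
  rw [PrimeSpectrum.height_eq_orderHeight ⟨Q', inferInstance⟩] at hm
  obtain ⟨q, hq, hqm⟩ := Order.exists_series_of_le_height _ hm
  have h1 := key m q hqm
  rw [hq] at h1
  have h2 := PrimeSpectrum.height_eq_orderHeight
    (PrimeSpectrum.comap (Ideal.Quotient.mk P) (⟨Q', inferInstance⟩ : PrimeSpectrum (B ⧸ P)))
  rw [← h2] at h1
  exact h1

/-- Regular parameters near a general point of `V(P)`. -/
theorem exists_params (k B : Type*) [Field k] [PerfectField k] [CommRing B] [Algebra k B]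
    [Algebra.FiniteType k B] (P : Ideal B) [P.IsPrime] :
    ∃ f ∉ P, ∀ (Q : Ideal B) [Q.IsPrime], P ≤ Q → f ∉ Q →
      ∃ (m : ℕ) (u : Fin m → B), (∀ i, u i ∈ Q) ∧ (∀ i, u i ∉ P) ∧
        (∀ b ∈ Q, ∃ s ∉ Q, s * b ∈ Ideal.span (Set.range u) ⊔ P) ∧
        ∀ n : ℕ, (n : ℕ∞) ≤ P.height → ((n + m : ℕ) : ℕ∞) ≤ Q.height := by
  classical
  have hft : Algebra.FiniteType k (B ⧸ P) := inferInstance
  obtain ⟨f', hf', hreg⟩ := exists_regular k (B ⧸ P)
  obtain ⟨f, rfl⟩ := Ideal.Quotient.mk_surjective f'
  refine ⟨f, fun h => hf' (Ideal.Quotient.eq_zero_iff_mem.2 h), fun Q hQ hPQ hfQ => ?_⟩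
  -- the prime `Q / P`
  obtain ⟨Q', hQ'⟩ : ∃ Q' : Ideal (B ⧸ P), Q' = Q.map (Ideal.Quotient.mk P) := ⟨_, rfl⟩
  have hcomap : Q'.comap (Ideal.Quotient.mk P) = Q := by
    rw [hQ', Ideal.comap_map_of_surjective _ Ideal.Quotient.mk_surjective,
      ← RingHom.ker_eq_comap_bot, Ideal.mk_ker, sup_eq_left]
    exact hPQ
  have hQ'p : Q'.IsPrime := by
    rw [hQ']
    exact Ideal.map_isPrime_of_surjective Ideal.Quotient.mk_surjective (by rwa [Ideal.mk_ker])
  have hmem : ∀ b : B, Ideal.Quotient.mk P b ∈ Q' ↔ b ∈ Q := by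
    intro b
    rw [← Ideal.mem_comap, hcomap]
  have hR := hreg Q' (by rw [hmem]; exact hfQ)
  obtain ⟨R, hRdef⟩ : ∃ R : Type _, R = Localization.AtPrime Q' := ⟨_, rfl⟩
  -- a minimal set of generators
  obtain ⟨s, hs, hspan⟩ := (IsNoetherian.noetherian
    (maximalIdeal (Localization.AtPrime Q'))).exists_span_finset_card_eq_spanFinrank
  have h0 : (0 : Localization.AtPrime Q') ∉ s := by
    intro h0
    have h1 : Submodule.span (Localization.AtPrime Q') ((s.erase 0 : Finset _) : Set _) =
        maximalIdeal (Localization.AtPrime Q') := by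
      rw [← hspan, Finset.coe_erase, Submodule.span_sdiff_singleton_zero]
    have h2 := Submodule.spanFinrank_span_le_ncard_of_finite (R := Localization.AtPrime Q')
      (s.erase 0).finite_toSet
    rw [h1, Set.ncard_coe_finset, ← hs] at h2
    have h3 := Finset.card_erase_lt_of_mem h0
    omega
  -- generators from `B`
  have hgen : ∀ x : s, ∃ c : B, ∃ d ∉ Q, algebraMap (B ⧸ P) (Localization.AtPrime Q')
      (Ideal.Quotient.mk P c) = (x : Localization.AtPrime Q') *
        algebraMap (B ⧸ P) (Localization.AtPrime Q') (Ideal.Quotient.mk P d) := by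
    intro x
    obtain ⟨⟨c', d'⟩, h1⟩ := IsLocalization.surj Q'.primeCompl (x : Localization.AtPrime Q')
    obtain ⟨c, rfl⟩ := Ideal.Quotient.mk_surjective c'
    obtain ⟨d, hd⟩ := Ideal.Quotient.mk_surjective (d' : B ⧸ P)
    refine ⟨c, d, fun h => ?_, ?_⟩
    · exact d'.2 (by rw [← hd]; exact (hmem d).2 h)
    · rw [hd]
      exact h1.symm
  choose c d hd hcd using hgen
  have hu : ∀ {b : B}, b ∉ Q → IsUnit (algebraMap (B ⧸ P) (Localization.AtPrime Q')
      (Ideal.Quotient.mk P b)) := by
    intro b hb
    exact IsLocalization.map_units (Localization.AtPrime Q')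
      (⟨Ideal.Quotient.mk P b, fun h => hb ((hmem b).1 h)⟩ : Q'.primeCompl)
  have hxm : ∀ x : s, (x : Localization.AtPrime Q') ∈
      maximalIdeal (Localization.AtPrime Q') := fun x => by
    rw [← hspan]
    exact Submodule.subset_span x.2
  have hinj : ∀ b : B, algebraMap (B ⧸ P) (Localization.AtPrime Q')
      (Ideal.Quotient.mk P b) = 0 → b ∈ P := by
    intro b hb
    have h1 := IsLocalization.injective (Localization.AtPrime Q')
      Q'.primeCompl_le_nonZeroDivisors
    have h2 := h1 (hb.trans (map_zero _).symm)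
    exact Ideal.Quotient.eq_zero_iff_mem.1 h2
  refine ⟨s.card, fun i => c (s.equivFin.symm i), ?_, ?_, ?_, ?_⟩
  · intro i
    rw [← hmem, ← IsLocalization.AtPrime.to_map_mem_maximal_iff (Localization.AtPrime Q') Q',
      hcd]
    exact Ideal.mul_mem_right _ _ (hxm _)
  · intro i hi
    have h1 := hcd (s.equivFin.symm i)
    rw [Ideal.Quotient.eq_zero_iff_mem.2 hi, map_zero] at h1
    have h2 := (hu (hd (s.equivFin.symm i))).mul_left_eq_zero.1 h1.symm
    apply h0
    rw [← h2]
    exact (s.equivFin.symm i).2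
  · intro b hb
    have h1 : algebraMap (B ⧸ P) (Localization.AtPrime Q') (Ideal.Quotient.mk P b) ∈
        Ideal.span (Set.range fun i =>
          algebraMap (B ⧸ P) (Localization.AtPrime Q') (Ideal.Quotient.mk P
            (c (s.equivFin.symm i)))) := by
      have h2 : algebraMap (B ⧸ P) (Localization.AtPrime Q') (Ideal.Quotient.mk P b) ∈
          maximalIdeal (Localization.AtPrime Q') := by
        rw [IsLocalization.AtPrime.to_map_mem_maximal_iff (Localization.AtPrime Q') Q', hmem]
        exact hb
      rw [← hspan] at h2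
      refine (Submodule.span_le.2 ?_ : Submodule.span _ (s : Set (Localization.AtPrime Q')) ≤ _) h2
      intro x hx
      have h3 := hcd ⟨x, hx⟩
      have h4 : x ∈ Ideal.span {algebraMap (B ⧸ P) (Localization.AtPrime Q')
          (Ideal.Quotient.mk P (c ⟨x, hx⟩))} := by
        rw [h3]
        obtain ⟨y, hy⟩ := (hu (hd ⟨x, hx⟩)).exists_right_inv
        rw [Ideal.mem_span_singleton]
        exact ⟨y, by rw [mul_assoc, hy, mul_one]⟩
      refine Ideal.span_mono ?_ h4
      rintro _ rfl
      exact ⟨s.equivFin ⟨x, hx⟩, by simp⟩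
    rw [Ideal.mem_span_range_iff_exists_fun] at h1
    obtain ⟨a, ha⟩ := h1
    -- common denominators
    have hden : ∀ i, ∃ e : B, ∃ t ∉ Q, a i * algebraMap (B ⧸ P) (Localization.AtPrime Q')
        (Ideal.Quotient.mk P t) = algebraMap (B ⧸ P) (Localization.AtPrime Q')
          (Ideal.Quotient.mk P e) := by
      intro i
      obtain ⟨⟨c', d'⟩, h1⟩ := IsLocalization.surj Q'.primeCompl (a i)
      obtain ⟨e, rfl⟩ := Ideal.Quotient.mk_surjective c'
      obtain ⟨t, ht⟩ := Ideal.Quotient.mk_surjective (d' : B ⧸ P)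
      refine ⟨e, t, fun h => ?_, ?_⟩
      · exact d'.2 (by rw [← ht]; exact (hmem t).2 h)
      · rw [ht]
        exact h1
    choose e t ht het using hden
    refine ⟨∏ i, t i, fun h => ?_, ?_⟩
    · obtain ⟨i, -, hi⟩ := (Ideal.IsPrime.prod_mem_iff (p := Q)).1 h
      exact ht i hi
    · have h5 : (∏ i, t i) * b - ∑ i, ((∏ j ∈ Finset.univ.erase i, t j) * e i) *
          c (s.equivFin.symm i) ∈ P := by
        apply hinj
        simp only [map_sub, map_mul, map_sum, map_prod]
        rw [← ha, Finset.mul_sum, ← Finset.sum_sub_distrib]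
        refine Finset.sum_eq_zero fun i _ => ?_
        rw [← Finset.mul_prod_erase Finset.univ _ (Finset.mem_univ i), ← het i]
        ring
      have h6 : (∏ i, t i) * b = (∑ i, ((∏ j ∈ Finset.univ.erase i, t j) * e i) *
          c (s.equivFin.symm i)) + ((∏ i, t i) * b - ∑ i,
            ((∏ j ∈ Finset.univ.erase i, t j) * e i) * c (s.equivFin.symm i)) := by ring
      rw [h6]
      refine Ideal.add_mem _ (Ideal.mem_sup_left ?_) (Ideal.mem_sup_right h5)
      exact Ideal.sum_mem _ fun i _ => Ideal.mul_mem_left _ _ (Ideal.subset_span ⟨i, rfl⟩)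
  · intro n hn
    have h1 : (s.card : ℕ∞) ≤ Q'.height := by
      have h2 := IsLocalization.AtPrime.ringKrullDim_eq_height Q' (Localization.AtPrime Q')
      have h3 := hR.spanFinrank_maximalIdeal
      rw [h2, ← hs] at h3
      exact_mod_cast h3.le
    have h2 := le_height P hn s.card Q' h1
    rwa [hcomap] at h2

end Pool.Agent.TWT
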