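import Pool.Agent.Lib.TWC.EW
import Pool.Agent.Lib.TWM.LogC
import Pool.Agent.Lib.TWM.G3

/-!
# TANK W, tame case, row T0: the orthogonal sum `K E = ∑ x^c K`, `c ∈ ℤ[1/p]/ℤ`

`u 0 = x ∈ K`, `u (n + 1) ^ p = u n`, and `v x` is not `p` times a value of `K`.  The closure
`EW v K u` of `K(u 0, u 1, ..)` is the completed orthogonal sum of the `u n ^ j * K`.
`IsPr K u f a`: `a ∈ K` is the component of `f` in `K`.
-/

set_option autoImplicit false

open Polynomial

namespace Pool.Agent.TWT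

open Pool.Agent.H15JM (RVal)
open Pool.Agent.LU1 (VPos adj)
open Pool.Agent.D2 (Ctx0)
open Pool.Agent.D2P (hen clI mem_clI)
open Pool.Agent.TWM Pool.Agent.TWC

universe u

variable {k Ω : Type u} [Field k] [Field Ω] [Algebra k Ω] {v : RVal Ω}
  {K C : IntermediateField k Ω} {w : ℕ → Ω} {p : ℕ}

/-- `w` are compatible `p^n`-th roots of `x = w 0 ∈ K`, and `v x` is not `p` times a value of
`K`. -/
structure Rts (p : ℕ) (v : RVal Ω) (K : IntermediateField k Ω) (w : ℕ → Ω) : Prop where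
  root : ∀ n, w (n + 1) ^ p = w n
  mem : w 0 ∈ K
  ne : w 0 ≠ 0
  nd : ∀ a ∈ K, a ≠ 0 → (p : ℝ) * v a ≠ v (w 0)

theorem Rts.mono (h : Rts p v K w) (hC : C ≤ K) (hx : w 0 ∈ C) : Rts p v C w :=
  ⟨h.root, hx, h.ne, fun a ha => h.nd a (hC ha)⟩

section

theorem Rts.pow_pow (h : Rts p v K w) (n m : ℕ) : w (n + m) ^ p ^ m = w n :=
  EW.pow_pow p h.root n m

theorem Rts.pow_zero (h : Rts p v K w) (n : ℕ) : w n ^ p ^ n = w 0 := by
  have h1 := h.pow_pow 0 n
  rwa [zero_add] at h1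

theorem aeval_range {n : ℕ} {Q : Polynomial K} (hQ : Q.natDegree < n) (z : Ω) :
    aeval z Q = ∑ j ∈ Finset.range n, (Q.coeff j : Ω) * z ^ j := by
  rw [aeval_eq_sum_range' hQ]
  exact Finset.sum_congr rfl fun j _ => by rw [Algebra.smul_def]; rfl

variable [Fact p.Prime] (h : Rts p v K w)

include h

theorem Rts.ne' (n : ℕ) : w n ≠ 0 := fun h0 => h.ne (by
  rw [← h.pow_zero n, h0, zero_pow (pow_pos (Fact.out : p.Prime).pos n).ne'])

theorem Rts.val (n m : ℕ) : (p : ℝ) ^ m * v (w (n + m)) = v (w n) := by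
  rw [← h.pow_pow n m, v.map_pow (h.ne' _)]
  push_cast
  rfl

/-- The values of the `w n ^ j` are in different classes. -/
theorem Rts.nd' {n j : ℕ} (hj : 0 < j) (hjn : j < p ^ n) {a : Ω} (ha : a ∈ K) (ha0 : a ≠ 0) :
    v a ≠ j * v (w n) := by
  have hp : p.Prime := Fact.out
  intro heq
  obtain ⟨t, m, hm, rfl⟩ := Nat.exists_eq_pow_mul_and_not_dvd hj.ne' p hp.ne_one
  have hm0 : 0 < m := Nat.pos_of_mul_pos_left hj
  have htn : t < n := by
    by_contra hno
    push Not at hno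
    have h1 := Nat.pow_le_pow_right hp.pos hno
    have h2 : p ^ t ≤ p ^ t * m := Nat.le_mul_of_pos_right _ hm0
    omega
  obtain ⟨s, rfl⟩ : ∃ s, n = s + 1 + t := ⟨n - 1 - t, by omega⟩
  have h1 : v a = m * v (w (s + 1)) := by
    rw [heq, ← h.val (s + 1) t]
    push_cast
    ring
  have h2 : v (a ^ p ^ s) = m * v (w 1) := by
    rw [v.map_pow ha0, h1, ← h.val 1 s, show 1 + s = s + 1 from add_comm _ _]
    push_cast
    ring
  have hcop : IsCoprime (m : ℤ) (p : ℤ) := by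
    rw [Nat.isCoprime_iff_coprime]
    exact ((Nat.Prime.coprime_iff_not_dvd hp).2 hm).symm
  obtain ⟨A, B, hAB⟩ := hcop
  have h3 : v (w 1) = A * (m * v (w 1)) + B * (p * v (w 1)) := by
    have h4 : (A : ℝ) * m + B * p = 1 := by exact_mod_cast hAB
    calc v (w 1) = ((A : ℝ) * m + B * p) * v (w 1) := by rw [h4, one_mul]
      _ = _ := by ring
  have h4 : (p : ℝ) * v (w 1) = v (w 0) := by
    have := h.val 0 1
    rwa [pow_one, zero_add] at this
  have hb : a ^ p ^ s ≠ 0 := pow_ne_zero _ ha0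
  refine h.nd ((a ^ p ^ s) ^ A * w 0 ^ B) (mul_mem (zpow_mem (pow_mem ha _) _)
    (zpow_mem h.mem _)) (mul_ne_zero (zpow_ne_zero _ hb) (zpow_ne_zero _ h.ne)) ?_
  rw [v.map_mul (zpow_ne_zero _ hb) (zpow_ne_zero _ h.ne), v.map_zpow hb, v.map_zpow h.ne, h2,
    ← h4, ← h3]

/-- The terms of `∑ a j * w n ^ j` have different values. -/
theorem Rts.inj {n i j : ℕ} (hi : i < p ^ n) (hj : j < p ^ n) {a b : Ω} (ha : a ∈ K) (hb : b ∈ K)
    (ha0 : a ≠ 0) (hb0 : b ≠ 0) (heq : v (a * w n ^ i) = v (b * w n ^ j)) : i = j := by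
  have hw := h.ne' n
  have h1 : ∀ {i j : ℕ} {a b : Ω}, i < j → j < p ^ n → a ∈ K → b ∈ K → a ≠ 0 → b ≠ 0 →
      v (a * w n ^ i) = v (b * w n ^ j) → False := by
    intro i j a b hij hj ha hb ha0 hb0 heq
    refine h.nd' (n := n) (j := j - i) (by omega) (by omega) (div_mem ha hb)
      (div_ne_zero ha0 hb0) ?_
    rw [v.map_mul ha0 (pow_ne_zero _ hw), v.map_mul hb0 (pow_ne_zero _ hw), v.map_pow hw,
      v.map_pow hw] at heq
    rw [v.map_div ha0 hb0, Nat.cast_sub hij.le]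
    linarith
  rcases lt_trichotomy i j with hij | hij | hij
  · exact (h1 hij hj ha hb ha0 hb0 heq).elim
  · exact hij
  · exact (h1 hij hi hb ha hb0 ha0 heq.symm).elim

/-- The sum `∑ K w n ^ j`, `j < p ^ n`, is orthogonal. -/
theorem Rts.orth {n : ℕ} {a : ℕ → Ω} (ha : ∀ j, a j ∈ K) {r : ℝ}
    (hr : v.Ge r (∑ j ∈ Finset.range (p ^ n), a j * w n ^ j)) {j : ℕ} (hj : j < p ^ n) :
    v.Ge r (a j * w n ^ j) := by
  classical
  intro hj0
  have haj : a j ≠ 0 := left_ne_zero_of_mul hj0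
  set S := (Finset.range (p ^ n)).filter fun i => a i ≠ 0 with hS
  have hsum : ∑ i ∈ Finset.range (p ^ n), a i * w n ^ i = ∑ i ∈ S, a i * w n ^ i := by
    rw [hS, Finset.sum_filter]
    refine Finset.sum_congr rfl fun i _ => ?_
    by_cases h0 : a i = 0
    · rw [h0, zero_mul, if_neg (by simp)]
    · rw [if_pos h0]
  have hjS : j ∈ S := Finset.mem_filter.2 ⟨Finset.mem_range.2 hj, haj⟩
  obtain ⟨i, -, h1, h2, h3⟩ := val_sum_distinct (v := v) S (fun i => a i * w n ^ i)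
    (fun i hi => mul_ne_zero (Finset.mem_filter.1 hi).2 (pow_ne_zero _ (h.ne' n)))
    (fun i hi i' hi' heq => by
      obtain ⟨hi1, hi2⟩ := Finset.mem_filter.1 hi
      obtain ⟨hi3, hi4⟩ := Finset.mem_filter.1 hi'
      exact h.inj (Finset.mem_range.1 hi1) (Finset.mem_range.1 hi3) (ha i) (ha i') hi2 hi4 heq)
    ⟨j, hjS⟩
  rw [hsum] at hr
  have h4 := hr h1
  rw [h2] at h4
  exact h4.trans (h3 j hjS)

theorem Rts.orth' {n : ℕ} {Q : Polynomial K} (hQ : Q.natDegree < p ^ n) {r : ℝ}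
    (hr : v.Ge r (aeval (w n) Q)) (j : ℕ) : v.Ge r ((Q.coeff j : Ω) * w n ^ j) := by
  by_cases hj : j < p ^ n
  · rw [aeval_range hQ] at hr
    exact h.orth (a := fun j => (Q.coeff j : Ω)) (fun j => (Q.coeff j).2) hr hj
  · rw [coeff_eq_zero_of_natDegree_lt (hQ.trans_le (not_lt.1 hj)), ZeroMemClass.coe_zero,
      zero_mul]
    exact RVal.Ge.zero

omit h in
/-- One level up. -/
theorem Rts.up (h : Rts p v K w) {n : ℕ} (m : ℕ) {Q : Polynomial K} (hQ : Q.natDegree < p ^ n) :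
    ∃ Q' : Polynomial K, Q'.natDegree < p ^ (n + m) ∧ Q'.coeff 0 = Q.coeff 0 ∧
      aeval (w (n + m)) Q' = aeval (w n) Q := by
  have hp : p.Prime := Fact.out
  refine ⟨expand K (p ^ m) Q, ?_, ?_, ?_⟩
  · rw [natDegree_expand, pow_add]
    exact Nat.mul_lt_mul_of_pos_right hQ (pow_pos hp.pos m)
  · rw [coeff_expand (pow_pos hp.pos m), if_pos (dvd_zero _), Nat.zero_div]
  · rw [expand_aeval, h.pow_pow]

omit h in
theorem Rts.up' (h : Rts p v K w) {n m : ℕ} (hnm : n ≤ m) {Q : Polynomial K}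
    (hQ : Q.natDegree < p ^ n) :
    ∃ Q' : Polynomial K, Q'.natDegree < p ^ m ∧ Q'.coeff 0 = Q.coeff 0 ∧
      aeval (w m) Q' = aeval (w n) Q := by
  obtain ⟨d, rfl⟩ := Nat.exists_eq_add_of_le hnm
  exact h.up d hQ

omit h in
/-- The elements of `K(w 0, w 1, ..)`. -/
theorem Rts.exists_poly (h : Rts p v K w) {f : Ω}
    (hf : f ∈ K ⊔ IntermediateField.adjoin k (Set.range w)) :
    ∃ n, ∃ Q : Polynomial K, Q.natDegree < p ^ n ∧ f = aeval (w n) Q := by
  have hp : p.Prime := Fact.out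
  have halg : ∀ x ∈ Set.range w, IsAlgebraic K x := by
    rintro _ ⟨n, rfl⟩
    refine IsAlgebraic.of_pow (n := p ^ n) (pow_pos hp.pos n) ?_
    rw [h.pow_zero]
    exact isAlgebraic_algebraMap (⟨w 0, h.mem⟩ : K)
  have h1 : K ⊔ IntermediateField.adjoin k (Set.range w) ≤
      (IntermediateField.adjoin K (Set.range w)).restrictScalars k := by
    refine sup_le (fun a ha => ?_) (IntermediateField.adjoin_le_iff.2 fun a ha => ?_)
    · exact (IntermediateField.adjoin K (Set.range w)).algebraMap_mem (⟨a, ha⟩ : K)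
    · exact IntermediateField.subset_adjoin K _ ha
  have h2 : f ∈ (IntermediateField.adjoin K (Set.range w)).toSubalgebra := h1 hf
  rw [IntermediateField.adjoin_toSubalgebra_of_isAlgebraic halg] at h2
  have h3 : ∃ n, ∃ Q : Polynomial K, f = aeval (w n) Q := by
    refine Algebra.adjoin_induction (p := fun f _ => ∃ n, ∃ Q : Polynomial K, f = aeval (w n) Q)
      ?_ ?_ ?_ ?_ h2
    · rintro _ ⟨n, rfl⟩
      exact ⟨n, X, by rw [aeval_X]⟩
    · exact fun a => ⟨0, C a, by rw [aeval_C]⟩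
    · rintro _ _ - - ⟨n, Q, rfl⟩ ⟨m, R, rfl⟩
      refine ⟨n + m, expand K (p ^ m) Q + expand K (p ^ n) R, ?_⟩
      rw [map_add, expand_aeval, expand_aeval, h.pow_pow, add_comm n m, h.pow_pow]
    · rintro _ _ - - ⟨n, Q, rfl⟩ ⟨m, R, rfl⟩
      refine ⟨n + m, expand K (p ^ m) Q * expand K (p ^ n) R, ?_⟩
      rw [map_mul, expand_aeval, expand_aeval, h.pow_pow, add_comm n m, h.pow_pow]
  obtain ⟨n, Q, rfl⟩ := h3
  have hpn : p ^ n ≠ 0 := (pow_pos hp.pos n).ne'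
  refine ⟨n, Q %ₘ (X ^ p ^ n - C (⟨w 0, h.mem⟩ : K)), ?_, ?_⟩
  · have h4 := natDegree_modByMonic_lt Q (monic_X_pow_sub_C (⟨w 0, h.mem⟩ : K) hpn) (by
      intro h5
      have h6 := natDegree_X_pow_sub_C (n := p ^ n) (r := (⟨w 0, h.mem⟩ : K))
      rw [h5, natDegree_one] at h6
      exact hpn h6.symm)
    rwa [natDegree_X_pow_sub_C] at h4
  · symm
    refine aeval_modByMonic_eq_self_of_root ?_
    rw [map_sub, map_pow, aeval_X, aeval_C, h.pow_zero]
    exact sub_self _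

/-! ### The component in `K` -/

end

/-- `a ∈ K` is the component of `f` in `K`. -/
def IsPr (p : ℕ) (v : RVal Ω) (K : IntermediateField k Ω) (w : ℕ → Ω) (f a : Ω) : Prop :=
  a ∈ K ∧ ∀ b : ℝ, ∃ n, ∃ Q : Polynomial K, Q.natDegree < p ^ n ∧ Q.coeff 0 = 0 ∧
    v.Ge b (f - a - aeval (w n) Q)

section

variable {f g a b : Ω}

theorem isPr_self (p : ℕ) [Fact p.Prime] (w : ℕ → Ω) (ha : a ∈ K) : IsPr p v K w a a :=
  ⟨ha, fun b => ⟨0, 0, by rw [natDegree_zero, _root_.pow_zero]; exact one_pos, coeff_zero 0, by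
    rw [sub_self, _root_.map_zero, sub_zero]
    exact RVal.Ge.zero⟩⟩

theorem IsPr.smul (hf : IsPr p v K w f a) {c : Ω} (hc : c ∈ K) :
    IsPr p v K w (c * f) (c * a) := by
  refine ⟨mul_mem hc hf.1, fun b => ?_⟩
  obtain ⟨n, Q, hQ, hQ0, h1⟩ := hf.2 (b - v c)
  refine ⟨n, C (⟨c, hc⟩ : K) * Q, (natDegree_C_mul_le _ _).trans_lt hQ, ?_, ?_⟩
  · rw [coeff_C_mul, hQ0, mul_zero]
  · rw [map_mul, aeval_C]
    change v.Ge b (c * f - c * a - c * aeval (w n) Q)
    rw [← mul_sub, ← mul_sub]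
    have h2 := (RVal.ge_self (v := v) c).mul h1
    rwa [add_sub_cancel] at h2

theorem IsPr.neg (hf : IsPr p v K w f a) : IsPr p v K w (-f) (-a) := by
  have h1 := hf.smul (c := -1) (neg_mem (one_mem K))
  rwa [neg_one_mul, neg_one_mul] at h1

variable [Fact p.Prime] (h : Rts p v K w)

include h

theorem IsPr.add (hf : IsPr p v K w f a) (hg : IsPr p v K w g b) :
    IsPr p v K w (f + g) (a + b) := by
  refine ⟨add_mem hf.1 hg.1, fun c => ?_⟩
  obtain ⟨n, Q, hQ, hQ0, h1⟩ := hf.2 c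
  obtain ⟨m, R, hR, hR0, h2⟩ := hg.2 c
  obtain ⟨Q', hQ', hQ0', h3⟩ := h.up' (le_max_left n m) hQ
  obtain ⟨R', hR', hR0', h4⟩ := h.up' (le_max_right n m) hR
  refine ⟨max n m, Q' + R', (natDegree_add_le _ _).trans_lt (max_lt hQ' hR'), ?_, ?_⟩
  · rw [coeff_add, hQ0', hR0', hQ0, hR0, add_zero]
  · rw [map_add, h3, h4]
    have h5 := h1.add h2
    rwa [show f - a - aeval (w n) Q + (g - b - aeval (w m) R) =
      f + g - (a + b) - (aeval (w n) Q + aeval (w m) R) by ring] at h5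

theorem IsPr.sub (hf : IsPr p v K w f a) (hg : IsPr p v K w g b) :
    IsPr p v K w (f - g) (a - b) := by
  rw [sub_eq_add_neg, sub_eq_add_neg]
  exact IsPr.add h hf hg.neg

/-- The component is of norm `0`. -/
theorem IsPr.ge (hf : IsPr p v K w f a) {c : ℝ} (hc : v.Ge c f) : v.Ge c a := by
  obtain ⟨n, Q, hQ, hQ0, h1⟩ := hf.2 c
  have hp : p.Prime := Fact.out
  have h2 := hc.sub h1
  have h3 : f - (f - a - aeval (w n) Q) = aeval (w n) (C (⟨a, hf.1⟩ : K) + Q) := by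
    rw [map_add, aeval_C]
    change f - (f - a - aeval (w n) Q) = a + aeval (w n) Q
    ring
  rw [h3] at h2
  have h4 : (C (⟨a, hf.1⟩ : K) + Q).natDegree < p ^ n := by
    refine (natDegree_add_le _ _).trans_lt (max_lt ?_ hQ)
    rw [natDegree_C]
    exact pow_pos hp.pos n
  have h5 := h.orth' h4 h2 0
  rw [coeff_add, coeff_C_zero, hQ0, add_zero, _root_.pow_zero, mul_one] at h5
  exact h5

theorem IsPr.uniq (hf : IsPr p v K w f a) (hg : IsPr p v K w f b) : a = b := by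
  have h1 := IsPr.sub h hf hg
  rw [sub_self] at h1
  by_contra hne
  have h2 := h1.ge h (c := v (a - b) + 1) RVal.Ge.zero (sub_ne_zero.2 hne)
  linarith

/-! ### Existence -/

omit h in
theorem isPr_poly (_h : Rts p v K w) {n : ℕ} {Q : Polynomial K} (hQ : Q.natDegree < p ^ n) :
    IsPr p v K w (aeval (w n) Q) (Q.coeff 0 : Ω) := by
  have hp : p.Prime := Fact.out
  refine ⟨(Q.coeff 0).2, fun b => ⟨n, Q - C (Q.coeff 0), ?_, ?_, ?_⟩⟩
  · refine (natDegree_sub_le _ _).trans_lt (max_lt hQ ?_)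
    rw [natDegree_C]
    exact pow_pos hp.pos n
  · rw [coeff_sub, coeff_C_zero, sub_self]
  · have h1 : aeval (w n) Q - (Q.coeff 0 : Ω) - aeval (w n) (Q - C (Q.coeff 0)) = 0 := by
      rw [map_sub, aeval_C]
      change aeval (w n) Q - (Q.coeff 0 : Ω) - (aeval (w n) Q - (Q.coeff 0 : Ω)) = 0
      ring
    rw [h1]
    exact RVal.Ge.zero

omit [Fact p.Prime] h in
theorem IsPr.of_lim (ha : a ∈ K) (hl : ∀ c : ℝ, ∃ g b, IsPr p v K w g b ∧ v.Ge c (f - g) ∧
    v.Ge c (a - b)) : IsPr p v K w f a := by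
  refine ⟨ha, fun c => ?_⟩
  obtain ⟨g, b, hg, h1, h2⟩ := hl c
  obtain ⟨n, Q, hQ, hQ0, h3⟩ := hg.2 c
  refine ⟨n, Q, hQ, hQ0, ?_⟩
  have h4 := (h1.sub h2).add h3
  rwa [show f - g - (a - b) + (g - b - aeval (w n) Q) = f - a - aeval (w n) Q by ring] at h4

theorem exists_isPr (hc : CompleteV v) (hK : Cld v K) (hf : f ∈ EW v K w) :
    ∃ a, IsPr p v K w f a := by
  have h1 : ∀ N : ℕ, ∃ g b, IsPr p v K w g b ∧ v.Ge N (f - g) := by
    intro N
    obtain ⟨g, hg, h2⟩ := mem_clI.1 hf N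
    obtain ⟨n, Q, hQ, rfl⟩ := h.exists_poly hg
    exact ⟨_, _, isPr_poly h hQ, h2⟩
  choose g b hb hg using h1
  have h2 : ∀ m n : ℕ, v.Ge (min (m : ℝ) n) (b m - b n) := by
    intro m n
    refine (IsPr.sub h (hb m) (hb n)).ge h ?_
    have h3 := ((hg n).mono (min_le_right (m : ℝ) n)).sub ((hg m).mono (min_le_left (m : ℝ) n))
    rwa [sub_sub_sub_cancel_left] at h3
  obtain ⟨a, ha⟩ := hc b fun c => by
    obtain ⟨N, hN⟩ := exists_nat_ge c
    refine ⟨N, fun m n hm hn => (h2 m n).mono (hN.trans (le_min ?_ ?_))⟩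
    · exact_mod_cast hm
    · exact_mod_cast hn
  have haK : a ∈ K := hK (by
    rw [mem_clI]
    intro c
    obtain ⟨N, hN⟩ := ha c
    exact ⟨b N, (hb N).1, hN N le_rfl⟩)
  refine ⟨a, IsPr.of_lim haK fun c => ?_⟩
  obtain ⟨N, hN⟩ := ha c
  obtain ⟨M, hM⟩ := exists_nat_ge c
  refine ⟨g (max M N), b (max M N), hb _, (hg _).mono (hM.trans ?_), hN _ (le_max_right _ _)⟩
  exact_mod_cast le_max_left M N

omit [Fact p.Prime] h in
/-- The component in a smaller field. -/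
theorem IsPr.base (hC : C ≤ K) (hf : IsPr p v C w f a) : IsPr p v K w f a := by
  refine ⟨hC hf.1, fun b => ?_⟩
  obtain ⟨n, Q, hQ, hQ0, h1⟩ := hf.2 b
  refine ⟨n, Q.map (IntermediateField.inclusion hC).toRingHom, natDegree_map_le.trans_lt hQ, ?_,
    ?_⟩
  · rw [coeff_map, hQ0, _root_.map_zero]
  · have h2 : aeval (w n) (Q.map (IntermediateField.inclusion hC).toRingHom) = aeval (w n) Q := by
      rw [aeval_def, aeval_def, eval₂_map]
      rfl
    rw [h2]
    exact h1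

omit h in
/-- Sums. -/
theorem IsPr.sum (h : Rts p v K w) {ι : Type*} (S : Finset ι) {f a : ι → Ω}
    (hf : ∀ i ∈ S, IsPr p v K w (f i) (a i)) : IsPr p v K w (∑ i ∈ S, f i) (∑ i ∈ S, a i) := by
  classical
  induction S using Finset.induction_on with
  | empty =>
    rw [Finset.sum_empty, Finset.sum_empty]
    exact isPr_self p w (zero_mem K)
  | insert i S hi ih =>
    rw [Finset.sum_insert hi, Finset.sum_insert hi]
    exact IsPr.add h (hf i (Finset.mem_insert_self i S))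
      (ih fun j hj => hf j (Finset.mem_insert_of_mem hj))

/-- The monomials. -/
theorem isPr_mon (ha : a ∈ K) {n j : ℕ} (hj : 0 < j) (hjn : j < p ^ n) :
    IsPr p v K w (a * w n ^ j) 0 := by
  have h1 : (C (⟨a, ha⟩ : K) * X ^ j).natDegree < p ^ n :=
    (natDegree_C_mul_X_pow_le _ _).trans_lt hjn
  have h2 := isPr_poly h h1
  rw [map_mul, aeval_C, map_pow, aeval_X, coeff_C_mul, coeff_X_pow, if_neg hj.ne, mul_zero] at h2
  exact h2

theorem isPr_mon' (ha : a ∈ K) {n i j : ℕ} (hi : i < p ^ n) (hj : j < p ^ n) :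
    IsPr p v K w ((w n ^ j)⁻¹ * (a * w n ^ i)) (if i = j then a else 0) := by
  have hw := h.ne' n
  rcases lt_trichotomy i j with hij | rfl | hij
  · rw [if_neg hij.ne]
    have h1 : (w n ^ j)⁻¹ * (a * w n ^ i) = a * (w 0)⁻¹ * w n ^ (p ^ n + i - j) := by
      have h2 : w n ^ (p ^ n + i - j) * w n ^ j = w 0 * w n ^ i := by
        rw [← pow_add, Nat.sub_add_cancel (by omega), pow_add, h.pow_zero]
      have h3 : w n ^ (p ^ n + i - j) = w 0 * w n ^ i * (w n ^ j)⁻¹ := by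
        rw [← h2, mul_inv_cancel_right₀ (pow_ne_zero _ hw)]
      rw [h3]
      have := h.ne
      field_simp
    rw [h1]
    exact isPr_mon h (mul_mem ha (inv_mem h.mem)) (by omega) (by omega)
  · rw [if_pos rfl, mul_comm, mul_inv_cancel_right₀ (pow_ne_zero _ hw)]
    exact isPr_self p w ha
  · rw [if_neg hij.ne']
    have h1 : (w n ^ j)⁻¹ * (a * w n ^ i) = a * w n ^ (i - j) := by
      have h2 : w n ^ i = w n ^ (i - j) * w n ^ j := by
        rw [← pow_add, Nat.sub_add_cancel hij.le]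
      rw [h2]
      field_simp
    rw [h1]
    exact isPr_mon h ha (by omega) (by omega)

theorem isPr_coeff {n : ℕ} {Q : Polynomial K} (hQ : Q.natDegree < p ^ n) {j : ℕ}
    (hj : j < p ^ n) : IsPr p v K w ((w n ^ j)⁻¹ * aeval (w n) Q) (Q.coeff j : Ω) := by
  rw [aeval_range hQ, Finset.mul_sum]
  have h1 := IsPr.sum h (Finset.range (p ^ n))
    (f := fun i => (w n ^ j)⁻¹ * ((Q.coeff i : Ω) * w n ^ i))
    (a := fun i => if i = j then (Q.coeff i : Ω) else 0)
    fun i hi => isPr_mon' h (Q.coeff i).2 (Finset.mem_range.1 hi) hj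
  rwa [Finset.sum_ite_eq' (Finset.range (p ^ n)) j, if_pos (Finset.mem_range.2 hj)] at h1

end

/-! ### The projection -/

open scoped Classical in
/-- The component in `K`. -/
noncomputable def prK (p : ℕ) (v : RVal Ω) (K : IntermediateField k Ω) (w : ℕ → Ω) (f : Ω) : Ω :=
  if h : ∃ a, IsPr p v K w f a then h.choose else 0

section

variable [Fact p.Prime] (h : Rts p v K w) {f g a b : Ω}

include h

theorem IsPr.eq (hf : IsPr p v K w f a) : prK p v K w f = a := by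
  have h1 : ∃ a, IsPr p v K w f a := ⟨a, hf⟩
  rw [prK, dif_pos h1]
  exact h1.choose_spec.uniq h hf

theorem isPr_prK (hc : CompleteV v) (hK : Cld v K) (hf : f ∈ EW v K w) :
    IsPr p v K w f (prK p v K w f) := by
  obtain ⟨a, ha⟩ := exists_isPr h hc hK hf
  rwa [ha.eq h]

omit [Fact p.Prime] h in
theorem mul_root_mem (hf : f ∈ EW v K w) (n j : ℕ) : (w n ^ j)⁻¹ * f ∈ EW v K w :=
  mul_mem (inv_mem (pow_mem (EW.mem n) j)) hf

/-- The terms are of norm `0`. -/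
theorem prK_term_ge (hc : CompleteV v) (hK : Cld v K) (hf : f ∈ EW v K w) (n j : ℕ) {c : ℝ}
    (hcf : v.Ge c f) : v.Ge c (w n ^ j * prK p v K w ((w n ^ j)⁻¹ * f)) := by
  have hw := pow_ne_zero j (h.ne' n)
  have h1 : v.Ge (c - v (w n ^ j)) ((w n ^ j)⁻¹ * f) := by
    have h2 := (RVal.ge_self (v := v) (w n ^ j)⁻¹).mul hcf
    rw [v.map_inv hw] at h2
    exact h2.mono (by linarith)
  have h3 := (isPr_prK h hc hK (mul_root_mem hf n j)).ge h h1
  have h4 := (RVal.ge_self (v := v) (w n ^ j)).mul h3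
  rwa [add_sub_cancel] at h4

/-- **T0.** The orthogonal sum. -/
theorem expand_EW (hc : CompleteV v) (hK : Cld v K) (hf : f ∈ EW v K w) (c : ℝ) :
    ∃ n, ∀ m, n ≤ m → v.Ge c (f - ∑ j ∈ Finset.range (p ^ m),
      w m ^ j * prK p v K w ((w m ^ j)⁻¹ * f)) := by
  obtain ⟨g, hg, h1⟩ := mem_clI.1 hf c
  obtain ⟨n, Q, hQ, rfl⟩ := h.exists_poly hg
  refine ⟨n, fun m hm => ?_⟩
  obtain ⟨Q', hQ', -, h2⟩ := h.up' hm hQ
  rw [← h2] at h1 hg
  have hgE : aeval (w m) Q' ∈ EW v K w := self_le_clI v _ hg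
  have h3 : ∀ j ∈ Finset.range (p ^ m), w m ^ j * prK p v K w ((w m ^ j)⁻¹ * f) =
      (Q'.coeff j : Ω) * w m ^ j +
        w m ^ j * prK p v K w ((w m ^ j)⁻¹ * (f - aeval (w m) Q')) := by
    intro j hj
    have h4 := isPr_coeff h hQ' (Finset.mem_range.1 hj)
    have h5 := isPr_prK h hc hK (mul_root_mem (sub_mem hf hgE) m j)
    have h6 := IsPr.add h h4 h5
    rw [← mul_add, add_sub_cancel] at h6
    rw [h6.eq h]
    ring
  rw [Finset.sum_congr rfl h3, Finset.sum_add_distrib, ← aeval_range hQ', ← sub_sub]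
  exact h1.sub (RVal.Ge.sum _ _ fun j _ => prK_term_ge h hc hK (sub_mem hf hgE) m j h1)

/-- The projection of `EW v C w`, `C ≤ K`. -/
theorem pr_base (hc : CompleteV v) (hCK : C ≤ K) (hC : Cld v C) (hx : w 0 ∈ C)
    (hf : f ∈ EW v C w) : IsPr p v C w f (prK p v K w f) := by
  obtain ⟨a, ha⟩ := exists_isPr (h.mono hCK hx) hc hC hf
  rwa [(ha.base hCK).eq h]

/-! ### Consequences -/

/-- An element of `K` near an element of `EW v C w` is near an element of `C`. -/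
theorem nr_base (hc : CompleteV v) (hCK : C ≤ K) (hC : Cld v C) (hx : w 0 ∈ C) (ha : a ∈ K)
    {e : Ω} (he : e ∈ EW v C w) {c : ℝ} (hae : v.Ge c (a - e)) : ∃ b ∈ C, v.Ge c (a - b) := by
  have h1 := pr_base h hc hCK hC hx he
  exact ⟨_, h1.1, (IsPr.sub h (isPr_self p w ha) (h1.base hCK)).ge h hae⟩

/-- The field `K` is disjoint from `EW v C w` over `C`. -/
theorem mem_base (hc : CompleteV v) (hCK : C ≤ K) (hC : Cld v C) (hx : w 0 ∈ C) (ha : a ∈ K)
    (he : a ∈ EW v C w) : a ∈ C := by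
  have h1 := (pr_base h hc hCK hC hx he).base hCK
  rw [← (isPr_self p w ha).uniq h h1] at h1
  have h2 := (pr_base h hc hCK hC hx he).1
  rwa [(isPr_self p w ha).eq h] at h2

/-- A limit of `EW v C w` in `K` is a limit of `C`. -/
theorem lim_base (hc : CompleteV v) (hCK : C ≤ K) (hC : Cld v C) (hx : w 0 ∈ C) (ha : a ∈ K)
    {s : ℝ} (hl : Lim v (EW v C w) s a) : Lim v C s a := fun ε hε => by
  obtain ⟨e, he, h1⟩ := hl ε hε
  exact nr_base h hc hCK hC hx ha he h1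

/-- The transcendental type, from `EW v C w` to `C`. -/
theorem tl_base (hc : CompleteV v) (hCK : C ≤ K) (hC : Cld v C) (hx : w 0 ∈ C) (ha : a ∈ K)
    {s : ℝ} (hT : TL v (EW v C w) a s) : TL v C a s :=
  hT.of_le EW.le (lim_base h hc hCK hC hx ha hT.lim)

/-- The terms of a limit of `EW v C w` are limits of `EW v C w`. -/
theorem lim_term (hc : CompleteV v) (hK : Cld v K) (hCK : C ≤ K) (hC : Cld v C) (hx : w 0 ∈ C)
    (hf : f ∈ EW v K w) {s : ℝ} (hl : Lim v (EW v C w) s f) (n j : ℕ) :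
    Lim v (EW v C w) s (w n ^ j * prK p v K w ((w n ^ j)⁻¹ * f)) := fun ε hε => by
  obtain ⟨e, he, h1⟩ := hl ε hε
  have heK : e ∈ EW v K w := clI_mono' (sup_le_sup_right hCK _) he
  have h2 := prK_term_ge h hc hK (sub_mem hf heK) n j h1
  have h3 := pr_base h hc hCK hC hx (mul_root_mem he n j)
  refine ⟨w n ^ j * prK p v K w ((w n ^ j)⁻¹ * e), mul_mem (pow_mem (EW.mem n) j) (EW.le h3.1), ?_⟩
  have h4 := IsPr.sub h (isPr_prK h hc hK (mul_root_mem hf n j)) (h3.base hCK)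
  rw [← mul_sub] at h4
  rwa [h4.eq h, mul_sub] at h2

/-- An element of `EW v K w` which is far from `EW v C w` has a term which is far from
`EW v C w`. -/
theorem exists_far_term (hc : CompleteV v) (hK : Cld v K) (hf : f ∈ EW v K w) {c : ℝ}
    (hfar : ¬ Nr v (EW v C w) c f) :
    ∃ n j, j < p ^ n ∧ ¬ Nr v (EW v C w) c (w n ^ j * prK p v K w ((w n ^ j)⁻¹ * f)) := by
  classical
  by_contra hno
  push Not at hno
  obtain ⟨n, hn⟩ := expand_EW h hc hK hf c
  have h1 := hn n le_rfl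
  have h2 : ∀ j : ℕ, ∃ e : Ω, e ∈ EW v C w ∧ (j < p ^ n →
      v.Ge c (w n ^ j * prK p v K w ((w n ^ j)⁻¹ * f) - e)) := by
    intro j
    by_cases hj : j < p ^ n
    · obtain ⟨e, he, h3⟩ := hno n j hj
      exact ⟨e, he, fun _ => h3⟩
    · exact ⟨0, zero_mem _, fun h => absurd h hj⟩
  choose e he hee using h2
  refine hfar ⟨∑ j ∈ Finset.range (p ^ n), e j, sum_mem fun j _ => he j, ?_⟩
  have h3 : v.Ge c (∑ j ∈ Finset.range (p ^ n),
      (w n ^ j * prK p v K w ((w n ^ j)⁻¹ * f) - e j)) :=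
    RVal.Ge.sum _ _ fun j hj => hee j (Finset.mem_range.1 hj)
  have h4 := h1.add h3
  rw [Finset.sum_sub_distrib] at h4
  rwa [sub_add_sub_cancel] at h4

/-- If all the terms of `f` are in `EW v C w`, then `f` is in `EW v C w`. -/
theorem mem_EW_of (hc : CompleteV v) (hK : Cld v K) (hf : f ∈ EW v K w)
    (hC : ∀ n j, j < p ^ n → prK p v K w ((w n ^ j)⁻¹ * f) ∈ C) : f ∈ EW v C w := by
  refine (EW.cld : Cld v (EW v C w)) ?_
  rw [mem_clI]
  intro c
  by_contra hno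
  obtain ⟨n, j, hj, h1⟩ := exists_far_term (C := C) h hc hK hf (c := c) fun ⟨e, he, h2⟩ =>
    hno ⟨e, he, h2⟩
  refine h1 ⟨_, mul_mem (pow_mem (EW.mem n) j) (EW.le (hC n j hj)), ?_⟩
  rw [sub_self]
  exact RVal.Ge.zero

/-- The values of `EW v K w`. -/
theorem val_EW {f : Ω} (hf : f ∈ EW v K w) (hf0 : f ≠ 0) :
    ∃ n j, j < p ^ n ∧ ∃ a ∈ K, a ≠ 0 ∧ v f = v a + j * v (w n) := by
  classical
  obtain ⟨g, hg, h1⟩ := mem_clI.1 hf (v f + 1)
  have hg0 : g ≠ 0 := by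
    rintro rfl
    rw [sub_zero] at h1
    have := h1 hf0
    linarith
  have hvg : v g = v f := (Gt.val_eq hf0 (Gt.of_ge h1 (by linarith))).2
  obtain ⟨n, Q, hQ, rfl⟩ := h.exists_poly hg
  rw [aeval_range hQ] at hg0 hvg
  set S := (Finset.range (p ^ n)).filter fun i => (Q.coeff i : Ω) ≠ 0 with hS
  have hsum : ∑ i ∈ Finset.range (p ^ n), (Q.coeff i : Ω) * w n ^ i =
      ∑ i ∈ S, (Q.coeff i : Ω) * w n ^ i := by
    rw [hS, Finset.sum_filter]
    refine Finset.sum_congr rfl fun i _ => ?_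
    by_cases h0 : (Q.coeff i : Ω) = 0
    · rw [h0, zero_mul, if_neg (by simp)]
    · rw [if_pos h0]
  have hSne : S.Nonempty := by
    rw [Finset.nonempty_iff_ne_empty]
    intro h0
    rw [hsum, h0, Finset.sum_empty] at hg0
    exact hg0 rfl
  obtain ⟨i, hi, -, h3, -⟩ := val_sum_distinct (v := v) S (fun i => (Q.coeff i : Ω) * w n ^ i)
    (fun i hi => mul_ne_zero (Finset.mem_filter.1 hi).2 (pow_ne_zero _ (h.ne' n)))
    (fun i hi i' hi' heq => by
      obtain ⟨hi1, hi2⟩ := Finset.mem_filter.1 hi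
      obtain ⟨hi3, hi4⟩ := Finset.mem_filter.1 hi'
      exact h.inj (Finset.mem_range.1 hi1) (Finset.mem_range.1 hi3) (Q.coeff i).2 (Q.coeff i').2
        hi2 hi4 heq) hSne
  obtain ⟨hi1, hi2⟩ := Finset.mem_filter.1 hi
  refine ⟨n, i, Finset.mem_range.1 hi1, Q.coeff i, (Q.coeff i).2, hi2, ?_⟩
  rw [← hvg, hsum, h3, v.map_mul hi2 (pow_ne_zero _ (h.ne' n)), v.map_pow (h.ne' n)]

end

end Pool.Agent.TWT
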