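import Pool.Agent.Lib.TWT.TR1

/-!
# TWT, TR2: from a chart for `v ∘ φ`, `φ z = z + c'`, to a chart for `v`
-/

set_option autoImplicit false

open Polynomial

namespace Pool.Agent.TWT

open Pool.Agent.H15JM (RVal)
open Pool.Agent.LU1 (VPos val_add_vpos)
open Pool.Agent.LUC

universe u

variable {Ω : Type u} [Field Ω]

/-- The automorphism `φ` fixes the coefficients. -/
theorem map_eval {φ : Ω ≃+* Ω} {P : Polynomial Ω} (hP : ∀ i, φ (P.coeff i) = P.coeff i) (x : Ω) :
    φ (P.eval x) = P.eval (φ x) := by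
  rw [Polynomial.eval_eq_sum_range, Polynomial.eval_eq_sum_range, map_sum]
  refine Finset.sum_congr rfl fun i _ => ?_
  rw [_root_.map_mul, hP i, _root_.map_pow]

/-- The error of a translation. -/
theorem unit_of_err {V : RVal Ω} {O : Subring Ω} {P : Polynomial Ω} {z c' : Ω}
    (hz : P.eval z ≠ 0)
    (hE : ∀ j : ℕ, 1 ≤ j → (hasseDeriv j P).eval z * c' ^ j / P.eval z ∈ O ∧
      VPos V ((hasseDeriv j P).eval z * c' ^ j / P.eval z)) :
    P.eval (z - c') / P.eval z ∈ O ∧ P.eval (z - c') / P.eval z ≠ 0 ∧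
      V (P.eval (z - c') / P.eval z) = 0 := by
  have h1 : P.eval (z - c') = P.eval z + ∑ j ∈ Finset.range (P.natDegree),
      (hasseDeriv (j + 1) P).eval z * (-c') ^ (j + 1) := by
    have h2 : P.eval (z - c') = (taylor z P).eval (-c') := by
      rw [taylor_eval]
      congr 1
      ring
    rw [h2, Polynomial.eval_eq_sum_range, natDegree_taylor, Finset.sum_range_succ']
    simp only [taylor_coeff, pow_zero, mul_one, hasseDeriv_zero, LinearMap.id_apply]
    rw [add_comm]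
  have h2 : P.eval (z - c') / P.eval z = 1 + ∑ j ∈ Finset.range (P.natDegree),
      (-1) ^ (j + 1) * ((hasseDeriv (j + 1) P).eval z * c' ^ (j + 1) / P.eval z) := by
    rw [h1, add_div, div_self hz, Finset.sum_div]
    congr 1
    refine Finset.sum_congr rfl fun j _ => ?_
    rw [neg_pow c' (j + 1)]
    ring
  have h3 : (∑ j ∈ Finset.range (P.natDegree),
      (-1) ^ (j + 1) * ((hasseDeriv (j + 1) P).eval z * c' ^ (j + 1) / P.eval z)) ∈ O :=
    O.sum_mem fun j _ => O.mul_mem (O.pow_mem (O.neg_mem O.one_mem) _)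
      (hE (j + 1) (Nat.succ_le_succ (Nat.zero_le j))).1
  have h4 : VPos V (∑ j ∈ Finset.range (P.natDegree),
      (-1) ^ (j + 1) * ((hasseDeriv (j + 1) P).eval z * c' ^ (j + 1) / P.eval z)) := by
    classical
    refine Finset.sum_induction _ (VPos V) (fun _ _ h h' => h.add h') VPos.zero fun j _ => ?_
    refine VPos.mul' ?_ (hE (j + 1) (Nat.succ_le_succ (Nat.zero_le j))).2
    intro _
    rw [V.map_pow (neg_ne_zero.2 one_ne_zero), V.map_neg_one, mul_zero]
  have h5 := val_add_vpos (v := V) one_ne_zero V.map_one h4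
  rw [h2]
  exact ⟨O.add_mem O.one_mem h3, h5.1, h5.2⟩

section

variable [DecidableEq Ω] {k : Type*} [Field k] [Algebra k Ω] {v : RVal Ω} {L : Subfield Ω}
  {z c c' d : Ω}
  {A T A1 T0 : Finset Ω} {φ : Ω ≃+* Ω}

/-- Assembly: a chart for `v ∘ φ` gives a chart for `v`. -/
theorem assemble (hk : ∀ c : k, c ≠ 0 → v (algebraMap k Ω c) = 0)
    (hkL : ∀ c : k, algebraMap k Ω c ∈ L)
    (hA : ∀ a ∈ A, v.Ge 0 a) (hTT : T ⊆ T0) (hAT : ∀ a ∈ A, a ≠ 0 → a ∈ T0)
    (hA1L : ∀ a ∈ A1, a ∈ L) (hA1 : ∀ a ∈ A1, v.Ge 0 a) (hzv : v.Ge 0 z)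
    (hβ : ∀ b ∈ insert z A1, ∃ β ∈ adj (algebraMap k Ω).range (A : Set Ω), β ∈ T0 ∧
      ∃ α ∈ adj (algebraMap k Ω).range (A : Set Ω), b = α / β)
    (hφL : ∀ x ∈ L, φ x = x) (hφz : φ z = z + c')
    (hc'L : c' ∈ L) (hcL : c ∈ L)
    (hc' : c' ∈ adj (algebraMap k Ω).range ((insert z (insert c A1) : Finset Ω) : Set Ω))
    (hcv : v.Ge 0 c)
    (hd : d ∈ adj (algebraMap k Ω).range (A1 : Set Ω)) (hd0 : d ≠ 0)
    (hcd : c * d ∈ adj (algebraMap k Ω).range (A1 : Set Ω))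
    {n : ℕ} {z' : Fin n → Ω} {J : Finset (Fin n)} {O : Subring Ω} {g : Ω} {G : Finset Ω}
    (hpar : Par (cm v φ) O z')
    (hO : O = lv (cm v φ) (adj (algebraMap k Ω).range
      (((insert z (insert c A1) : Finset Ω) : Set Ω) ∪ (fun x => x / g) '' (G : Set Ω))))
    (hg : g ∈ adj (algebraMap k Ω).range ((insert z (insert c A1) : Finset Ω) : Set Ω))
    (hg0 : g ≠ 0) (hgm : SM (cm v φ) O z' J g)
    (hG : ∀ x ∈ G, x ∈ adj (algebraMap k Ω).range ((insert z (insert c A1) : Finset Ω) : Set Ω) ∧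
      (cm v φ).Ge ((cm v φ) g) x)
    (hT0 : ∀ t ∈ T0, SM (cm v φ) O z' J t) (hdm : SM (cm v φ) O z' J d)
    (hdim : ringKrullDim O = n)
    (hE : ∀ t ∈ T0, ∃ P Q : Polynomial Ω, (∀ i, P.coeff i ∈ L) ∧ (∀ i, Q.coeff i ∈ L) ∧
      P.eval z ≠ 0 ∧ Q.eval z ≠ 0 ∧ t = P.eval z / Q.eval z ∧
      (∀ j : ℕ, 1 ≤ j → (hasseDeriv j P).eval z * c' ^ j / P.eval z ∈ O ∧
        VPos (cm v φ) ((hasseDeriv j P).eval z * c' ^ j / P.eval z)) ∧
      (∀ j : ℕ, 1 ≤ j → (hasseDeriv j Q).eval z * c' ^ j / Q.eval z ∈ O ∧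
        VPos (cm v φ) ((hasseDeriv j Q).eval z * c' ^ j / Q.eval z))) :
    ∃ (n : ℕ) (z : Fin n → Ω) (J : Finset (Fin n)) (O : Subring Ω),
      IsMod v (algebraMap k Ω).range (A : Set Ω) (T : Set Ω) z J O ∧ ringKrullDim O = n := by
  obtain ⟨R, hR⟩ : ∃ R : Subring Ω, R = (algebraMap k Ω).range := ⟨_, rfl⟩
  rw [← hR] at hβ hc' hd hcd hO hg hG ⊢
  have hRφ : ∀ x ∈ R, φ x = x := by
    rw [hR]
    rintro _ ⟨a, rfl⟩
    exact hφL _ (hkL a)
  have hRv : ∀ x ∈ R, v.Ge 0 x := by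
    rw [hR]
    rintro _ ⟨a, rfl⟩ ha
    rw [hk a (by rintro rfl; simp at ha)]
  have hφsymL : ∀ x ∈ L, φ.symm x = x := fun x hx => by
    rw [RingEquiv.symm_apply_eq, hφL x hx]
  -- `φ` maps `R[A₀]` to itself
  obtain ⟨A0, hA0⟩ : ∃ A0 : Finset Ω, A0 = insert z (insert c A1) := ⟨_, rfl⟩
  rw [← hA0] at hc' hO hg hG
  have hzA0 : z ∈ adj R (A0 : Set Ω) := mem_adj (by rw [hA0]; simp)
  have hcA0 : c ∈ adj R (A0 : Set Ω) := mem_adj (by rw [hA0]; simp)
  have hA1A0 : adj R (A1 : Set Ω) ≤ adj R (A0 : Set Ω) := adj_mono le_rfl (by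
    intro a ha
    rw [hA0]
    simp only [Finset.coe_insert, Set.mem_insert_iff]
    exact Or.inr (Or.inr ha))
  have hφA0 : ∀ a ∈ A0, φ a ∈ adj R (A0 : Set Ω) := by
    intro a ha
    rw [hA0, Finset.mem_insert, Finset.mem_insert] at ha
    rcases ha with rfl | rfl | ha
    · rw [hφz]
      exact Subring.add_mem _ hzA0 hc'
    · rw [hφL _ hcL]
      exact hcA0
    · rw [hφL _ (hA1L a ha)]
      exact hA1A0 (mem_adj ha)
  have hφadj : ∀ f ∈ adj R (A0 : Set Ω), φ f ∈ adj R (A0 : Set Ω) := by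
    intro f hf
    refine adj_induction (p := fun f => φ f ∈ adj R (A0 : Set Ω)) ?_ ?_ ?_ ?_ hf
    · intro x hx
      rw [hRφ x hx]
      exact base_le_adj R _ hx
    · exact hφA0
    · intro x y hx hy
      rw [_root_.map_add]
      exact Subring.add_mem _ hx hy
    · intro x y hx hy
      rw [_root_.map_mul]
      exact Subring.mul_mem _ hx hy
  -- the new ring
  obtain ⟨O', hO'⟩ : ∃ O' : Subring Ω, O' = O.map (φ : Ω →+* Ω) := ⟨_, rfl⟩
  obtain ⟨FR, hFR⟩ : ∃ FR : Finset Ω, FR = A0 ∪ G.image fun x => φ x / φ g := ⟨_, rfl⟩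
  have hRmap : R.map (φ : Ω →+* Ω) = R := by
    ext x
    rw [mem_map]
    constructor
    · intro h
      have h1 := hRφ _ h
      rw [φ.apply_symm_apply] at h1
      rw [h1]
      exact h
    · intro h
      have h1 := hRφ _ h
      have h2 : φ.symm x = x := by rw [RingEquiv.symm_apply_eq, h1]
      rw [h2]
      exact h
  have hO'FR : O' = lv v (adj R (FR : Set Ω)) := by
    rw [hO', hO, lv_map, adj_map, hRmap]
    congr 1
    apply le_antisymm
    · refine adj_le (base_le_adj R _) ?_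
      rintro _ ⟨x, hx | ⟨y, hy, rfl⟩, rfl⟩
      · exact adj_mono le_rfl (by rw [hFR, Finset.coe_union]; exact Set.subset_union_left)
          (hφA0 x hx)
      · apply mem_adj
        rw [hFR, Finset.coe_union, Finset.coe_image]
        exact Or.inr ⟨y, hy, by rw [map_div₀]⟩
    · refine adj_le (base_le_adj R _) ?_
      have hsub : ∀ x ∈ L, x ∈ A0 → x ∈ adj R (φ '' ((A0 : Set Ω) ∪ (fun x => x / g) '' (G : Set Ω)))
          := fun x hx hx' => mem_adj ⟨x, Or.inl hx', hφL x hx⟩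
      have hA1' : adj R (A1 : Set Ω) ≤
          adj R (φ '' ((A0 : Set Ω) ∪ (fun x => x / g) '' (G : Set Ω))) := by
        refine adj_le (base_le_adj R _) fun a ha => hsub a (hA1L a ha) ?_
        rw [hA0]
        simp only [Finset.mem_insert]
        exact Or.inr (Or.inr ha)
      -- `c'` is in the image
      have hc'' : c' ∈ adj R (φ '' ((A0 : Set Ω) ∪ (fun x => x / g) '' (G : Set Ω))) := by
        have h1 : φ c' ∈ (adj R (A0 : Set Ω)).map (φ : Ω →+* Ω) := apply_mem_map.2 hc'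
        rw [hφL _ hc'L, adj_map, hRmap] at h1
        exact adj_mono le_rfl (Set.image_mono Set.subset_union_left) h1
      intro x hx
      rw [hFR, Finset.coe_union, Finset.coe_image] at hx
      rcases hx with hx | ⟨y, hy, rfl⟩
      · rw [hA0, Finset.coe_insert, Finset.coe_insert] at hx
        rcases hx with rfl | rfl | hx
        · have h1 : φ x ∈ adj R (φ '' ((A0 : Set Ω) ∪ (fun x => x / g) '' (G : Set Ω))) :=
            mem_adj ⟨x, Or.inl (by rw [hA0]; simp), rfl⟩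
          have h2 : x = φ x - c' := by rw [hφz]; ring
          rw [h2]
          exact Subring.sub_mem _ h1 hc''
        · exact hsub x hcL (by rw [hA0]; simp)
        · exact hA1' (mem_adj hx)
      · exact mem_adj ⟨y / g, Or.inr ⟨y, hy, rfl⟩, by rw [map_div₀]⟩
  -- monomials
  have hz'0 : ∀ i, φ (z' i) ≠ 0 := fun i => (map_ne_zero φ).2 (hpar.ne i)
  have hTm : ∀ t ∈ T0, SM v O' (fun i => φ (z' i)) J t := by
    intro t ht
    obtain ⟨P, Q, hP, hQ, hP0, hQ0, htPQ, hEP, hEQ⟩ := hE t ht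
    obtain ⟨p1, p2, p3⟩ := unit_of_err hP0 hEP
    obtain ⟨q1, q2, q3⟩ := unit_of_err hQ0 hEQ
    have hPc : P.eval (z - c') ≠ 0 := fun h => p2 (by rw [h, zero_div])
    have hQc : Q.eval (z - c') ≠ 0 := fun h => q2 (by rw [h, zero_div])
    have hφP : φ (P.eval (z - c')) = P.eval z := by
      rw [map_eval fun i => hφL _ (hP i), _root_.map_sub, hφz, hφL _ hc'L, add_sub_cancel_right]
    have hφQ : φ (Q.eval (z - c')) = Q.eval z := by
      rw [map_eval fun i => hφL _ (hQ i), _root_.map_sub, hφz, hφL _ hc'L, add_sub_cancel_right]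
    have hOinv : ∀ f ∈ O, f ≠ 0 → (cm v φ) f = 0 → f⁻¹ ∈ O := by
      rw [hO]
      exact fun f => lv_inv
    obtain ⟨y, hy⟩ : ∃ y : Ω, y = (P.eval (z - c') / P.eval z) * (Q.eval (z - c') / Q.eval z)⁻¹ :=
      ⟨_, rfl⟩
    have hyO : y ∈ O := by rw [hy]; exact O.mul_mem p1 (hOinv _ q1 q2 q3)
    have hy0 : y ≠ 0 := by rw [hy]; exact mul_ne_zero p2 (inv_ne_zero q2)
    have hyV : (cm v φ) y = 0 := by
      rw [hy, RVal.map_mul _ p2 (inv_ne_zero q2), RVal.map_inv _ q2, p3, q3]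
      simp
    have h1 : φ t * φ y = t := by
      rw [← _root_.map_mul]
      have h2 : t * y = P.eval (z - c') / Q.eval (z - c') := by
        rw [htPQ, hy]
        field_simp
      rw [h2, map_div₀, hφP, hφQ, htPQ]
    have h2 := (sm_map (hT0 t ht)).mul_unit hz'0 (apply_mem_map.2 hyO) ((map_ne_zero φ).2 hy0) hyV
    rw [h1] at h2
    rw [hO']
    exact h2
  have hdm' : SM v O' (fun i => φ (z' i)) J d := by
    have h1 := sm_map hdm
    have hdL : d ∈ L := by
      refine adj_induction (p := fun f => f ∈ L) ?_ hA1L (fun _ _ => L.add_mem)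
        (fun _ _ => L.mul_mem) hd
      rw [hR]
      rintro _ ⟨a, rfl⟩
      exact hkL a
    rw [hφL d hdL] at h1
    rw [hO']
    exact h1
  -- quotients with monomial denominators
  have hAA : ∀ a ∈ adj R (A : Set Ω), v.Ge 0 a := adj_nonneg hRv hA
  have hO'inv : ∀ f ∈ O', f ≠ 0 → v f = 0 → f⁻¹ ∈ O' := by
    rw [hO'FR]
    exact fun f => lv_inv
  have hA0v : ∀ a ∈ A0, v.Ge 0 a := by
    intro a ha
    rw [hA0, Finset.mem_insert, Finset.mem_insert] at ha
    rcases ha with rfl | rfl | ha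
    · exact hzv
    · exact hcv
    · exact hA1 a ha
  have hFRv : ∀ f ∈ FR, v.Ge 0 f := by
    intro f hf
    rw [hFR, Finset.mem_union, Finset.mem_image] at hf
    rcases hf with hf | ⟨x, hx, rfl⟩
    · exact hA0v f hf
    · have h1 := cm_ge.1 (hG x hx).2
      intro h2
      have hx0 : φ x ≠ 0 := fun h => h2 (by rw [h, zero_div])
      have h3 := h1 hx0
      rw [v.map_div hx0 ((map_ne_zero φ).2 hg0)]
      rw [cm_apply] at h3
      linarith
  have hO'v : ∀ f ∈ O', v.Ge 0 f := by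
    rw [hO'FR]
    exact lv_nonneg (adj_nonneg hRv hFRv)
  obtain ⟨D, hD⟩ : ∃ D : Subring Ω, D = QM v O' (fun i => φ (z' i)) J hz'0
    (adj R (A : Set Ω)) hAA := ⟨_, rfl⟩
  have hRD : R ≤ D := by
    rw [hD]
    exact (base_le_adj R _).trans le_QM
  have hbD : ∀ b ∈ insert z A1, b ∈ D := by
    intro b hb
    obtain ⟨β, hβ1, hβ2, α, hα, rfl⟩ := hβ b hb
    rw [hD]
    exact ⟨α, hα, β, hβ1, hTm β hβ2, rfl⟩
  have hA1D : adj R (A1 : Set Ω) ≤ D :=
    adj_le hRD fun a ha => hbD a (Finset.mem_insert_of_mem ha)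
  have hcD : c ∈ D := by
    have h1 : d⁻¹ ∈ D := by
      rw [hD]
      refine qm_inv hO'inv (by rw [← hD]; exact hA1D hd) ?_ hdm'
      exact adj_nonneg hRv hA1 d hd hd0
    have h2 : c = (c * d) * d⁻¹ := by field_simp
    rw [h2]
    exact D.mul_mem (hA1D hcd) h1
  have hA0D : adj R (A0 : Set Ω) ≤ D := by
    refine adj_le hRD ?_
    intro a ha
    rw [hA0, Finset.coe_insert, Finset.coe_insert] at ha
    rcases ha with rfl | rfl | ha
    · exact hbD _ (Finset.mem_insert_self _ _)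
    · exact hcD
    · exact hbD a (Finset.mem_insert_of_mem ha)
  have hFRD : ∀ f ∈ FR, f ∈ D := by
    intro f hf
    rw [hFR, Finset.mem_union, Finset.mem_image] at hf
    rcases hf with hf | ⟨x, hx, rfl⟩
    · exact hA0D (mem_adj hf)
    · have h1 : φ x ∈ D := hA0D (hφadj x (hG x hx).1)
      have h2 : φ g ∈ D := hA0D (hφadj g hg)
      have h3 : 0 ≤ v (φ g) := by
        have h4 : ∀ f ∈ adj R (A0 : Set Ω), v.Ge 0 f := adj_nonneg hRv hA0v
        exact h4 _ (hφadj g hg) ((map_ne_zero φ).2 hg0)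
      have h4 : (φ g)⁻¹ ∈ D := by
        rw [hD] at h2 ⊢
        refine qm_inv hO'inv h2 h3 ?_
        have h5 := sm_map hgm
        rwa [← hO'] at h5
      rw [div_eq_mul_inv]
      exact D.mul_mem h1 h4
  have hAO' : ∀ a ∈ A, a ∈ O' := by
    intro a ha
    by_cases h0 : a = 0
    · rw [h0]
      exact O'.zero_mem
    · refine SM.mem (z := fun i => φ (z' i)) (J := J) ?_ (hTm a (hAT a ha h0)) (hA a ha h0)
      intro i
      rw [hO']
      exact apply_mem_map.2 (hpar.mem i)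
  have hchart := chart_of (hz := hz'0) (J := J) hO'inv hO'v A hAA hAO' FR hO'FR
    (fun f hf => by rw [← hD]; exact hFRD f hf)
  refine ⟨n, fun i => φ (z' i), J, O', ⟨?_, hchart, fun t ht => hTm t (hTT ht)⟩, ?_⟩
  · rw [hO']
    exact par_map hpar
  · rw [hO', dim_map, hdim]

end

end Pool.Agent.TWT
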