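import Pool.Agent.Lib.TWT.TR2

/-!
# TWT, TR3: log uniformization of `K = L(z)` by translation
-/

set_option autoImplicit false

open Polynomial

namespace Pool.Agent.TWT

open Pool.Agent.H15JM (RVal)
open Pool.Agent.LU1 (VPos val_add_vpos)
open Pool.Agent.LUC

universe u

variable {Ω : Type u} [Field Ω]

theorem quoIs_of_closure {B : Subring Ω} {K : Subfield Ω} (hB : ∀ f ∈ B, f ∈ K)
    (hK : ∀ f ∈ K, f ∈ Subfield.closure (B : Set Ω)) : QuoIs B K := by
  refine ⟨hB, fun f hf => ?_⟩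
  obtain ⟨a, ha, b, hb, hab⟩ := Subfield.mem_closure_iff.1 (hK f hf)
  rw [Subring.closure_eq] at ha hb
  by_cases h0 : b = 0
  · refine ⟨0, B.zero_mem, 1, B.one_mem, one_ne_zero, ?_⟩
    rw [← hab, h0]
    simp
  · exact ⟨a, ha, b, hb, h0, hab.symm⟩

/-- **Translation.** -/
theorem lus_of_trans {k : Type*} [Field k] [PerfectField k] [Algebra k Ω] {v : RVal Ω}
    (hk : ∀ c : k, c ≠ 0 → v (algebraMap k Ω c) = 0) {L K : Subfield Ω}
    (hkL : ∀ c : k, algebraMap k Ω c ∈ L) (hLK : L ≤ K) {z : Ω} (hzK : z ∈ K) (hzv : v.Ge 0 z)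
    (hKz : ∀ f ∈ K, f ≠ 0 → ∃ P Q : Polynomial Ω, (∀ i, P.coeff i ∈ L) ∧ (∀ i, Q.coeff i ∈ L) ∧
      P.eval z ≠ 0 ∧ Q.eval z ≠ 0 ∧ f = P.eval z / Q.eval z)
    (A1 : Finset Ω) (hA1 : ∀ a ∈ A1, v.Ge 0 a)
    (hq1 : QuoIs (adj (algebraMap k Ω).range (A1 : Set Ω)) L)
    (H : ∀ S : Finset (Polynomial Ω), (∀ P ∈ S, (∀ i, P.coeff i ∈ L) ∧ P.eval z ≠ 0) →
      ∃ (w : RVal Ω) (c : Ω), c ∈ L ∧ v.Ge 0 c ∧ (∀ x ∈ L, x ≠ 0 → w x = v x) ∧
        w.Ge 0 z ∧ LUs w (algebraMap k Ω).range K ∧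
        (∀ P ∈ S, ∀ j : ℕ, 1 ≤ j → VPos w ((hasseDeriv j P).eval z * c ^ j / P.eval z)) ∧
        ∀ U : Finset Ω, (∀ f ∈ U, f ∈ K) → ∃ (a : k) (φ : Ω ≃+* Ω), (∀ x ∈ L, φ x = x) ∧
          φ z = z + algebraMap k Ω a * c ∧ Dom w (cm v φ) (U : Set Ω)) :
    LUs v (algebraMap k Ω).range K := by
  classical
  intro A hA hq T hT
  have hRL : ∀ x ∈ (algebraMap k Ω).range, x ∈ L := by
    rintro _ ⟨a, rfl⟩
    exact hkL a
  have hA1L : ∀ a ∈ A1, a ∈ L := fun a ha => hq1.1 a (mem_adj ha)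
  have hAK : ∀ a ∈ A, a ∈ K := fun a ha => hq.1 a (mem_adj ha)
  -- denominators of the generators
  have hgenK : ∀ b ∈ insert z A1, b ∈ K := by
    intro b hb
    rcases Finset.mem_insert.1 hb with rfl | hb
    · exact hzK
    · exact hLK (hA1L b hb)
  have hβ0 : ∀ b : Ω, ∃ β : Ω, b ∈ insert z A1 → β ∈ adj (algebraMap k Ω).range (A : Set Ω) ∧
      β ≠ 0 ∧ ∃ α ∈ adj (algebraMap k Ω).range (A : Set Ω), b = α / β := by
    intro b
    by_cases hb : b ∈ insert z A1
    · obtain ⟨α, hα, β, hβ, hβ0, h1⟩ := hq.2 b (hgenK b hb)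
      exact ⟨β, fun _ => ⟨hβ, hβ0, α, hα, h1⟩⟩
    · exact ⟨0, fun h => absurd h hb⟩
  choose β hβ using hβ0
  obtain ⟨T0, hT0⟩ : ∃ T0 : Finset Ω, T0 = T ∪ A.filter (fun a => a ≠ 0) ∪
      (insert z A1).image β := ⟨_, rfl⟩
  have hT0K : ∀ t ∈ T0, t ∈ K ∧ t ≠ 0 := by
    intro t ht
    rw [hT0, Finset.mem_union, Finset.mem_union, Finset.mem_filter, Finset.mem_image] at ht
    rcases ht with (ht | ⟨ht, ht0⟩) | ⟨b, hb, rfl⟩
    · exact hT t ht
    · exact ⟨hAK t ht, ht0⟩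
    · exact ⟨hq.1 _ (hβ b hb).1, (hβ b hb).2.1⟩
  -- polynomials
  have hPQ : ∀ t : Ω, ∃ P Q : Polynomial Ω, t ∈ T0 → (∀ i, P.coeff i ∈ L) ∧
      (∀ i, Q.coeff i ∈ L) ∧ P.eval z ≠ 0 ∧ Q.eval z ≠ 0 ∧ t = P.eval z / Q.eval z := by
    intro t
    by_cases ht : t ∈ T0
    · obtain ⟨P, Q, h⟩ := hKz t (hT0K t ht).1 (hT0K t ht).2
      exact ⟨P, Q, fun _ => h⟩
    · exact ⟨0, 0, fun h => absurd h ht⟩
  choose P Q hPQ using hPQ
  obtain ⟨S0, hS0⟩ : ∃ S0 : Finset (Polynomial Ω), S0 = T0.image P ∪ T0.image Q := ⟨_, rfl⟩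
  have hS0L : ∀ p ∈ S0, (∀ i, p.coeff i ∈ L) ∧ p.eval z ≠ 0 := by
    intro p hp
    rw [hS0, Finset.mem_union, Finset.mem_image, Finset.mem_image] at hp
    rcases hp with ⟨t, ht, rfl⟩ | ⟨t, ht, rfl⟩
    · exact ⟨(hPQ t ht).1, (hPQ t ht).2.2.1⟩
    · exact ⟨(hPQ t ht).2.1, (hPQ t ht).2.2.2.1⟩
  obtain ⟨w, c, hcL, hcv, hwL, hwz, hLU, hWE, hU⟩ := H S0 hS0L
  -- the valuation `w` on `L`
  have hwge : ∀ x ∈ L, v.Ge 0 x → w.Ge 0 x := by
    intro x hx hx0 h0
    rw [hwL x hx h0]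
    exact hx0 h0
  have hkw : ∀ a : k, a ≠ 0 → w (algebraMap k Ω a) = 0 := by
    intro a ha
    rw [hwL _ (hkL a) ((_root_.map_ne_zero _).2 ha)]
    exact hk a ha
  -- `c = (c d) / d`
  obtain ⟨cd, hcd, d, hd, hd0, hcdd⟩ := hq1.2 c hcL
  have hcd' : c * d = cd := by rw [hcdd]; field_simp
  have hdL : d ∈ L := hq1.1 d hd
  -- the model
  obtain ⟨A0, hA0⟩ : ∃ A0 : Finset Ω, A0 = insert z (insert c A1) := ⟨_, rfl⟩
  have hA0K : ∀ a ∈ A0, a ∈ K := by
    intro a ha
    rw [hA0, Finset.mem_insert, Finset.mem_insert] at ha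
    rcases ha with rfl | rfl | ha
    · exact hzK
    · exact hLK hcL
    · exact hLK (hA1L a ha)
  have hA0w : ∀ a ∈ A0, w.Ge 0 a := by
    intro a ha
    rw [hA0, Finset.mem_insert, Finset.mem_insert] at ha
    rcases ha with rfl | rfl | ha
    · exact hwz
    · exact hwge _ hcL hcv
    · exact hwge a (hA1L a ha) (hA1 a ha)
  have hzA0 : z ∈ adj (algebraMap k Ω).range (A0 : Set Ω) := mem_adj (by rw [hA0]; simp)
  have hcA0 : c ∈ adj (algebraMap k Ω).range (A0 : Set Ω) := mem_adj (by rw [hA0]; simp)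
  have hA1A0 : adj (algebraMap k Ω).range (A1 : Set Ω) ≤ adj (algebraMap k Ω).range (A0 : Set Ω) :=
    adj_mono le_rfl (by
      intro a ha
      rw [hA0]
      simp only [Finset.coe_insert, Set.mem_insert_iff]
      exact Or.inr (Or.inr ha))
  have hqA0 : QuoIs (adj (algebraMap k Ω).range (A0 : Set Ω)) K := by
    refine quoIs_of_closure ?_ ?_
    · intro f hf
      exact adj_induction (p := fun f => f ∈ K) (fun x hx => hLK (hRL x hx)) hA0K
        (fun _ _ => K.add_mem) (fun _ _ => K.mul_mem) hf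
    · intro f hf
      by_cases h0 : f = 0
      · rw [h0]
        exact Subfield.zero_mem _
      obtain ⟨p, q, hp, hq', -, -, rfl⟩ := hKz f hf h0
      have hLc : ∀ x ∈ L, x ∈ Subfield.closure
          ((adj (algebraMap k Ω).range (A0 : Set Ω) : Subring Ω) : Set Ω) := by
        intro x hx
        obtain ⟨a, ha, b, hb, -, rfl⟩ := hq1.2 x hx
        exact Subfield.div_mem _ (Subfield.subset_closure (hA1A0 ha))
          (Subfield.subset_closure (hA1A0 hb))
      have hev : ∀ p : Polynomial Ω, (∀ i, p.coeff i ∈ L) → p.eval z ∈ Subfield.closure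
          ((adj (algebraMap k Ω).range (A0 : Set Ω) : Subring Ω) : Set Ω) := by
        intro p hp
        rw [Polynomial.eval_eq_sum_range]
        exact Subfield.sum_mem _ fun i _ => Subfield.mul_mem _ (hLc _ (hp i))
          (Subfield.pow_mem _ (Subfield.subset_closure hzA0) i)
      exact Subfield.div_mem _ (hev p hp) (hev q hq')
  -- the elements which have to be monomials
  obtain ⟨E, hE⟩ : ∃ E : Finset Ω, E = (S0.biUnion fun p => (Finset.range (p.natDegree + 1)).image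
      fun j => (hasseDeriv j p).eval z * c ^ j / p.eval z).filter fun x => x ≠ 0 := ⟨_, rfl⟩
  have hEK : ∀ x ∈ E, x ∈ K ∧ x ≠ 0 := by
    intro x hx
    rw [hE, Finset.mem_filter, Finset.mem_biUnion] at hx
    obtain ⟨⟨p, hp, hx⟩, hx0⟩ := hx
    obtain ⟨j, -, rfl⟩ := Finset.mem_image.1 hx
    refine ⟨?_, hx0⟩
    have hev : ∀ p : Polynomial Ω, (∀ i, p.coeff i ∈ L) → p.eval z ∈ K := by
      intro p hp
      rw [Polynomial.eval_eq_sum_range]
      exact K.sum_mem fun i _ => K.mul_mem (hLK (hp i)) (K.pow_mem hzK i)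
    refine K.div_mem (K.mul_mem (hev _ fun i => ?_) (K.pow_mem (hLK hcL) j))
      (hev p (hS0L p hp).1)
    rw [hasseDeriv_coeff]
    exact L.mul_mem (natCast_mem L _) ((hS0L p hp).1 _)
  obtain ⟨T1, hT1⟩ : ∃ T1 : Finset Ω, T1 = T0 ∪ {d} ∪ E := ⟨_, rfl⟩
  have hT1K : ∀ t ∈ T1, t ∈ K ∧ t ≠ 0 := by
    intro t ht
    rw [hT1, Finset.mem_union, Finset.mem_union, Finset.mem_singleton] at ht
    rcases ht with (ht | rfl) | ht
    · exact hT0K t ht
    · exact ⟨hLK hdL, hd0⟩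
    · exact hEK t ht
  obtain ⟨n, z', J, O, hmod, hdim⟩ := hLU A0 hA0w hqA0 T1 hT1K
  obtain ⟨g, G, S2, hS2K, hg, hg0, hG, hctrl⟩ := exists_control w hkw hA0w hmod hdim
    (K := K) (fun a => hLK (hkL a)) hA0K
  obtain ⟨a, φ, hφL, hφz, hdom⟩ := hU (S2 ∪ T1) (by
    intro f hf
    rcases Finset.mem_union.1 hf with hf | hf
    · exact hS2K f hf
    · exact (hT1K f hf).1)
  have hkV : ∀ b : k, b ≠ 0 → (cm v φ) (algebraMap k Ω b) = 0 := by
    intro b hb
    rw [cm_apply, hφL _ (hkL b)]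
    exact hk b hb
  obtain ⟨m, x, -, hGV, hgm, hmodV, hdimV⟩ := hctrl (cm v φ) hkV
    (hdom.mono (by rw [Finset.coe_union]; exact Set.subset_union_left))
  obtain ⟨O', hO'⟩ : ∃ O' : Subring Ω, O' = lv (cm v φ) (adj (algebraMap k Ω).range
      ((A0 : Set Ω) ∪ (fun x => x / g) '' (G : Set Ω))) := ⟨_, rfl⟩
  rw [← hO'] at hgm hmodV hdimV
  have hac : algebraMap k Ω a * c ∈ adj (algebraMap k Ω).range (A0 : Set Ω) :=
    Subring.mul_mem _ (base_le_adj _ _ ⟨a, rfl⟩) hcA0
  have hmono : ∀ t ∈ T1, SM (cm v φ) O' (Fin.append z' x) (J.map (Fin.castAddEmb m)) t :=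
    fun t ht => hmodV.mono t ht
  -- the errors
  have herr : ∀ p ∈ S0, ∀ j : ℕ, 1 ≤ j →
      (hasseDeriv j p).eval z * (algebraMap k Ω a * c) ^ j / p.eval z ∈ O' ∧
      VPos (cm v φ) ((hasseDeriv j p).eval z * (algebraMap k Ω a * c) ^ j / p.eval z) := by
    intro p hp j hj
    have h1 : (hasseDeriv j p).eval z * (algebraMap k Ω a * c) ^ j / p.eval z =
        algebraMap k Ω a ^ j * ((hasseDeriv j p).eval z * c ^ j / p.eval z) := by
      rw [mul_pow]
      ring
    have haO : algebraMap k Ω a ^ j ∈ O' := by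
      rw [hO']
      exact Subring.pow_mem _ (le_lv _ _ (base_le_adj _ _ (RingHom.mem_range_self _ a))) j
    have hav : (cm v φ).Ge 0 (algebraMap k Ω a ^ j) := by
      intro h0
      have ha0 : algebraMap k Ω a ≠ 0 := by
        intro h2
        apply h0
        rw [h2, zero_pow (by omega)]
      rw [(cm v φ).map_pow ha0, hkV a (by rintro rfl; simp at ha0), mul_zero]
    rw [h1]
    by_cases h0 : (hasseDeriv j p).eval z * c ^ j / p.eval z = 0
    · rw [h0, mul_zero]
      exact ⟨O'.zero_mem, VPos.zero⟩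
    · have hjd : j ≤ p.natDegree := by
        by_contra hlt
        push Not at hlt
        apply h0
        rw [hasseDeriv_eq_zero_of_lt_natDegree p j hlt, eval_zero, zero_mul, zero_div]
      have hE1 : (hasseDeriv j p).eval z * c ^ j / p.eval z ∈ T1 := by
        rw [hT1, Finset.mem_union, hE, Finset.mem_filter, Finset.mem_biUnion]
        exact Or.inr ⟨⟨p, hp, Finset.mem_image.2 ⟨j, Finset.mem_range.2 (by omega), rfl⟩⟩, h0⟩
      have hpos : 0 < (cm v φ) ((hasseDeriv j p).eval z * c ^ j / p.eval z) :=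
        (hdom _ (by rw [Finset.coe_union]; exact Or.inr hE1) h0).2 (hWE p hp j hj h0)
      refine ⟨O'.mul_mem haO (SM.mem hmodV.par.mem (hmono _ hE1) hpos.le), ?_⟩
      exact VPos.mul' hav fun _ => hpos
  refine assemble (T0 := T0) (φ := φ) (z := z) (c := c) (c' := algebraMap k Ω a * c) (d := d)
    (A1 := A1) (L := L) (g := g) (G := G) hk hkL hA ?_ ?_ hA1L hA1 hzv ?_ hφL hφz
    (L.mul_mem (hkL a) hcL) hcL ?_ hcv hd hd0 (by rw [hcd']; exact hcd) hmodV.par ?_ ?_ hg0 hgm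
    ?_ ?_ ?_ hdimV ?_
  · rw [hT0]
    exact Finset.subset_union_left.trans Finset.subset_union_left
  · intro a ha ha0
    rw [hT0, Finset.mem_union, Finset.mem_union, Finset.mem_filter]
    exact Or.inl (Or.inr ⟨ha, ha0⟩)
  · intro b hb
    obtain ⟨h1, h2, α, hα, h3⟩ := hβ b hb
    refine ⟨β b, h1, ?_, α, hα, h3⟩
    rw [hT0, Finset.mem_union]
    exact Or.inr (Finset.mem_image_of_mem _ hb)
  · rw [← hA0]
    exact hac
  · rw [← hA0]
    exact hO'
  · rw [← hA0]
    exact hg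
  · rw [← hA0]
    exact fun x hx => ⟨hG x hx, hGV x hx⟩
  · intro t ht
    exact hmono t (by rw [hT1]; exact Finset.mem_union_left _ (Finset.mem_union_left _ ht))
  · exact hmono d (by rw [hT1]; simp)
  · intro t ht
    obtain ⟨h1, h2, h3, h4, h5⟩ := hPQ t ht
    refine ⟨P t, Q t, h1, h2, h3, h4, h5, herr _ ?_, herr _ ?_⟩
    · rw [hS0, Finset.mem_union]
      exact Or.inl (Finset.mem_image_of_mem _ ht)
    · rw [hS0, Finset.mem_union]
      exact Or.inr (Finset.mem_image_of_mem _ ht)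

/-- The coefficients of `P(z + c Y) / P(z)`, if `P` is a product of linear factors `X - β` with
`w c > w (z - β)`. -/
theorem vpos_hasse {w : RVal Ω} {z c : Ω} {P : Polynomial Ω} {a : Ω} (s : Multiset Ω)
    (hP : P = C a * (s.map fun β => X - C β).prod) (hz : P.eval z ≠ 0)
    (hs : ∀ β ∈ s, VPos w (c / (z - β))) (j : ℕ) (hj : 1 ≤ j) :
    VPos w ((hasseDeriv j P).eval z * c ^ j / P.eval z) := by
  -- the statement for all products
  have key : ∀ s : Multiset Ω, (∀ β ∈ s, VPos w (c / (z - β))) →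
      ∀ P : Polynomial Ω, P = C a * (s.map fun β => X - C β).prod → P.eval z ≠ 0 →
      ∀ j : ℕ, 1 ≤ j → VPos w ((hasseDeriv j P).eval z * c ^ j / P.eval z) := by
    intro s
    induction s using Multiset.induction_on with
    | empty =>
      intro _ P hP hz j hj
      rw [Multiset.map_zero, Multiset.prod_zero, mul_one] at hP
      rw [hP, hasseDeriv_C j a (by omega), eval_zero, zero_mul, zero_div]
      exact VPos.zero
    | cons β s ih =>
      intro hs P hP hz j hj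
      obtain ⟨P', hP'⟩ : ∃ P' : Polynomial Ω, P' = C a * (s.map fun β => X - C β).prod :=
        ⟨_, rfl⟩
      have hPP : P = (X - C β) * P' := by
        rw [hP, hP', Multiset.map_cons, Multiset.prod_cons]
        ring
      have hz' : P'.eval z ≠ 0 := by
        intro h
        apply hz
        rw [hPP, eval_mul, h, mul_zero]
      have hβ : z - β ≠ 0 := by
        intro h
        apply hz
        rw [hPP, eval_mul, eval_sub, eval_X, eval_C, h, zero_mul]
      have ih' := ih (fun γ hγ => hs γ (Multiset.mem_cons_of_mem hγ)) P' hP' hz'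
      -- all the coefficients, with the constant one
      have ih0 : ∀ i : ℕ, w.Ge 0 ((hasseDeriv i P').eval z * c ^ i / P'.eval z) := by
        intro i
        rcases Nat.eq_zero_or_pos i with rfl | hi
        · rw [hasseDeriv_zero, LinearMap.id_apply, pow_zero, mul_one, div_self hz']
          intro _
          rw [w.map_one]
        · exact (ih' i hi).ge
      have h1 : (hasseDeriv j P).eval z = (z - β) * (hasseDeriv j P').eval z +
          (hasseDeriv (j - 1) P').eval z := by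
        obtain ⟨i, rfl⟩ : ∃ i, j = i + 1 := ⟨j - 1, by omega⟩
        rw [Nat.add_sub_cancel, ← taylor_coeff, ← taylor_coeff, ← taylor_coeff, hPP, taylor_mul]
        have h2 : taylor z (X - C β) = X + C (z - β) := by
          rw [map_sub, taylor_X, taylor_C, map_sub]
          ring
        rw [h2, add_mul, coeff_add, coeff_X_mul, coeff_C_mul]
        ring
      have h2 : (hasseDeriv j P).eval z * c ^ j / P.eval z =
          (hasseDeriv j P').eval z * c ^ j / P'.eval z +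
            (hasseDeriv (j - 1) P').eval z * c ^ (j - 1) / P'.eval z * (c / (z - β)) := by
        have h3 : P.eval z = (z - β) * P'.eval z := by
          rw [hPP, eval_mul, eval_sub, eval_X, eval_C]
        have h4 : c ^ j = c ^ (j - 1) * c := by
          rw [← pow_succ]
          congr 1
          omega
        rw [h1, h3, h4]
        field_simp
      rw [h2]
      exact (ih' j hj).add (VPos.mul' (ih0 (j - 1)) (hs β (Multiset.mem_cons_self β s)))
  exact key s hs P hP hz j hj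

end Pool.Agent.TWT
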